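import Mathlib

/-!
# Divergent but non-obvious orbits on `SL(n,ℝ)/Γ`: definitions
-/

open Matrix Filter Topology

namespace Wei

variable {ι : Type} [Fintype ι] [DecidableEq ι]

/-- The trace-zero vectors: the Lie algebra of the full diagonal torus of `SL(ι,ℝ)`. -/
def TZ (ι : Type) [Fintype ι] : Submodule ℝ (ι → ℝ) where
  carrier := {a | ∑ i, a i = 0}
  add_mem' := by
    intro a b ha hb
    simp only [Set.mem_ofPred_eq, Pi.add_apply, Finset.sum_add_distrib] at *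
    rw [ha, hb, add_zero]
  zero_mem' := by simp
  smul_mem' := by
    intro c a ha
    simp only [Set.mem_ofPred_eq, Pi.smul_apply, smul_eq_mul, ← Finset.mul_sum] at *
    rw [ha, mul_zero]

/-- The diagonal matrix `diag(exp aᵢ)`, as an element of `SL(ι,ℝ)`. -/
noncomputable def dg (a : TZ ι) : SpecialLinearGroup ι ℝ :=
  ⟨diagonal (fun i => Real.exp ((a : ι → ℝ) i)), by
    rw [det_diagonal, ← Real.exp_sum]
    have h : ∑ i, (a : ι → ℝ) i = 0 := a.2
    rw [h, Real.exp_zero]⟩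

/-- `SL(ι,ℤ)` as a subgroup of `SL(ι,ℝ)`. -/
def SLZ (ι : Type) [Fintype ι] [DecidableEq ι] : Subgroup (SpecialLinearGroup ι ℝ) :=
  (SpecialLinearGroup.map (Int.castRingHom ℝ)).range

theorem dg_add (a b : TZ ι) : dg (a + b) = dg a * dg b := by
  apply Subtype.ext
  show diagonal _ = diagonal _ * diagonal _
  rw [diagonal_mul_diagonal]
  congr 1
  funext i
  exact Real.exp_add _ _

theorem dg_zero : dg (0 : TZ ι) = 1 := by
  apply Subtype.ext
  simp [dg]

theorem dg_neg (a : TZ ι) : dg (-a) = (dg a)⁻¹ := by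
  rw [eq_inv_iff_mul_eq_one, ← dg_add, neg_add_cancel, dg_zero]

/-- The group `h · exp(𝔡) · h⁻¹`, for a linear subspace `𝔡` of the Lie algebra of the
diagonal torus. -/
noncomputable def torus (h : SpecialLinearGroup ι ℝ) (𝔡 : Submodule ℝ (TZ ι)) :
    Subgroup (SpecialLinearGroup ι ℝ) where
  carrier := {g | ∃ a ∈ 𝔡, g = h * dg a * h⁻¹}
  mul_mem' := by
    rintro _ _ ⟨a, ha, rfl⟩ ⟨b, hb, rfl⟩
    exact ⟨a + b, 𝔡.add_mem ha hb, by rw [dg_add]; group⟩
  one_mem' := ⟨0, 𝔡.zero_mem, by rw [dg_zero]; group⟩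
  inv_mem' := by
    rintro _ ⟨a, ha, rfl⟩
    exact ⟨-a, 𝔡.neg_mem ha, by rw [dg_neg]; group⟩

/-- The orbit `D x` in `G/Γ` is divergent: `d x` leaves every compact subset of `G/Γ`
as `d → ∞` in `D`. -/
def Divergent (Γ D : Subgroup (SpecialLinearGroup ι ℝ)) (x : SpecialLinearGroup ι ℝ ⧸ Γ) : Prop :=
  Tendsto (fun d : D => (d : SpecialLinearGroup ι ℝ) • x) (cocompact D)
    (cocompact (SpecialLinearGroup ι ℝ ⧸ Γ))

/-- `ρ : SL(ι,ℝ) → GL(m,ℝ)` is a `ℚ`-representation: a group homomorphism whose matrix entries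
are polynomials with rational coefficients in the entries of the group element. -/
def IsQRep {m : ℕ} (ρ : SpecialLinearGroup ι ℝ →* Matrix (Fin m) (Fin m) ℝ) : Prop :=
  ∃ P : Fin m → Fin m → MvPolynomial (ι × ι) ℚ, ∀ g i j,
    ρ g i j = MvPolynomial.aeval (fun p : ι × ι => (g p.1 p.2 : ℝ)) (P i j)

/-- The orbit `D x` is obvious: there are finitely many `ℚ`-representations `ρᵢ` and nonzero
rational vectors `vᵢ` such that, for `x = gΓ` and for every sequence `dₙ → ∞` in `D`, there are an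
index `i` and a subsequence along which `ρᵢ(dₙ g) vᵢ → 0`. -/
def Obvious (Γ D : Subgroup (SpecialLinearGroup ι ℝ)) (x : SpecialLinearGroup ι ℝ ⧸ Γ) : Prop :=
  ∃ g : SpecialLinearGroup ι ℝ, (g : SpecialLinearGroup ι ℝ ⧸ Γ) = x ∧
    ∃ (l : ℕ) (m : Fin l → ℕ)
      (ρ : ∀ i : Fin l, SpecialLinearGroup ι ℝ →* Matrix (Fin (m i)) (Fin (m i)) ℝ)
      (v : ∀ i : Fin l, Fin (m i) → ℚ),
      (∀ i, IsQRep (ρ i)) ∧ (∀ i, v i ≠ 0) ∧
      ∀ d : ℕ → D, Tendsto d atTop (cocompact D) →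
        ∃ i : Fin l, ∃ φ : ℕ → ℕ, StrictMono φ ∧
          Tendsto (fun k => ρ i ((d (φ k) : SpecialLinearGroup ι ℝ) * g) *ᵥ
            (fun j => (v i j : ℝ))) atTop (𝓝 0)

/-! ### Auxiliary definitions used in the proof -/

/-- Polynomial representations over `ℝ`. -/
def PolyRep {m : ℕ} (ρ : SpecialLinearGroup ι ℝ →* Matrix (Fin m) (Fin m) ℝ) : Prop :=
  ∃ P : Fin m → Fin m → MvPolynomial (ι × ι) ℝ, ∀ g i j,
    ρ g i j = MvPolynomial.eval (fun p : ι × ι => (g p.1 p.2 : ℝ)) (P i j)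

/-- The coroot direction `e_a - e_b`. -/
def cr (a b : ι) : TZ ι :=
  ⟨Pi.single a 1 - Pi.single b 1, by
    show ∑ i, (Pi.single a 1 - Pi.single b 1 : ι → ℝ) i = 0
    simp [Finset.sum_sub_distrib]⟩

/-- The chart of lower unipotent matrices for `θ`: ones on the diagonal, and the only other
possibly nonzero entries are `(a,b)` with `θ a > 0 > θ b`. (As functions of two indices.) -/
def chart (θ : ι → ℝ) : Set (ι → ι → ℝ) :=
  {x | (∀ a, x a a = 1) ∧ ∀ a b, a ≠ b → ¬ (0 < θ a ∧ θ b < 0) → x a b = 0}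

/-- Value of a polynomial in the matrix entries. -/
noncomputable def pv (f : MvPolynomial (ι × ι) ℝ) (x : ι → ι → ℝ) : ℝ :=
  MvPolynomial.eval (fun p : ι × ι => x p.1 p.2) f

/-- The lattice `e(rθ) x ℤ^ι` has a nonzero vector with all coordinates `< ε`. -/
def VS (θ : ι → ℝ) (x : ι → ι → ℝ) (r ε : ℝ) : Prop :=
  ∃ v : ι → ℤ, v ≠ 0 ∧ ∀ i, |Real.exp (r * θ i) * ∑ j, x i j * (v j : ℝ)| < ε

/-- The dual lattice has a nonzero (co)vector with all coordinates `< ε`. -/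
def CS (θ : ι → ℝ) (x : ι → ι → ℝ) (r ε : ℝ) : Prop :=
  ∃ φ : ι → ℤ, φ ≠ 0 ∧
    ∀ j, |Real.exp (-(r * θ j)) * ∑ i, (φ i : ℝ) * (adjugate (Matrix.of x)) i j| < ε

/-- Short vector or short covector. -/
def SS (θ : ι → ℝ) (x : ι → ι → ℝ) (r ε : ℝ) : Prop := VS θ x r ε ∨ CS θ x r ε

/-- Members of the chart whose column `i` (in the rows with `θ > 0`) is the rational vector `c`. -/
def ZV (θ : ι → ℝ) (i : ι) (c : ι → ℚ) : Set (ι → ι → ℝ) :=
  {x | x ∈ chart θ ∧ ∀ a, 0 < θ a → x a i = (c a : ℝ)}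

/-- Members of the chart whose row `a` (in the columns with `θ < 0`) is the rational vector `c`. -/
def ZC (θ : ι → ℝ) (a : ι) (c : ι → ℚ) : Set (ι → ι → ℝ) :=
  {x | x ∈ chart θ ∧ ∀ b, θ b < 0 → x a b = (c b : ℝ)}

/-- The matrices `1 + x E_{zi} + y E_{ji} + w E_{jz}`. -/
def mk3 (i z j : ι) (x y w : ℝ) : ι → ι → ℝ := fun a b =>
  if a = b then 1 else if a = z ∧ b = i then x else if a = j ∧ b = i then y
  else if a = j ∧ b = z then w else 0

/-- The vectors contracted by `ρ(e(rθ))` as `r → +∞`. -/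
noncomputable def Vm {m : ℕ} (ρ : SpecialLinearGroup ι ℝ →* Matrix (Fin m) (Fin m) ℝ) (θ : TZ ι) :
    Submodule ℝ (Fin m → ℝ) where
  carrier := {w | Tendsto (fun r : ℝ => ρ (dg (r • θ)) *ᵥ w) atTop (𝓝 0)}
  add_mem' := by
    intro v w hv hw
    simp only [Set.mem_ofPred_eq] at *
    simpa [mulVec_add] using hv.add hw
  zero_mem' := by simp
  smul_mem' := by
    intro c v hv
    simp only [Set.mem_ofPred_eq] at *
    simpa [mulVec_smul] using hv.const_smul c

/-- The vectors which stay contracted after every element of the chart. -/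
noncomputable def W0 {m : ℕ} (ρ : SpecialLinearGroup ι ℝ →* Matrix (Fin m) (Fin m) ℝ) (θ : TZ ι) :
    Submodule ℝ (Fin m → ℝ) where
  carrier := {v | ∀ g : SpecialLinearGroup ι ℝ, (fun a b => g a b) ∈ chart (θ : ι → ℝ) →
    ρ g *ᵥ v ∈ Vm ρ θ}
  add_mem' := by
    intro v w hv hw g hg
    rw [mulVec_add]
    exact (Vm ρ θ).add_mem (hv g hg) (hw g hg)
  zero_mem' := by
    intro g hg
    rw [mulVec_zero]
    exact (Vm ρ θ).zero_mem
  smul_mem' := by
    intro c v hv g hg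
    rw [mulVec_smul]
    exact (Vm ρ θ).smul_mem c (hv g hg)

end Wei
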