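import Pool.Agent.Helper188.Wei.Defs

open Matrix Filter Topology

namespace Wei

variable {ι : Type} [Fintype ι] [DecidableEq ι]

/-- The Lie algebra of a subgroup `D` of the torus `h · diag · h⁻¹`, in the coordinates of the
diagonal torus: the trace-zero vectors `a` with `h · diag(exp(s aᵢ)) · h⁻¹ ∈ D` for all real `s`. -/
noncomputable def lieAlg (h : SpecialLinearGroup ι ℝ) (D : Subgroup (SpecialLinearGroup ι ℝ)) :
    Submodule ℝ (TZ ι) where
  carrier := {a | ∀ s : ℝ, h * dg (s • a) * h⁻¹ ∈ D}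
  add_mem' := by
    intro a b ha hb s
    have := D.mul_mem (ha s) (hb s)
    rw [smul_add, dg_add]
    convert this using 1
    group
  zero_mem' := by
    intro s
    rw [smul_zero, dg_zero, mul_one, mul_inv_cancel]
    exact D.one_mem
  smul_mem' := by
    intro c a ha s
    rw [smul_smul]
    exact ha (s * c)

/-- The maximal `ℝ`-split torus `A = h · {diagonal matrices of determinant 1} · h⁻¹` of
`SL(ι,ℝ)`. -/
def splitTorus (h : SpecialLinearGroup ι ℝ) : Subgroup (SpecialLinearGroup ι ℝ) where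
  carrier := {g | ∃ t : ι → ℝ, (h⁻¹ * g * h : SpecialLinearGroup ι ℝ).1 = Matrix.diagonal t}
  mul_mem' := by
    rintro a b ⟨t, ht⟩ ⟨u, hu⟩
    refine ⟨fun i => t i * u i, ?_⟩
    have hab : h⁻¹ * (a * b) * h = (h⁻¹ * a * h) * (h⁻¹ * b * h) := by group
    rw [hab]
    show (h⁻¹ * a * h : SpecialLinearGroup ι ℝ).1 * (h⁻¹ * b * h : SpecialLinearGroup ι ℝ).1 = _
    rw [ht, hu, diagonal_mul_diagonal]
  one_mem' := ⟨fun _ => 1, by
    have hab : h⁻¹ * (1 : SpecialLinearGroup ι ℝ) * h = 1 := by group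
    rw [hab]
    show (1 : Matrix ι ι ℝ) = _
    exact Matrix.diagonal_one.symm⟩
  inv_mem' := by
    rintro a ⟨t, ht⟩
    refine ⟨fun i => (t i)⁻¹, ?_⟩
    have hab : h⁻¹ * a⁻¹ * h = (h⁻¹ * a * h)⁻¹ := by group
    rw [hab]
    have hne : ∀ i, t i ≠ 0 := by
      intro i hi
      have hd : (h⁻¹ * a * h : SpecialLinearGroup ι ℝ).1.det = 1 :=
        (h⁻¹ * a * h : SpecialLinearGroup ι ℝ).2
      rw [ht, det_diagonal, Finset.prod_eq_zero (Finset.mem_univ i) hi] at hd
      exact zero_ne_one hd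
    have h1 : (h⁻¹ * a * h : SpecialLinearGroup ι ℝ).1 *
        ((h⁻¹ * a * h)⁻¹ : SpecialLinearGroup ι ℝ).1 = 1 := by
      have := congrArg Subtype.val (mul_inv_cancel (h⁻¹ * a * h : SpecialLinearGroup ι ℝ))
      exact this
    have h2 : Matrix.diagonal (fun i => (t i)⁻¹) * Matrix.diagonal t = (1 : Matrix ι ι ℝ) := by
      rw [diagonal_mul_diagonal, ← Matrix.diagonal_one]
      congr 1
      funext i
      exact inv_mul_cancel₀ (hne i)
    rw [ht] at h1
    calc ((h⁻¹ * a * h)⁻¹ : SpecialLinearGroup ι ℝ).1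
        = (Matrix.diagonal (fun i => (t i)⁻¹) * Matrix.diagonal t) *
          ((h⁻¹ * a * h)⁻¹ : SpecialLinearGroup ι ℝ).1 := by rw [h2, one_mul]
      _ = Matrix.diagonal (fun i => (t i)⁻¹) := by rw [mul_assoc, h1, mul_one]

end Wei
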