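import Pool.Agent.Helper188.Wei.Defs

/-!
# Divergent but non-obvious orbits on `SL(n,ℝ)/Γ`: definitions
-/

open Matrix Filter Topology

namespace Wei
variable {ι : Type} [Fintype ι] [DecidableEq ι]


/-- Linear algebra estimate. -/
theorem bound (𝔡 : Submodule ℝ (TZ ι)) (θ : TZ ι) (L : Finset ι)
    (hθL : ∀ l ∈ L, (θ : ι → ℝ) l = 0)
    (hker : ∀ d ∈ 𝔡, (∀ l ∈ L, (d : ι → ℝ) l = 0) → ∃ r : ℝ, d = r • θ) :
    ∃ C : ℝ, 0 ≤ C ∧ ∀ K : ℝ, 0 ≤ K → ∀ d ∈ 𝔡, (∀ l ∈ L, |(d : ι → ℝ) l| ≤ K) →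
      ∃ r : ℝ, ∀ i, |(d : ι → ℝ) i - r * (θ : ι → ℝ) i| ≤ C * K := by
  classical
  let π : 𝔡 →ₗ[ℝ] (L → ℝ) :=
    { toFun := fun d l => ((d : TZ ι) : ι → ℝ) l
      map_add' := fun x y => rfl
      map_smul' := fun c x => rfl }
  obtain ⟨s, hs⟩ := π.rangeRestrict.exists_rightInverse_of_surjective
    (LinearMap.range_rangeRestrict π)
  obtain ⟨s', hs'⟩ := LinearMap.exists_extend (K := ℝ) (V := L → ℝ) (V' := 𝔡) (p := LinearMap.range π) s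
  let S : (L → ℝ) →L[ℝ] (ι → ℝ) :=
    LinearMap.toContinuousLinearMap ((TZ ι).subtype ∘ₗ 𝔡.subtype ∘ₗ s')
  refine ⟨‖S‖, norm_nonneg _, ?_⟩
  intro K hK d hd hdL
  set y : LinearMap.range π := π.rangeRestrict ⟨d, hd⟩ with hy
  have hyn : ‖(y : L → ℝ)‖ ≤ K := by
    rw [pi_norm_le_iff_of_nonneg hK]
    intro l
    exact hdL l.1 l.2
  set e : 𝔡 := s y with he
  have h1 : π.rangeRestrict e = y := by
    have := LinearMap.congr_fun hs y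
    exact this
  have h2 : π e = π ⟨d, hd⟩ := congrArg Subtype.val h1
  have h3 : ∀ l ∈ L, ((d - (e : TZ ι) : TZ ι) : ι → ℝ) l = 0 := by
    intro l hl
    have h4 := congrFun h2 ⟨l, hl⟩
    have h5 : ((e : TZ ι) : ι → ℝ) l = (d : ι → ℝ) l := h4
    show (d : ι → ℝ) l - ((e : TZ ι) : ι → ℝ) l = 0
    rw [h5, sub_self]
  obtain ⟨r, hr⟩ := hker (d - (e : TZ ι)) (𝔡.sub_mem hd e.2) h3
  refine ⟨r, ?_⟩
  intro i
  have h6 : (d : ι → ℝ) i - r * (θ : ι → ℝ) i = ((e : TZ ι) : ι → ℝ) i := by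
    have h7 : (d : ι → ℝ) i - ((e : TZ ι) : ι → ℝ) i = r * (θ : ι → ℝ) i :=
      congrFun (congrArg Subtype.val hr) i
    linarith
  rw [h6]
  have h8 : |((e : TZ ι) : ι → ℝ) i| ≤ ‖((e : TZ ι) : ι → ℝ)‖ := by
    rw [← Real.norm_eq_abs]
    exact norm_le_pi_norm ((e : TZ ι) : ι → ℝ) i
  have h10 : s' (y : L → ℝ) = e := LinearMap.congr_fun hs' y
  have h9 : ((e : TZ ι) : ι → ℝ) = S (y : L → ℝ) := by
    rw [← h10]
    rfl
  rw [h9] at h8 ⊢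
  refine h8.trans ((S.le_opNorm _).trans ?_)
  exact mul_le_mul_of_nonneg_left hyn (norm_nonneg _)

end Wei
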