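import Pool.Agent.Helper188.Wei.Defs

/-!
# Divergent but non-obvious orbits on `SL(n,ℝ)/Γ`: definitions
-/

open Matrix Filter Topology

namespace Wei
variable {ι : Type} [Fintype ι] [DecidableEq ι]


/-- Minkowski's linear forms theorem (strict form). -/
theorem mink (h : Matrix ι ι ℝ) (hdet : h.det ≠ 0) (c : ι → ℝ) (hc : ∀ i, 0 < c i)
    (hlt : |h.det| < ∏ i, c i) :
    ∃ v : ι → ℤ, v ≠ 0 ∧ ∀ i, |∑ j, h i j * (v j : ℝ)| < c i := by
  classical
  have fund := ZSpan.isAddFundamentalDomain' (Pi.basisFun ℝ ι)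
    (MeasureTheory.volume : MeasureTheory.Measure (ι → ℝ))
  have hcount : Countable (Submodule.span ℤ (Set.range (Pi.basisFun ℝ ι))).toAddSubgroup := by
    change Countable (Submodule.span ℤ (Set.range (Pi.basisFun ℝ ι)))
    infer_instance
  set s : Set (ι → ℝ) := (Matrix.toLin' h) ⁻¹'
    (Set.univ.pi fun i => Set.Ioo (-c i) (c i)) with hs
  have hmem : ∀ x : ι → ℝ, x ∈ s ↔ ∀ i, |∑ j, h i j * x j| < c i := by
    intro x
    rw [hs, Set.mem_preimage, Set.mem_univ_pi]
    refine forall_congr' fun i => ?_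
    rw [Set.mem_Ioo, ← abs_lt, Matrix.toLin'_apply]
    rfl
  have hsym : ∀ x ∈ s, -x ∈ s := by
    intro x hx
    rw [hmem] at hx ⊢
    intro i
    have h1 : ∑ j, h i j * (-x) j = -∑ j, h i j * x j := by
      rw [← Finset.sum_neg_distrib]
      refine Finset.sum_congr rfl fun j _ => ?_
      rw [Pi.neg_apply]
      ring
    rw [h1, abs_neg]
    exact hx i
  have hconv : Convex ℝ s :=
    (convex_pi fun i _ => convex_Ioo _ _).linear_preimage (Matrix.toLin' h)
  have hF : MeasureTheory.volume (ZSpan.fundamentalDomain (Pi.basisFun ℝ ι)) = 1 := by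
    rw [ZSpan.fundamentalDomain_pi_basisFun, MeasureTheory.volume_pi,
      MeasureTheory.Measure.pi_pi]
    simp
  have hdet' : LinearMap.det (Matrix.toLin' h) ≠ 0 := by
    rw [LinearMap.det_toLin']
    exact hdet
  have hvs : MeasureTheory.volume s =
      ENNReal.ofReal (|h.det|⁻¹ * (2 ^ Fintype.card ι * ∏ i, c i)) := by
    rw [hs, MeasureTheory.Measure.addHaar_preimage_linearMap _ hdet', LinearMap.det_toLin',
      Real.volume_pi_Ioo, ← ENNReal.ofReal_prod_of_nonneg (fun i _ => by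
        have := hc i
        linarith), ← ENNReal.ofReal_mul (abs_nonneg _), abs_inv]
    congr 2
    rw [← Finset.card_univ, ← Finset.prod_const, ← Finset.prod_mul_distrib]
    refine Finset.prod_congr rfl fun i _ => ?_
    ring
  have hvol : MeasureTheory.volume (ZSpan.fundamentalDomain (Pi.basisFun ℝ ι)) *
      2 ^ Module.finrank ℝ (ι → ℝ) < MeasureTheory.volume s := by
    rw [hF, hvs, one_mul, Module.finrank_fintype_fun_eq_card]
    have h2 : (2 : ENNReal) ^ Fintype.card ι = ENNReal.ofReal (2 ^ Fintype.card ι) := by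
      rw [ENNReal.ofReal_pow (by norm_num)]
      norm_num
    rw [h2]
    have hd0 : 0 < |h.det| := abs_pos.mpr hdet
    have hpos : (0 : ℝ) < 2 ^ Fintype.card ι := by positivity
    have h3 : (2 : ℝ) ^ Fintype.card ι < |h.det|⁻¹ * (2 ^ Fintype.card ι * ∏ i, c i) := by
      rw [inv_mul_eq_div, lt_div_iff₀ hd0]
      exact mul_lt_mul_of_pos_left hlt hpos
    exact (ENNReal.ofReal_lt_ofReal_iff (hpos.trans h3)).mpr h3
  obtain ⟨x, hx0, hxs⟩ :=
    MeasureTheory.exists_ne_zero_mem_lattice_of_measure_mul_two_pow_lt_measure fund hsym hconv hvol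
  have hxm : (x : ι → ℝ) ∈ Submodule.span ℤ (Set.range (Pi.basisFun ℝ ι)) := x.2
  have hrep := (Module.Basis.mem_span_iff_repr_mem ℤ (Pi.basisFun ℝ ι) (x : ι → ℝ)).mp hxm
  choose v hv using hrep
  have hv' : ∀ i, (v i : ℝ) = (x : ι → ℝ) i := by
    intro i
    have h1 := hv i
    rw [Pi.basisFun_repr] at h1
    simpa using h1
  refine ⟨v, ?_, ?_⟩
  · intro hv0
    apply hx0
    apply Subtype.ext
    funext i
    rw [← hv' i, hv0]
    simp
  · intro i
    have h1 := (hmem _).mp hxs i
    simp only [← hv'] at h1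
    exact h1

end Wei
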