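import Pool.Agent.Helper188.Wei.Defs
import Pool.Agent.Helper188.Wei.P_mink

/-!
# Divergent but non-obvious orbits on `SL(n,ℝ)/Γ`: definitions
-/

open Matrix Filter Topology

namespace Wei
variable {ι : Type} [Fintype ι] [DecidableEq ι]


/-- If `e(d) x ℤ^ι` has no short vector, the coordinates of `d` on `L` are bounded. -/
theorem coordL (L : Finset ι) (x : ι → ι → ℝ) (hx : (Matrix.of x).det = 1)
    (hxL : ∀ l ∈ L, ∀ b, x l b = if l = b then 1 else 0)
    (hxL' : ∀ l ∈ L, ∀ a, x a l = if a = l then 1 else 0) (ε : ℝ) (hε : 0 < ε) :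
    ∃ K : ℝ, 0 ≤ K ∧ ∀ d : TZ ι,
      (¬ ∃ v : ι → ℤ, v ≠ 0 ∧ ∀ i, |Real.exp ((d : ι → ℝ) i) * ∑ j, x i j * (v j : ℝ)| < ε) →
      ∀ l ∈ L, |(d : ι → ℝ) l| ≤ K := by
  refine ⟨(Fintype.card ι + 1) * |Real.log ε|, by positivity, fun d hd l hl => ?_⟩
  have hxv : ∀ l ∈ L, ∀ v : ι → ℤ, ∑ j, x l j * (v j : ℝ) = (v l : ℝ) := by
    intro l hl v
    rw [Finset.sum_eq_single l]
    · rw [hxL l hl l, if_pos rfl, one_mul]
    · intro b _ hb
      rw [hxL l hl b, if_neg (Ne.symm hb), zero_mul]
    · intro h; exact absurd (Finset.mem_univ _) h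
  have h1 : ∀ l ∈ L, Real.log ε ≤ (d : ι → ℝ) l := by
    intro l hl
    by_contra hcon
    rw [not_le] at hcon
    apply hd
    refine ⟨Pi.single l 1, ?_, fun i => ?_⟩
    · intro h
      have := congrFun h l
      rw [Pi.single_eq_same] at this
      exact one_ne_zero this
    · have hs : ∑ j, x i j * (((Pi.single l 1 : ι → ℤ) j : ℤ) : ℝ) = x i l := by
        rw [Finset.sum_eq_single l]
        · rw [Pi.single_eq_same]; simp
        · intro b _ hb
          rw [Pi.single_eq_of_ne hb]; simp
        · intro h; exact absurd (Finset.mem_univ _) h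
      rw [hs, hxL' l hl i]
      by_cases hil : i = l
      · rw [if_pos hil, mul_one, abs_of_pos (Real.exp_pos _), hil]
        calc Real.exp ((d : ι → ℝ) l) < Real.exp (Real.log ε) := Real.exp_lt_exp.2 hcon
          _ = ε := Real.exp_log hε
      · rw [if_neg hil, mul_zero, abs_zero]; exact hε
  set u : ι → ℝ := fun i => if i ∈ L then 0 else (d : ι → ℝ) i with hu
  set w : ι → ℝ := fun i => if i ∈ L then 0 else Real.log ε with hw
  have h2 : ∑ i, w i ≤ ∑ i, u i := by
    by_contra hcon
    rw [not_le] at hcon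
    have hdet : (diagonal (fun i => Real.exp (u i)) * Matrix.of x).det =
        Real.exp (∑ i, u i) := by
      rw [det_mul, det_diagonal, hx, mul_one, ← Real.exp_sum]
    obtain ⟨v, hv0, hv⟩ := mink (diagonal (fun i => Real.exp (u i)) * Matrix.of x)
      (by rw [hdet]; exact (Real.exp_pos _).ne') (fun i => Real.exp (w i))
      (fun i => Real.exp_pos _) (by
        rw [hdet, abs_of_pos (Real.exp_pos _), ← Real.exp_sum]
        exact Real.exp_lt_exp.2 hcon)
    have hv' : ∀ i, |Real.exp (u i) * ∑ j, x i j * (v j : ℝ)| < Real.exp (w i) := by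
      intro i
      have h3 := hv i
      have h4 : ∑ j, (diagonal (fun i => Real.exp (u i)) * Matrix.of x) i j * (v j : ℝ) =
          Real.exp (u i) * ∑ j, x i j * (v j : ℝ) := by
        rw [Finset.mul_sum]
        refine Finset.sum_congr rfl fun j _ => ?_
        rw [diagonal_mul, Matrix.of_apply, mul_assoc]
      rw [h4] at h3
      exact h3
    apply hd
    refine ⟨v, hv0, fun i => ?_⟩
    by_cases hi : i ∈ L
    · have h3 := hv' i
      have e1 : u i = 0 := by simp only [hu, if_pos hi]
      have e2 : w i = 0 := by simp only [hw, if_pos hi]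
      rw [e1, e2, Real.exp_zero, one_mul, hxv i hi] at h3
      have h5 : v i = 0 := by
        have h6 : |v i| < 1 := by exact_mod_cast h3
        exact Int.abs_lt_one_iff.1 h6
      rw [hxv i hi, h5]
      simpa using hε
    · have h3 := hv' i
      have e1 : u i = (d : ι → ℝ) i := by simp only [hu, if_neg hi]
      have e2 : w i = Real.log ε := by simp only [hw, if_neg hi]
      rw [e1, e2, Real.exp_log hε] at h3
      exact h3
  have h3 : ∑ i, (d : ι → ℝ) i = 0 := d.2
  have h4 : ∑ i, ((d : ι → ℝ) i - Real.log ε) = -(Fintype.card ι * Real.log ε) := by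
    rw [Finset.sum_sub_distrib, h3, Finset.sum_const, Finset.card_univ, nsmul_eq_mul]
    ring
  have h5 : ∑ i, (if i ∈ L then (d : ι → ℝ) i - Real.log ε else 0) + (∑ i, u i - ∑ i, w i) =
      ∑ i, ((d : ι → ℝ) i - Real.log ε) := by
    rw [← Finset.sum_sub_distrib, ← Finset.sum_add_distrib]
    refine Finset.sum_congr rfl fun i _ => ?_
    by_cases hi : i ∈ L
    · simp only [hu, hw, if_pos hi]; ring
    · simp only [hu, hw, if_neg hi]; ring
  have h6 : (d : ι → ℝ) l - Real.log ε ≤
      ∑ i, (if i ∈ L then (d : ι → ℝ) i - Real.log ε else 0) := by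
    have h7 := Finset.single_le_sum (f := fun i => if i ∈ L then (d : ι → ℝ) i - Real.log ε else 0)
      (s := Finset.univ) (fun i _ => by
        by_cases hi : i ∈ L
        · simp only [if_pos hi]
          have := h1 i hi
          linarith
        · simp only [if_neg hi]; exact le_rfl) (Finset.mem_univ l)
    simpa only [if_pos hl] using h7
  have h8 := neg_abs_le (Real.log ε)
  have h9 := le_abs_self (Real.log ε)
  have hn : (0 : ℝ) ≤ Fintype.card ι := Nat.cast_nonneg _
  have h10 : -((Fintype.card ι : ℝ) * Real.log ε) ≤ Fintype.card ι * |Real.log ε| := by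
    have := mul_le_mul_of_nonneg_left h8 hn
    linarith
  have h11 := h1 l hl
  have h12 : 0 ≤ (Fintype.card ι : ℝ) * |Real.log ε| := by positivity
  rw [abs_le]
  constructor
  · linarith
  · linarith

end Wei
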