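import Pool.Agent.Helper188.Wei.Defs
import Pool.Agent.Helper188.Wei.P_bound
import Pool.Agent.Helper188.Wei.P_coordL

/-!
# Divergent but non-obvious orbits on `SL(n,ℝ)/Γ`: definitions
-/

open Matrix Filter Topology

namespace Wei
variable {ι : Type} [Fintype ι] [DecidableEq ι]


theorem allshort (𝔡 : Submodule ℝ (TZ ι)) (θ : TZ ι) (L : Finset ι)
    (hθL : ∀ l ∈ L, (θ : ι → ℝ) l = 0)
    (hker : ∀ d ∈ 𝔡, (∀ l ∈ L, (d : ι → ℝ) l = 0) → ∃ r : ℝ, d = r • θ)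
    (x : ι → ι → ℝ) (hx : (Matrix.of x).det = 1)
    (hxL : ∀ l ∈ L, ∀ b, x l b = if l = b then 1 else 0)
    (hxL' : ∀ l ∈ L, ∀ a, x a l = if a = l then 1 else 0)
    (hvs : ∀ ε > 0, ∃ R : ℝ, ∀ r : ℝ, R ≤ |r| → VS (θ : ι → ℝ) x r ε) :
    ∀ ε > 0, ∃ R : ℝ, ∀ d ∈ 𝔡, (∃ i, R ≤ |(d : ι → ℝ) i|) →
      ∃ v : ι → ℤ, v ≠ 0 ∧ ∀ i, |Real.exp ((d : ι → ℝ) i) * ∑ j, x i j * (v j : ℝ)| < ε := by
  intro ε hε
  obtain ⟨K, hK0, hK⟩ := coordL L x hx hxL hxL' ε hε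
  obtain ⟨C, hC0, hC⟩ := bound 𝔡 θ L hθL hker
  obtain ⟨R0, hR0⟩ := hvs (ε * Real.exp (-(C * K))) (by positivity)
  refine ⟨C * K + |R0| * (∑ i, |(θ : ι → ℝ) i|) + 1, ?_⟩
  rintro d hd ⟨i0, hi0⟩
  by_contra hno
  obtain ⟨r, hr⟩ := hC K hK0 d hd (hK d hno)
  rcases le_or_gt R0 |r| with hle | hlt
  · obtain ⟨v, hv0, hv⟩ := hR0 r hle
    refine hno ⟨v, hv0, fun i => ?_⟩
    have e1 : Real.exp ((d : ι → ℝ) i) * ∑ j, x i j * (v j : ℝ) =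
        Real.exp ((d : ι → ℝ) i - r * (θ : ι → ℝ) i) *
          (Real.exp (r * (θ : ι → ℝ) i) * ∑ j, x i j * (v j : ℝ)) := by
      rw [← mul_assoc, ← Real.exp_add, sub_add_cancel]
    rw [e1, abs_mul, abs_of_pos (Real.exp_pos _)]
    have h1 : Real.exp ((d : ι → ℝ) i - r * (θ : ι → ℝ) i) ≤ Real.exp (C * K) :=
      Real.exp_le_exp.2 (le_trans (le_abs_self _) (hr i))
    calc Real.exp ((d : ι → ℝ) i - r * (θ : ι → ℝ) i) *
          |Real.exp (r * (θ : ι → ℝ) i) * ∑ j, x i j * (v j : ℝ)|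
        < Real.exp ((d : ι → ℝ) i - r * (θ : ι → ℝ) i) * (ε * Real.exp (-(C * K))) :=
          mul_lt_mul_of_pos_left (hv i) (Real.exp_pos _)
      _ ≤ Real.exp (C * K) * (ε * Real.exp (-(C * K))) :=
          mul_le_mul_of_nonneg_right h1 (by positivity)
      _ = ε * (Real.exp (C * K) * Real.exp (-(C * K))) := by ring
      _ = ε := by rw [← Real.exp_add, add_neg_cancel, Real.exp_zero, mul_one]
  · have h1 : |(d : ι → ℝ) i0| ≤ |(d : ι → ℝ) i0 - r * (θ : ι → ℝ) i0| +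
        |r| * |(θ : ι → ℝ) i0| := by
      rw [← abs_mul]
      calc |(d : ι → ℝ) i0| = |((d : ι → ℝ) i0 - r * (θ : ι → ℝ) i0) + r * (θ : ι → ℝ) i0| := by
            rw [sub_add_cancel]
        _ ≤ _ := abs_add_le _ _
    have h2 : |(θ : ι → ℝ) i0| ≤ ∑ i, |(θ : ι → ℝ) i| :=
      Finset.single_le_sum (f := fun i => |(θ : ι → ℝ) i|) (fun i _ => abs_nonneg _)
        (Finset.mem_univ i0)
    have h3 : |r| ≤ |R0| := le_trans hlt.le (le_abs_self _)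
    have h4 : |r| * |(θ : ι → ℝ) i0| ≤ |R0| * ∑ i, |(θ : ι → ℝ) i| :=
      mul_le_mul h3 h2 (abs_nonneg _) (abs_nonneg _)
    have h5 := hr i0
    linarith

end Wei
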