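import Pool.Agent.Helper188.Wei.Defs

/-!
# Divergent but non-obvious orbits on `SL(n,ℝ)/Γ`: definitions
-/

open Matrix Filter Topology

namespace Wei
variable {ι : Type} [Fintype ι] [DecidableEq ι]


theorem coup_sum (t : ι → ι → ℝ) (i : ι) :
    ((∑ a, ∑ b, t a b • cr a b : TZ ι) : ι → ℝ) i = ∑ b, t i b - ∑ a, t a i := by
  have h1 : ((∑ a, ∑ b, t a b • cr a b : TZ ι) : ι → ℝ) i =
      ∑ a, ∑ b, t a b * ((if i = a then 1 else 0) - (if i = b then 1 else 0)) := by
    rw [Submodule.coe_sum, Finset.sum_apply]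
    refine Finset.sum_congr rfl fun a _ => ?_
    rw [Submodule.coe_sum, Finset.sum_apply]
    refine Finset.sum_congr rfl fun b _ => ?_
    show t a b * ((Pi.single a 1 - Pi.single b 1 : ι → ℝ) i) = _
    rw [Pi.sub_apply, Pi.single_apply, Pi.single_apply]
  rw [h1]
  simp only [mul_sub, mul_ite, mul_one, mul_zero, Finset.sum_sub_distrib]
  congr 1
  · rw [Finset.sum_comm]
    simp
  · simp

/-- Transport plan: `θ` is a nonnegative combination of coroots `e_a - e_b` with
`θ a > 0 > θ b`. -/
theorem coup (θ : TZ ι) (hθ : θ ≠ 0) :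
    ∃ t : ι → ι → ℝ, (∀ a b, 0 ≤ t a b) ∧
      (∀ a b, ¬ (0 < (θ : ι → ℝ) a ∧ (θ : ι → ℝ) b < 0) → t a b = 0) ∧
      θ = ∑ a, ∑ b, t a b • cr a b := by
  have hsum : ∑ i, (θ : ι → ℝ) i = 0 := θ.2
  set f : ι → ℝ := (θ : ι → ℝ) with hf
  set T : ℝ := ∑ a, max (f a) 0 with hT
  have hfpq : ∀ a, f a = max (f a) 0 - max (-f a) 0 := by
    intro a
    rcases le_total 0 (f a) with h | h
    · rw [max_eq_left h, max_eq_right (by linarith), sub_zero]
    · rw [max_eq_right h, max_eq_left (by linarith)]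
      ring
  have hT2 : ∑ a, max (-f a) 0 = T := by
    have h1 : ∑ a, f a = ∑ a, max (f a) 0 - ∑ a, max (-f a) 0 := by
      rw [← Finset.sum_sub_distrib]
      exact Finset.sum_congr rfl fun a _ => hfpq a
    rw [hsum] at h1
    linarith
  have hT0 : 0 ≤ T := Finset.sum_nonneg fun a _ => le_max_right _ _
  have hTpos : 0 < T := by
    rcases lt_or_eq_of_le hT0 with h | h
    · exact h
    · exfalso
      apply hθ
      apply Subtype.ext
      funext i
      show f i = 0
      have h1 := (Finset.sum_eq_zero_iff_of_nonneg (fun a _ => le_max_right (f a) 0)).1 h.symm i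
        (Finset.mem_univ i)
      have h2 := (Finset.sum_eq_zero_iff_of_nonneg (fun a _ => le_max_right (-f a) 0)).1
        (hT2.trans h.symm) i (Finset.mem_univ i)
      rw [hfpq i, h1, h2, sub_zero]
  refine ⟨fun a b => max (f a) 0 * max (-f b) 0 / T, fun a b => ?_, fun a b h => ?_, ?_⟩
  · have h1 := le_max_right (f a) 0
    have h2 := le_max_right (-f b) 0
    positivity
  · show max (f a) 0 * max (-f b) 0 / T = 0
    rw [not_and_or, not_lt, not_lt] at h
    rcases h with h | h
    · rw [max_eq_right h, zero_mul, zero_div]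
    · rw [max_eq_right (a := -f b) (by linarith), mul_zero, zero_div]
  · apply Subtype.ext
    funext i
    rw [coup_sum]
    show f i = ∑ b, max (f i) 0 * max (-f b) 0 / T - ∑ a, max (f a) 0 * max (-f i) 0 / T
    rw [← Finset.sum_div, ← Finset.mul_sum, hT2, ← Finset.sum_div, ← Finset.sum_mul, ← hT,
      mul_div_assoc, div_self hTpos.ne', mul_one, mul_comm T, mul_div_assoc, div_self hTpos.ne',
      mul_one]
    exact hfpq i

end Wei
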