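import Pool.Agent.Helper188.Wei.Defs

/-!
# Divergent but non-obvious orbits on `SL(n,ℝ)/Γ`: definitions
-/

open Matrix Filter Topology

namespace Wei
variable {ι : Type} [Fintype ι] [DecidableEq ι]


theorem rhotv {m : ℕ} (ρ : SpecialLinearGroup ι ℝ →* Matrix (Fin m) (Fin m) ℝ)
    (hρ : PolyRep ρ) {a b : ι} (hab : a ≠ b) :
    ∃ q : Fin m → Fin m → Polynomial ℝ, ∀ t i j,
      ρ (SpecialLinearGroup.transvection hab t) i j = (q i j).eval t := by
  obtain ⟨P, hP⟩ := hρ
  refine ⟨fun i j => MvPolynomial.aeval (fun p : ι × ι =>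
    (if p.1 = p.2 then 1 else if p = (a, b) then Polynomial.X else 0 : Polynomial ℝ)) (P i j), ?_⟩
  intro t i j
  rw [hP]
  have h1 : ∀ f : MvPolynomial (ι × ι) ℝ,
      Polynomial.eval t (MvPolynomial.aeval (fun p : ι × ι =>
        (if p.1 = p.2 then 1 else if p = (a, b) then Polynomial.X else 0 : Polynomial ℝ)) f) =
      MvPolynomial.eval (fun p : ι × ι =>
        Polynomial.eval t (if p.1 = p.2 then 1 else if p = (a, b) then Polynomial.X else 0 : Polynomial ℝ)) f := by
    intro f
    induction f using MvPolynomial.induction_on with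
    | C r => simp
    | add p q hp hq => simp only [map_add, Polynomial.eval_add, hp, hq]
    | mul_X p k hp => simp only [map_mul, Polynomial.eval_mul, hp, MvPolynomial.aeval_X, MvPolynomial.eval_X]
  rw [h1]
  congr 1
  congr 1
  funext p
  obtain ⟨x, y⟩ := p
  by_cases hxy : x = y
  · subst hxy
    have : ¬ (a = x ∧ b = x) := by
      rintro ⟨h2, h3⟩
      exact hab (h2.trans h3.symm)
    simp [SpecialLinearGroup.transvection, Matrix.transvection, Matrix.single_apply, this]
  · by_cases h2 : x = a ∧ y = b
    · obtain ⟨rfl, rfl⟩ := h2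
      simp [SpecialLinearGroup.transvection, Matrix.transvection, Matrix.single_apply, hab]
    · have h3 : ¬ (a = x ∧ b = y) := fun h => h2 ⟨h.1.symm, h.2.symm⟩
      simp [SpecialLinearGroup.transvection, Matrix.transvection, Matrix.single_apply, hxy, h2, h3,
        Matrix.one_apply]

end Wei
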