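import Pool.Agent.Helper188.Wei.Defs

/-!
# Divergent but non-obvious orbits on `SL(n,ℝ)/Γ`: definitions
-/

open Matrix Filter Topology

namespace Wei
variable {ι : Type} [Fintype ι] [DecidableEq ι]


theorem j25072_one (p : Polynomial ℝ) (d : ℕ) (hd : p.natDegree ≤ d) (s : ℝ) :
    Tendsto (fun t : ℝ => p.eval (t + s) / t ^ d) atTop (𝓝 (p.coeff d)) := by
  have h1 : (fun t : ℝ => p.eval (t + s) / t ^ d) =
      fun t : ℝ => (Polynomial.taylor s p).eval t / ((Polynomial.X : Polynomial ℝ) ^ d).eval t := by
    funext t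
    rw [Polynomial.taylor_eval, Polynomial.eval_pow, Polynomial.eval_X]
  rw [h1]
  have hle : p.degree ≤ (d : WithBot ℕ) := Polynomial.degree_le_of_natDegree_le hd
  rcases lt_or_eq_of_le hle with h | h
  · have h2 : p.coeff d = 0 := Polynomial.coeff_eq_zero_of_degree_lt h
    rw [h2]
    apply Polynomial.div_tendsto_atTop_zero_of_degree_lt
    rw [Polynomial.degree_taylor, Polynomial.degree_X_pow]
    exact h
  · have h3 : p.natDegree = d := Polynomial.natDegree_eq_of_degree_eq_some h
    have h2 : (Polynomial.taylor s p).leadingCoeff /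
        ((Polynomial.X : Polynomial ℝ) ^ d).leadingCoeff = p.coeff d := by
      rw [Polynomial.leadingCoeff_taylor, (Polynomial.monic_X_pow d).leadingCoeff, div_one,
        Polynomial.leadingCoeff, h3]
    rw [← h2]
    apply Polynomial.div_tendsto_atTop_leadingCoeff_div_of_degree_eq
    rw [Polynomial.degree_taylor, Polynomial.degree_X_pow]
    exact h

/-- Leading coefficient of a vector of real polynomials, not all zero. -/
theorem lead {m : ℕ} (q : Fin m → Polynomial ℝ) (hq : q ≠ 0) :
    ∃ (d : ℕ) (c : Fin m → ℝ), c ≠ 0 ∧ ∀ s : ℝ,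
      Tendsto (fun t : ℝ => fun i => (q i).eval (t + s) / t ^ d) atTop (𝓝 c) := by
  classical
  have hne : (Finset.univ.filter (fun i => q i ≠ 0)).Nonempty := by
    by_contra hcon
    rw [Finset.not_nonempty_iff_eq_empty] at hcon
    apply hq
    funext i
    by_contra hi
    have : i ∈ Finset.univ.filter (fun i => q i ≠ 0) := by simpa using hi
    rw [hcon] at this
    exact absurd this (Finset.notMem_empty i)
  obtain ⟨i0, hi0, hmax⟩ := Finset.exists_max_image _ (fun i => (q i).natDegree) hne
  have hi0' : q i0 ≠ 0 := (Finset.mem_filter.1 hi0).2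
  refine ⟨(q i0).natDegree, fun i => (q i).coeff (q i0).natDegree, ?_, ?_⟩
  · intro h
    have h1 := congrFun h i0
    simp only [Pi.zero_apply] at h1
    exact hi0' (Polynomial.leadingCoeff_eq_zero.1 h1)
  · intro s
    rw [tendsto_pi_nhds]
    intro i
    apply j25072_one
    by_cases hi : q i = 0
    · rw [hi]; simp
    · exact hmax i (by simpa using hi)

end Wei
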