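import Pool.Agent.Helper188.Wei.Defs
import Pool.Agent.Helper188.Wei.P_lead

/-!
# Divergent but non-obvious orbits on `SL(n,ℝ)/Γ`: definitions
-/

open Matrix Filter Topology

namespace Wei
variable {ι : Type} [Fintype ι] [DecidableEq ι]


/-- One-parameter unipotent group: the leading coefficient vector is fixed and stays in every
invariant subspace. -/
theorem unip {m : ℕ} (φ : ℝ → Matrix (Fin m) (Fin m) ℝ) (h0 : φ 0 = 1)
    (hadd : ∀ s t, φ (s + t) = φ s * φ t) (q : Fin m → Fin m → Polynomial ℝ)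
    (hq : ∀ t i j, φ t i j = (q i j).eval t) (w : Fin m → ℝ) (hw : w ≠ 0) :
    ∃ w' : Fin m → ℝ, w' ≠ 0 ∧ (∀ t, φ t *ᵥ w' = w') ∧
      ∀ W : Submodule ℝ (Fin m → ℝ), (∀ t, ∀ v ∈ W, φ t *ᵥ v ∈ W) → w ∈ W → w' ∈ W := by
  set Q : Fin m → Polynomial ℝ := fun i => ∑ j, Polynomial.C (w j) * q i j with hQ
  have hev : ∀ t i, (φ t *ᵥ w) i = (Q i).eval t := by
    intro t i
    simp [hQ, Polynomial.eval_finsetSum, mulVec, dotProduct, hq, mul_comm]
  have hQ0 : Q ≠ 0 := by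
    intro h
    apply hw
    have : φ 0 *ᵥ w = 0 := by
      funext i
      rw [hev, h]
      simp
    rwa [h0, one_mulVec] at this
  obtain ⟨d, c, hc, hlim⟩ := lead Q hQ0
  have hl : ∀ s : ℝ, Tendsto (fun t : ℝ => (t ^ d)⁻¹ • (φ (t + s) *ᵥ w)) atTop (𝓝 c) := by
    intro s
    refine (hlim s).congr fun t => ?_
    funext i
    simp [hev, div_eq_inv_mul]
  refine ⟨c, hc, ?_, ?_⟩
  · intro s
    have h1 := hl s
    have h2 : Tendsto (fun t : ℝ => φ s *ᵥ ((t ^ d)⁻¹ • (φ (t + 0) *ᵥ w))) atTop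
        (𝓝 (φ s *ᵥ c)) :=
      ((continuous_const.matrix_mulVec continuous_id).tendsto c).comp (hl 0)
    have h3 : (fun t : ℝ => φ s *ᵥ ((t ^ d)⁻¹ • (φ (t + 0) *ᵥ w))) =
        fun t : ℝ => (t ^ d)⁻¹ • (φ (t + s) *ᵥ w) := by
      funext t
      rw [mulVec_smul, mulVec_mulVec, ← hadd, add_zero, add_comm s t]
    rw [h3] at h2
    exact tendsto_nhds_unique h2 h1
  · intro W hW hwW
    have hcl : IsClosed (W : Set (Fin m → ℝ)) := W.closed_of_finiteDimensional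
    refine hcl.mem_of_tendsto (hl 0) (Filter.Eventually.of_forall fun t => ?_)
    exact W.smul_mem _ (hW _ _ hwW)

end Wei
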