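import Pool.Agent.Helper188.Wei.Defs

/-!
# Divergent but non-obvious orbits on `SL(n,ℝ)/Γ`: definitions
-/

open Matrix Filter Topology

namespace Wei
variable {ι : Type} [Fintype ι] [DecidableEq ι]


theorem w0tv {m : ℕ} (ρ : SpecialLinearGroup ι ℝ →* Matrix (Fin m) (Fin m) ℝ)
    (θ : TZ ι) {a b : ι} (hab : a ≠ b) (ha : 0 < (θ : ι → ℝ) a) (hb : (θ : ι → ℝ) b < 0)
    (t : ℝ) (v : Fin m → ℝ) (hv : v ∈ W0 ρ θ) :
    ρ (SpecialLinearGroup.transvection hab t) *ᵥ v ∈ W0 ρ θ := by
  intro g hg
  rw [Matrix.mulVec_mulVec, ← map_mul]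
  apply hv (g * SpecialLinearGroup.transvection hab t)
  have hentry : ∀ i j, (g * SpecialLinearGroup.transvection hab t) i j =
      g i j + if j = b then g i a * t else 0 := by
    intro i j
    have h1 : (g * SpecialLinearGroup.transvection hab t) i j =
        ((g : Matrix ι ι ℝ) * (1 + Matrix.single a b t : Matrix ι ι ℝ)) i j := rfl
    rw [h1, Matrix.mul_add, Matrix.mul_one, Matrix.add_apply]
    congr 1
    by_cases hjb : j = b
    · subst hjb
      simp
    · rw [if_neg hjb]
      exact Matrix.mul_single_apply_of_ne (hbj := hjb) ..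
  obtain ⟨hg1, hg2⟩ := hg
  refine ⟨fun i => ?_, fun i j hij hnot => ?_⟩
  · show (g * SpecialLinearGroup.transvection hab t) i i = 1
    rw [hentry]
    have h1 : g i i = 1 := hg1 i
    rw [h1]
    by_cases hib : i = b
    · subst hib
      have h2 : g i a = 0 := hg2 i a (fun h => hab h.symm) (fun h => absurd h.1 (not_lt.mpr hb.le))
      rw [h2]
      simp
    · simp [hib]
  · show (g * SpecialLinearGroup.transvection hab t) i j = 0
    rw [hentry]
    have h1 : g i j = 0 := hg2 i j hij hnot
    rw [h1]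
    by_cases hjb : j = b
    · subst hjb
      have hi : ¬ 0 < (θ : ι → ℝ) i := fun h => hnot ⟨h, hb⟩
      have hia : i ≠ a := by
        rintro rfl
        exact hi ha
      have h2 : g i a = 0 := hg2 i a hia (fun h => absurd h.2 (not_lt.mpr ha.le))
      rw [h2]
      simp
    · simp [hjb]

end Wei
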