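import Pool.Agent.Helper188.Wei.Defs
import Pool.Agent.Helper188.Wei.P_unip
import Pool.Agent.Helper188.Wei.P_rhotv
import Pool.Agent.Helper188.Wei.P_w0tv

/-!
# Divergent but non-obvious orbits on `SL(n,ℝ)/Γ`: definitions
-/

open Matrix Filter Topology

namespace Wei
variable {ι : Type} [Fintype ι] [DecidableEq ι]


theorem nc1_tv_add {a b : ι} (hab : a ≠ b) (s t : ℝ) :
    SpecialLinearGroup.transvection hab (s + t) =
      SpecialLinearGroup.transvection hab s * SpecialLinearGroup.transvection hab t := by
  apply Subtype.ext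
  show (1 : Matrix ι ι ℝ) + single a b (s + t) = ((1 : Matrix ι ι ℝ) + single a b s) *
    ((1 : Matrix ι ι ℝ) + single a b t)
  rw [single_add, mul_add, add_mul, add_mul, single_mul_single_of_ne _ _ _ _ hab.symm]
  simp only [one_mul, mul_one, add_zero]
  abel

theorem nc1_tv_comm {a b c d : ι} (hab : a ≠ b) (hcd : c ≠ d) (hbc : b ≠ c) (hda : d ≠ a) (s t : ℝ) :
    SpecialLinearGroup.transvection hab s * SpecialLinearGroup.transvection hcd t =
      SpecialLinearGroup.transvection hcd t * SpecialLinearGroup.transvection hab s := by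
  apply Subtype.ext
  show ((1 : Matrix ι ι ℝ) + single a b s) * ((1 : Matrix ι ι ℝ) + single c d t) =
    ((1 : Matrix ι ι ℝ) + single c d t) * ((1 : Matrix ι ι ℝ) + single a b s)
  rw [mul_add, add_mul, add_mul, mul_add, add_mul, add_mul,
    single_mul_single_of_ne _ _ _ _ hbc, single_mul_single_of_ne _ _ _ _ hda]
  simp only [one_mul, mul_one, add_zero]
  abel

/-- A nonzero vector of `W0` fixed by all the transvections of the chart. -/
theorem nc1 {m : ℕ} (ρ : SpecialLinearGroup ι ℝ →* Matrix (Fin m) (Fin m) ℝ)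
    (hρ : PolyRep ρ) (θ : TZ ι) (w : Fin m → ℝ) (hw : w ≠ 0) (hW : w ∈ W0 ρ θ) :
    ∃ w' : Fin m → ℝ, w' ≠ 0 ∧ w' ∈ W0 ρ θ ∧ ∀ (a b : ι) (hab : a ≠ b),
      0 < (θ : ι → ℝ) a → (θ : ι → ℝ) b < 0 →
        ∀ t : ℝ, ρ (SpecialLinearGroup.transvection hab t) *ᵥ w' = w' := by
  have claim : ∀ S : Finset (ι × ι), ∃ w' : Fin m → ℝ, w' ≠ 0 ∧ w' ∈ W0 ρ θ ∧
      ∀ p ∈ S, ∀ (hab : p.1 ≠ p.2), 0 < (θ : ι → ℝ) p.1 → (θ : ι → ℝ) p.2 < 0 →
        ∀ t : ℝ, ρ (SpecialLinearGroup.transvection hab t) *ᵥ w' = w' := by
    intro S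
    induction S using Finset.induction_on with
    | empty => exact ⟨w, hw, hW, fun p hp => absurd hp (Finset.notMem_empty p)⟩
    | insert p S hpS ih =>
      obtain ⟨w', hw', hW', hfix⟩ := ih
      by_cases hp : p.1 ≠ p.2 ∧ 0 < (θ : ι → ℝ) p.1 ∧ (θ : ι → ℝ) p.2 < 0
      · obtain ⟨hab, ha, hb⟩ := hp
        obtain ⟨q, hq⟩ := rhotv ρ hρ hab
        obtain ⟨w'', hw'', hfix'', hinv⟩ := unip
          (fun t => ρ (SpecialLinearGroup.transvection hab t))
          (by
            show ρ (SpecialLinearGroup.transvection hab 0) = 1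
            rw [SpecialLinearGroup.transvection_coeff_zero, map_one])
          (fun s t => by
            show ρ (SpecialLinearGroup.transvection hab (s + t)) = _
            rw [nc1_tv_add, map_mul]) q hq w' hw'
        refine ⟨w'', hw'', hinv (W0 ρ θ) (fun t v hv => w0tv ρ θ hab ha hb t v hv) hW', ?_⟩
        intro p' hp' hcd hc hd t
        rcases Finset.mem_insert.1 hp' with h | h
        · subst h
          exact hfix'' t
        · let W : Submodule ℝ (Fin m → ℝ) :=
            { carrier := {v | ρ (SpecialLinearGroup.transvection hcd t) *ᵥ v = v}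
              add_mem' := by
                intro u v hu hv
                show ρ (SpecialLinearGroup.transvection hcd t) *ᵥ (u + v) = u + v
                rw [mulVec_add]
                exact congrArg₂ (· + ·) hu hv
              zero_mem' := mulVec_zero _
              smul_mem' := by
                intro c v hv
                show ρ (SpecialLinearGroup.transvection hcd t) *ᵥ (c • v) = c • v
                rw [mulVec_smul]
                exact congrArg (fun z => c • z) hv }
          have hbc : p.2 ≠ p'.1 := fun he => by rw [he] at hb; linarith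
          have hda : p'.2 ≠ p.1 := fun he => by rw [he] at hd; linarith
          have h1 : w'' ∈ W := by
            refine hinv W (fun s v hv => ?_) (hfix p' h hcd hc hd t)
            have hv' : ρ (SpecialLinearGroup.transvection hcd t) *ᵥ v = v := hv
            show ρ (SpecialLinearGroup.transvection hcd t) *ᵥ
              (ρ (SpecialLinearGroup.transvection hab s) *ᵥ v) =
              ρ (SpecialLinearGroup.transvection hab s) *ᵥ v
            rw [mulVec_mulVec, ← map_mul, ← nc1_tv_comm hab hcd hbc hda, map_mul, ← mulVec_mulVec,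
              hv']
          exact h1
      · refine ⟨w', hw', hW', ?_⟩
        intro p' hp' hcd hc hd t
        rcases Finset.mem_insert.1 hp' with h | h
        · subst h
          exact absurd ⟨hcd, hc, hd⟩ hp
        · exact hfix p' h hcd hc hd t
  obtain ⟨w', h1, h2, h3⟩ := claim Finset.univ
  exact ⟨w', h1, h2, fun a b hab ha hb t => h3 (a, b) (Finset.mem_univ _) hab ha hb t⟩

end Wei
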