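import Pool.Agent.Helper188.Wei.Defs

/-!
# Divergent but non-obvious orbits on `SL(n,ℝ)/Γ`: definitions
-/

open Matrix Filter Topology

namespace Wei
variable {ι : Type} [Fintype ι] [DecidableEq ι]


theorem rhocr_var {a b : ι} (hab : a ≠ b) (p : ι × ι) :
    ∃ q : Polynomial ℝ, ∀ t : ℝ,
      Real.exp t * (dg (t • cr a b) p.1 p.2 : ℝ) = q.eval (Real.exp t) := by
  obtain ⟨i, j⟩ := p
  by_cases hij : i = j
  · subst hij
    have hval : ∀ t : ℝ, (dg (t • cr a b) i i : ℝ) =
        Real.exp (t * ((Pi.single a 1 - Pi.single b 1 : ι → ℝ) i)) := by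
      intro t
      show (diagonal (fun k => Real.exp (((t • cr a b : TZ ι) : ι → ℝ) k)) : Matrix ι ι ℝ) i i = _
      rw [diagonal_apply_eq]
      rfl
    by_cases hia : i = a
    · subst hia
      refine ⟨Polynomial.X ^ 2, fun t => ?_⟩
      rw [hval t]
      simp only [Pi.sub_apply, Pi.single_eq_same, Pi.single_eq_of_ne hab, sub_zero, mul_one,
        Polynomial.eval_pow, Polynomial.eval_X]
      ring
    · by_cases hib : i = b
      · subst hib
        refine ⟨1, fun t => ?_⟩
        rw [hval t]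
        simp only [Pi.sub_apply, Pi.single_eq_same, Pi.single_eq_of_ne hia, zero_sub, mul_neg,
          mul_one, Polynomial.eval_one]
        rw [← Real.exp_add, add_neg_cancel, Real.exp_zero]
      · refine ⟨Polynomial.X, fun t => ?_⟩
        rw [hval t]
        simp only [Pi.sub_apply, Pi.single_eq_of_ne hia, Pi.single_eq_of_ne hib, sub_zero,
          mul_zero, Real.exp_zero, mul_one, Polynomial.eval_X]
  · refine ⟨0, fun t => ?_⟩
    have hval : (dg (t • cr a b) i j : ℝ) = 0 := by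
      show (diagonal (fun k => Real.exp (((t • cr a b : TZ ι) : ι → ℝ) k)) : Matrix ι ι ℝ) i j = _
      rw [diagonal_apply_ne _ hij]
    simp only [hval, mul_zero, Polynomial.eval_zero]

theorem rhocr_one {a b : ι} (hab : a ≠ b) (f : MvPolynomial (ι × ι) ℝ) :
    ∃ (D : ℕ) (q : Polynomial ℝ), ∀ t : ℝ,
      Real.exp (D * t) * MvPolynomial.eval
        (fun p : ι × ι => (dg (t • cr a b) p.1 p.2 : ℝ)) f = q.eval (Real.exp t) := by
  induction f using MvPolynomial.induction_on with
  | C c =>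
    refine ⟨0, Polynomial.C c, fun t => ?_⟩
    simp
  | add f g hf hg =>
    obtain ⟨D, q, h⟩ := hf
    obtain ⟨D', q', h'⟩ := hg
    refine ⟨D + D', Polynomial.X ^ D' * q + Polynomial.X ^ D * q', fun t => ?_⟩
    rw [map_add, Polynomial.eval_add, Polynomial.eval_mul, Polynomial.eval_mul,
      Polynomial.eval_pow, Polynomial.eval_pow, Polynomial.eval_X, ← h t, ← h' t]
    have e1 : Real.exp (((D + D' : ℕ) : ℝ) * t) = Real.exp (D * t) * Real.exp (D' * t) := by
      rw [← Real.exp_add]; push_cast; ring_nf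
    have e2 : Real.exp t ^ D' = Real.exp (D' * t) := by
      rw [← Real.exp_nat_mul]
    have e3 : Real.exp t ^ D = Real.exp (D * t) := by
      rw [← Real.exp_nat_mul]
    rw [e1, e2, e3]
    ring
  | mul_X f p hf =>
    obtain ⟨D, q, h⟩ := hf
    obtain ⟨q', h'⟩ := rhocr_var hab p
    refine ⟨D + 1, q * q', fun t => ?_⟩
    rw [map_mul, MvPolynomial.eval_X, Polynomial.eval_mul, ← h t, ← h' t]
    have e1 : Real.exp (((D + 1 : ℕ) : ℝ) * t) = Real.exp (D * t) * Real.exp t := by
      rw [← Real.exp_add]; push_cast; ring_nf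
    rw [e1]
    ring

theorem rhocr {m : ℕ} (ρ : SpecialLinearGroup ι ℝ →* Matrix (Fin m) (Fin m) ℝ)
    (hρ : PolyRep ρ) {a b : ι} (hab : a ≠ b) :
    ∃ (D : ℕ) (q : Fin m → Fin m → Polynomial ℝ), ∀ (t : ℝ) (i j : Fin m),
      Real.exp (D * t) * ρ (dg (t • cr a b)) i j = (q i j).eval (Real.exp t) := by
  obtain ⟨P, hP⟩ := hρ
  choose D q h using fun i j => rhocr_one hab (P i j)
  have hle : ∀ i j, D i j ≤ ∑ i, ∑ j, D i j := by
    intro i j
    exact (Finset.single_le_sum (f := fun j => D i j) (fun _ _ => Nat.zero_le _)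
      (Finset.mem_univ j)).trans
      (Finset.single_le_sum (f := fun i => ∑ j, D i j) (fun _ _ => Nat.zero_le _)
        (Finset.mem_univ i))
  refine ⟨∑ i, ∑ j, D i j,
    fun i j => Polynomial.X ^ ((∑ i, ∑ j, D i j) - D i j) * q i j, fun t i j => ?_⟩
  rw [hP, Polynomial.eval_mul, Polynomial.eval_pow, Polynomial.eval_X, ← h i j t]
  obtain ⟨k, hk⟩ := Nat.exists_eq_add_of_le (hle i j)
  rw [hk, Nat.add_sub_cancel_left]
  have e1 : Real.exp (((D i j + k : ℕ) : ℝ) * t) = Real.exp t ^ k * Real.exp (D i j * t) := by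
    rw [← Real.exp_nat_mul, ← Real.exp_add]; push_cast; ring_nf
  rw [e1]
  ring

end Wei
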