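import Pool.Agent.Helper188.Wei.Defs
import Pool.Agent.Helper188.Wei.P_lead

/-!
# Divergent but non-obvious orbits on `SL(n,ℝ)/Γ`: definitions
-/

open Matrix Filter Topology

namespace Wei
variable {ι : Type} [Fintype ι] [DecidableEq ι]


/-- One-parameter torus: there is an eigenvector in every invariant subspace containing `w`. -/
theorem torl {m : ℕ} (φ : ℝ → Matrix (Fin m) (Fin m) ℝ) (h0 : φ 0 = 1)
    (hadd : ∀ s t, φ (s + t) = φ s * φ t) (D : ℕ) (q : Fin m → Fin m → Polynomial ℝ)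
    (hq : ∀ t i j, Real.exp (D * t) * φ t i j = (q i j).eval (Real.exp t))
    (w : Fin m → ℝ) (hw : w ≠ 0) :
    ∃ (w' : Fin m → ℝ) (μ : ℝ), w' ≠ 0 ∧ (∀ t, φ t *ᵥ w' = Real.exp (μ * t) • w') ∧
      ∀ W : Submodule ℝ (Fin m → ℝ), (∀ t, ∀ v ∈ W, φ t *ᵥ v ∈ W) → w ∈ W → w' ∈ W := by
  classical
  set Q : Fin m → Polynomial ℝ := fun i => ∑ j, Polynomial.C (w j) * q i j with hQdef
  have hQe : ∀ t i, Real.exp (D * t) * (φ t *ᵥ w) i = (Q i).eval (Real.exp t) := by
    intro t i
    simp only [hQdef, Polynomial.eval_finsetSum, Polynomial.eval_mul, Polynomial.eval_C,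
      mulVec, dotProduct, Finset.mul_sum]
    refine Finset.sum_congr rfl fun j _ => ?_
    rw [← hq t i j]
    ring
  have hQ0 : Q ≠ 0 := by
    intro h
    apply hw
    funext i
    have h1 := hQe 0 i
    rw [h0, one_mulVec, h] at h1
    simpa using h1
  obtain ⟨d, c, hc, hlim⟩ := lead Q hQ0
  have hlim0 := (hlim 0).comp Real.tendsto_exp_atTop
  set F : ℝ → (Fin m → ℝ) := fun t => Real.exp (((D:ℝ) - d) * t) • (φ t *ᵥ w) with hF
  have hFlim : Tendsto F atTop (𝓝 c) := by
    refine hlim0.congr fun t => ?_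
    funext i
    simp only [Function.comp, add_zero, hF, Pi.smul_apply, smul_eq_mul]
    rw [← hQe t i, ← Real.exp_nat_mul, sub_mul, Real.exp_sub]
    field_simp
  have hcont : ∀ s, Continuous fun v : Fin m → ℝ => φ s *ᵥ v := fun s =>
    (Matrix.mulVecLin (φ s)).continuous_of_finiteDimensional
  have hrel : ∀ s t, φ s *ᵥ F t = Real.exp (((d:ℝ) - D) * s) • F (s + t) := by
    intro s t
    simp only [hF]
    rw [mulVec_smul, mulVec_mulVec, ← hadd, smul_smul, ← Real.exp_add]
    congr 2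
    ring
  refine ⟨c, (d:ℝ) - D, hc, fun s => ?_, fun W hW hwW => ?_⟩
  · have h1 : Tendsto (fun t => φ s *ᵥ F t) atTop (𝓝 (φ s *ᵥ c)) :=
      ((hcont s).tendsto c).comp hFlim
    have h2 : Tendsto (fun t => Real.exp (((d:ℝ) - D) * s) • F (s + t)) atTop
        (𝓝 (Real.exp (((d:ℝ) - D) * s) • c)) :=
      (hFlim.comp (tendsto_atTop_add_const_left atTop s tendsto_id)).const_smul _
    have h3 : (fun t => φ s *ᵥ F t) = fun t => Real.exp (((d:ℝ) - D) * s) • F (s + t) :=
      funext (hrel s)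
    rw [h3] at h1
    exact tendsto_nhds_unique h1 h2
  · have hcl : IsClosed (W : Set (Fin m → ℝ)) := W.closed_of_finiteDimensional
    refine hcl.mem_of_tendsto hFlim (Filter.Eventually.of_forall fun t => ?_)
    exact W.smul_mem _ (hW t w hwW)

end Wei
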