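import Pool.Agent.Helper188.Wei.Defs

/-!
# Divergent but non-obvious orbits on `SL(n,ℝ)/Γ`: definitions
-/

open Matrix Filter Topology

namespace Wei
variable {ι : Type} [Fintype ι] [DecidableEq ι]


theorem vminv {m : ℕ} (ρ : SpecialLinearGroup ι ℝ →* Matrix (Fin m) (Fin m) ℝ)
    (θ c : TZ ι) (w : Fin m → ℝ) (hw : w ∈ Vm ρ θ) : ρ (dg c) *ᵥ w ∈ Vm ρ θ := by
  have hw' : Tendsto (fun r : ℝ => ρ (dg (r • θ)) *ᵥ w) atTop (𝓝 0) := hw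
  show Tendsto (fun r : ℝ => ρ (dg (r • θ)) *ᵥ (ρ (dg c) *ᵥ w)) atTop (𝓝 0)
  have hcont : Continuous (fun v : Fin m → ℝ => ρ (dg c) *ᵥ v) :=
    (Matrix.mulVecLin (ρ (dg c))).continuous_of_finiteDimensional
  have h := (hcont.tendsto 0).comp hw'
  rw [mulVec_zero] at h
  refine h.congr ?_
  intro r
  show ρ (dg c) *ᵥ (ρ (dg (r • θ)) *ᵥ w) = ρ (dg (r • θ)) *ᵥ (ρ (dg c) *ᵥ w)
  rw [mulVec_mulVec, mulVec_mulVec, ← map_mul, ← map_mul, ← dg_add, ← dg_add, add_comm]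

end Wei
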