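import Pool.Agent.Helper188.Wei.Defs
import Pool.Agent.Helper188.Wei.P_vminv

/-!
# Divergent but non-obvious orbits on `SL(n,ℝ)/Γ`: definitions
-/

open Matrix Filter Topology

namespace Wei
variable {ι : Type} [Fintype ι] [DecidableEq ι]


theorem w0dg {m : ℕ} (ρ : SpecialLinearGroup ι ℝ →* Matrix (Fin m) (Fin m) ℝ)
    (θ c : TZ ι) (v : Fin m → ℝ) (hv : v ∈ W0 ρ θ) : ρ (dg c) *ᵥ v ∈ W0 ρ θ := by
  intro g hg
  obtain ⟨g', hg'⟩ : ∃ g' : SpecialLinearGroup ι ℝ, g' = dg (-c) * g * dg c := ⟨_, rfl⟩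
  have hent : ∀ a b, g' a b = Real.exp (-((c : ι → ℝ) a)) * g a b * Real.exp ((c : ι → ℝ) b) := by
    intro a b
    rw [hg']
    show ((diagonal (fun i => Real.exp (((-c : TZ ι) : ι → ℝ) i))) * (g : Matrix ι ι ℝ) *
      (diagonal (fun i => Real.exp ((c : ι → ℝ) i)))) a b = _
    rw [Matrix.mul_diagonal, Matrix.diagonal_mul]
    rfl
  have hch : (fun a b => g' a b) ∈ chart (θ : ι → ℝ) := by
    refine ⟨fun a => ?_, fun a b hab h => ?_⟩
    · show g' a a = 1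
      have h1 : g a a = 1 := hg.1 a
      rw [hent, h1, mul_one, ← Real.exp_add, neg_add_cancel, Real.exp_zero]
    · show g' a b = 0
      have h1 : g a b = 0 := hg.2 a b hab h
      rw [hent, h1, mul_zero, zero_mul]
  have h1 : ρ g' *ᵥ v ∈ Vm ρ θ := hv g' hch
  have h2 := vminv ρ θ c _ h1
  have h3 : ρ g *ᵥ (ρ (dg c) *ᵥ v) = ρ (dg c) *ᵥ (ρ g' *ᵥ v) := by
    rw [Matrix.mulVec_mulVec, Matrix.mulVec_mulVec, ← map_mul, ← map_mul, hg']
    congr 2
    rw [dg_neg]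
    group
  rw [h3]
  exact h2

end Wei
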