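import Pool.Agent.Helper188.Wei.Defs
import Pool.Agent.Helper188.Wei.P_torl
import Pool.Agent.Helper188.Wei.P_rhocr
import Pool.Agent.Helper188.Wei.P_w0dg

/-!
# Divergent but non-obvious orbits on `SL(n,ℝ)/Γ`: definitions
-/

open Matrix Filter Topology

namespace Wei
variable {ι : Type} [Fintype ι] [DecidableEq ι]


theorem tr_dg {a b : ι} (hab : a ≠ b) (t : ℝ) (c : TZ ι) :
    SpecialLinearGroup.transvection hab t * dg c =
      dg c * SpecialLinearGroup.transvection hab (Real.exp ((c : ι → ℝ) b - (c : ι → ℝ) a) * t) := by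
  apply Subtype.ext
  show Matrix.transvection a b t * diagonal _ = diagonal _ * Matrix.transvection a b _
  ext i j
  rw [mul_diagonal, diagonal_mul]
  simp only [Matrix.transvection, Matrix.add_apply, Matrix.single_apply, Matrix.one_apply]
  by_cases h2 : a = i ∧ b = j
  · obtain ⟨rfl, rfl⟩ := h2
    simp only [hab, and_self, if_true, if_false, zero_add]
    rw [Real.exp_sub]
    field_simp
  · rw [if_neg h2, if_neg h2]
    by_cases h1 : i = j
    · subst h1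
      simp
    · simp [h1]

/-- The invariant subspace. -/
noncomputable def W1 {m : ℕ} (ρ : SpecialLinearGroup ι ℝ →* Matrix (Fin m) (Fin m) ℝ) (θ : TZ ι) :
    Submodule ℝ (Fin m → ℝ) where
  carrier := {v | v ∈ W0 ρ θ ∧ ∀ (a b : ι) (hab : a ≠ b), 0 < (θ : ι → ℝ) a → (θ : ι → ℝ) b < 0 →
        ∀ t : ℝ, ρ (SpecialLinearGroup.transvection hab t) *ᵥ v = v}
  add_mem' := by
    rintro v w ⟨hv, hv'⟩ ⟨hw, hw'⟩
    refine ⟨(W0 ρ θ).add_mem hv hw, fun a b hab ha hb t => ?_⟩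
    rw [mulVec_add, hv' a b hab ha hb t, hw' a b hab ha hb t]
  zero_mem' := ⟨(W0 ρ θ).zero_mem, fun a b hab ha hb t => by rw [mulVec_zero]⟩
  smul_mem' := by
    rintro c v ⟨hv, hv'⟩
    refine ⟨(W0 ρ θ).smul_mem c hv, fun a b hab ha hb t => ?_⟩
    rw [mulVec_smul, hv' a b hab ha hb t]

theorem w1dg {m : ℕ} (ρ : SpecialLinearGroup ι ℝ →* Matrix (Fin m) (Fin m) ℝ)
    (θ c : TZ ι) (v : Fin m → ℝ) (hv : v ∈ W1 ρ θ) : ρ (dg c) *ᵥ v ∈ W1 ρ θ := by
  obtain ⟨h0, h1⟩ := hv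
  refine ⟨w0dg ρ θ c v h0, fun a b hab ha hb t => ?_⟩
  rw [mulVec_mulVec, ← map_mul, tr_dg hab t c, map_mul, ← mulVec_mulVec, h1 a b hab ha hb]

/-- ... and moreover an eigenvector for all the coroot one-parameter groups. -/
theorem nc2 {m : ℕ} (ρ : SpecialLinearGroup ι ℝ →* Matrix (Fin m) (Fin m) ℝ)
    (hρ : PolyRep ρ) (θ : TZ ι) (w : Fin m → ℝ) (hw : w ≠ 0) (hW : w ∈ W0 ρ θ)
    (hfix : ∀ (a b : ι) (hab : a ≠ b), 0 < (θ : ι → ℝ) a → (θ : ι → ℝ) b < 0 →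
        ∀ t : ℝ, ρ (SpecialLinearGroup.transvection hab t) *ᵥ w = w) :
    ∃ w' : Fin m → ℝ, w' ≠ 0 ∧ w' ∈ W0 ρ θ ∧
      (∀ (a b : ι) (hab : a ≠ b), 0 < (θ : ι → ℝ) a → (θ : ι → ℝ) b < 0 →
        ∀ t : ℝ, ρ (SpecialLinearGroup.transvection hab t) *ᵥ w' = w') ∧
      ∃ μ : ι → ι → ℝ, ∀ a b : ι, 0 < (θ : ι → ℝ) a → (θ : ι → ℝ) b < 0 →
        ∀ s : ℝ, ρ (dg (s • cr a b)) *ᵥ w' = Real.exp (μ a b * s) • w' := by
  classical
  have claim : ∀ S : Finset (ι × ι), ∃ w' : Fin m → ℝ, w' ≠ 0 ∧ w' ∈ W1 ρ θ ∧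
      ∃ μ : ι × ι → ℝ, ∀ p ∈ S, 0 < (θ : ι → ℝ) p.1 → (θ : ι → ℝ) p.2 < 0 →
        ∀ s : ℝ, ρ (dg (s • cr p.1 p.2)) *ᵥ w' = Real.exp (μ p * s) • w' := by
    intro S
    induction S using Finset.induction_on with
    | empty => exact ⟨w, hw, ⟨hW, hfix⟩, fun _ => 0, fun p hp => absurd hp (by simp)⟩
    | insert p S hpS ih =>
      obtain ⟨w₁, hw₁, hW₁, μ, hμ⟩ := ih
      by_cases hadm : 0 < (θ : ι → ℝ) p.1 ∧ (θ : ι → ℝ) p.2 < 0
      · obtain ⟨hp1, hp2⟩ := hadm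
        have hne : p.1 ≠ p.2 := by
          intro h
          rw [h] at hp1
          linarith
        obtain ⟨D, q, hq⟩ := rhocr ρ hρ hne
        obtain ⟨w', ν, hw', hν, hinv⟩ := torl (fun s => ρ (dg (s • cr p.1 p.2)))
          (by simp only [zero_smul]; rw [dg_zero, map_one])
          (by intro s t; simp only [add_smul]; rw [dg_add, map_mul]) D q hq w₁ hw₁
        let W : Submodule ℝ (Fin m → ℝ) :=
          { carrier := {v | v ∈ W1 ρ θ ∧ ∀ p ∈ S, 0 < (θ : ι → ℝ) p.1 → (θ : ι → ℝ) p.2 < 0 →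
              ∀ s : ℝ, ρ (dg (s • cr p.1 p.2)) *ᵥ v = Real.exp (μ p * s) • v}
            add_mem' := by
              rintro v w ⟨hv, hv'⟩ ⟨hw, hw'⟩
              refine ⟨(W1 ρ θ).add_mem hv hw, fun p hp h1 h2 s => ?_⟩
              rw [mulVec_add, hv' p hp h1 h2 s, hw' p hp h1 h2 s, smul_add]
            zero_mem' := ⟨(W1 ρ θ).zero_mem, fun p hp h1 h2 s => by rw [mulVec_zero, smul_zero]⟩
            smul_mem' := by
              rintro c v ⟨hv, hv'⟩
              refine ⟨(W1 ρ θ).smul_mem c hv, fun p hp h1 h2 s => ?_⟩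
              rw [mulVec_smul, hv' p hp h1 h2 s, smul_comm] }
        have hWmem : w' ∈ W := by
          apply hinv W
          · rintro t v ⟨hv, hv'⟩
            refine ⟨w1dg ρ θ _ v hv, fun q hq h1 h2 s => ?_⟩
            show ρ (dg (s • cr q.1 q.2)) *ᵥ (ρ (dg (t • cr p.1 p.2)) *ᵥ v) = _
            rw [mulVec_mulVec, ← map_mul, ← dg_add, add_comm, dg_add, map_mul, ← mulVec_mulVec,
              hv' q hq h1 h2 s, mulVec_smul]
          · exact ⟨hW₁, hμ⟩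
        obtain ⟨ha, hb⟩ := hWmem
        refine ⟨w', hw', ha, Function.update μ p ν, fun q hq h1 h2 s => ?_⟩
        rcases Finset.mem_insert.mp hq with rfl | hq'
        · rw [Function.update_self]
          exact hν s
        · have : q ≠ p := fun h => hpS (h ▸ hq')
          rw [Function.update_of_ne this]
          exact hb q hq' h1 h2 s
      · refine ⟨w₁, hw₁, hW₁, μ, fun q hq h1 h2 s => ?_⟩
        rcases Finset.mem_insert.mp hq with rfl | hq'
        · exact absurd ⟨h1, h2⟩ hadm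
        · exact hμ q hq' h1 h2 s
  obtain ⟨w', hw', ⟨hW0, hfx⟩, μ, hμ⟩ := claim Finset.univ
  exact ⟨w', hw', hW0, hfx, fun a b => μ (a, b), fun a b ha hb s =>
    hμ (a, b) (Finset.mem_univ _) ha hb s⟩

end Wei
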