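import Pool.Agent.Helper188.Wei.Defs

/-!
# Divergent but non-obvious orbits on `SL(n,ℝ)/Γ`: definitions
-/

open Matrix Filter Topology

namespace Wei
variable {ι : Type} [Fintype ι] [DecidableEq ι]


theorem weyl_aux_tv {a b : ι} (hab : a ≠ b) (c : ℝ) (x : ι → ℝ) :
    (1 + Matrix.single a b c : Matrix ι ι ℝ) *ᵥ x =
      Function.update x a (x a + c * x b) := by
  rw [Matrix.add_mulVec, Matrix.one_mulVec]
  funext i
  rw [Pi.add_apply]
  by_cases hi : i = a
  · subst hi
    rw [Function.update_self]
    congr 1
    show ∑ j, Matrix.single i b c i j * x j = c * x b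
    rw [Finset.sum_eq_single b]
    · simp
    · intro j _ hj
      simp [Matrix.single_apply, Ne.symm hj]
    · simp
  · rw [Function.update_of_ne hi]
    have : (Matrix.single a b c *ᵥ x) i = 0 := by
      simp [Matrix.mulVec, dotProduct, Matrix.single_apply, Ne.symm hi]
    rw [this, add_zero]

theorem weyl_aux_w {a b : ι} (hab : a ≠ b) (c d : ℝ) (hcd : c * d = -1) (x : ι → ℝ) :
    ((1 + Matrix.single a b c) * (1 + Matrix.single b a d) * (1 + Matrix.single a b c)
      : Matrix ι ι ℝ) *ᵥ x =
      Function.update (Function.update x a (c * x b)) b (d * x a) := by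
  rw [← Matrix.mulVec_mulVec,
    ← Matrix.mulVec_mulVec, weyl_aux_tv hab, weyl_aux_tv hab.symm, weyl_aux_tv hab]
  have hba : b ≠ a := hab.symm
  funext i
  by_cases hi : i = a
  · subst hi
    simp only [Function.update_self, Function.update_of_ne hab, Function.update_of_ne hba]
    linear_combination (x i) * hcd + (c * x b) * hcd
  · by_cases hi' : i = b
    · subst hi'
      simp only [Function.update_self, Function.update_of_ne hab, Function.update_of_ne hba]
      linear_combination (x i) * hcd
    · simp only [Function.update_of_ne hi, Function.update_of_ne hi']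

/-- The relation in `SL₂`. -/
theorem weyl {a b : ι} (hab : a ≠ b) (s : ℝ) :
    SpecialLinearGroup.transvection hab (-Real.exp (-s)) *
      SpecialLinearGroup.transvection hab.symm (Real.exp s) *
      SpecialLinearGroup.transvection hab (-Real.exp (-s)) =
    (SpecialLinearGroup.transvection hab (-1) * SpecialLinearGroup.transvection hab.symm 1 *
      SpecialLinearGroup.transvection hab (-1)) * dg (s • cr a b) := by
  apply Subtype.ext
  show ((1 + Matrix.single a b (-Real.exp (-s))) * (1 + Matrix.single b a (Real.exp s)) *
      (1 + Matrix.single a b (-Real.exp (-s))) : Matrix ι ι ℝ) =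
    ((1 + Matrix.single a b (-1)) * (1 + Matrix.single b a 1) *
      (1 + Matrix.single a b (-1))) *
      diagonal (fun i => Real.exp (((s • cr a b : TZ ι) : ι → ℝ) i))
  apply Matrix.ext_of_mulVec_single
  intro j
  generalize (Pi.single j (1 : ℝ) : ι → ℝ) = x
  have h1 : -Real.exp (-s) * Real.exp s = -1 := by
    rw [neg_mul, ← Real.exp_add, neg_add_cancel, Real.exp_zero]
  rw [weyl_aux_w hab _ _ h1 x, ← Matrix.mulVec_mulVec, weyl_aux_w hab (-1) 1 (by norm_num)]
  have hd : ∀ i, ((diagonal (fun i => Real.exp (((s • cr a b : TZ ι) : ι → ℝ) i)) :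
      Matrix ι ι ℝ) *ᵥ x) i =
      Real.exp (s * ((Pi.single a 1 - Pi.single b 1 : ι → ℝ) i)) * x i := by
    intro i
    rw [Matrix.mulVec_diagonal]
    rfl
  have hba : b ≠ a := hab.symm
  funext i
  by_cases hi : i = a
  · subst hi
    simp only [Function.update_self, Function.update_of_ne hab, Function.update_of_ne hba]
    rw [hd]
    simp [hba]
  · by_cases hi' : i = b
    · subst hi'
      simp only [Function.update_self, Function.update_of_ne hab, Function.update_of_ne hba]
      rw [hd]
      simp [hab]
    · simp only [Function.update_of_ne hi, Function.update_of_ne hi']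
      rw [hd]
      simp [hi, hi']

end Wei
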