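import Pool.Agent.Helper188.Wei.Defs
import Pool.Agent.Helper188.Wei.P_rhotv
import Pool.Agent.Helper188.Wei.P_weyl

/-!
# Divergent but non-obvious orbits on `SL(n,ℝ)/Γ`: definitions
-/

open Matrix Filter Topology

namespace Wei
variable {ι : Type} [Fintype ι] [DecidableEq ι]


/-- A highest weight vector has nonnegative weight. -/
theorem sl2 {m : ℕ} (ρ : SpecialLinearGroup ι ℝ →* Matrix (Fin m) (Fin m) ℝ)
    (hρ : PolyRep ρ) {a b : ι} (hab : a ≠ b) (w : Fin m → ℝ) (hw : w ≠ 0)
    (hfix : ∀ t : ℝ, ρ (SpecialLinearGroup.transvection hab t) *ᵥ w = w) (μ : ℝ)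
    (heig : ∀ s : ℝ, ρ (dg (s • cr a b)) *ᵥ w = Real.exp (μ * s) • w) : 0 ≤ μ := by
  by_contra hμ
  rw [not_le] at hμ
  obtain ⟨q, hq⟩ := rhotv ρ hρ hab.symm
  obtain ⟨p, hp⟩ := rhotv ρ hρ hab
  have hinv : ∀ t : ℝ, SpecialLinearGroup.transvection hab t *
      SpecialLinearGroup.transvection hab (-t) = 1 := by
    intro t
    apply Subtype.ext
    show Matrix.transvection a b t * Matrix.transvection a b (-t) = 1
    rw [Matrix.transvection_mul_transvection_same a b hab, add_neg_cancel, Matrix.transvection_zero]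
  obtain ⟨n, hn⟩ : ∃ n : SpecialLinearGroup ι ℝ, n = SpecialLinearGroup.transvection hab (-1) *
    SpecialLinearGroup.transvection hab.symm 1 * SpecialLinearGroup.transvection hab (-1) := ⟨_, rfl⟩
  have key : ∀ s : ℝ, ρ (SpecialLinearGroup.transvection hab.symm (Real.exp s)) *ᵥ w =
      Real.exp (μ * s) • (ρ (SpecialLinearGroup.transvection hab (Real.exp (-s))) *ᵥ (ρ n *ᵥ w)) := by
    intro s
    have h0 := weyl hab s
    rw [← hn] at h0
    have h1 : ρ (SpecialLinearGroup.transvection hab (-Real.exp (-s))) *ᵥ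
        (ρ (SpecialLinearGroup.transvection hab.symm (Real.exp s)) *ᵥ w) =
        Real.exp (μ * s) • (ρ n *ᵥ w) := by
      have h2 := congrArg (fun g => ρ g *ᵥ w) h0
      simp only [map_mul] at h2
      rw [← mulVec_mulVec, ← mulVec_mulVec, hfix, ← mulVec_mulVec, heig, mulVec_smul] at h2
      exact h2
    have h3 := congrArg (fun v => ρ (SpecialLinearGroup.transvection hab (Real.exp (-s))) *ᵥ v) h1
    rw [mulVec_mulVec, ← map_mul, hinv, map_one, one_mulVec, mulVec_smul] at h3
    exact h3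
  -- coordinates
  let Q : Fin m → Polynomial ℝ := fun i => ∑ j, q i j * Polynomial.C (w j)
  have hQ : ∀ (T : ℝ) (i : Fin m),
      (ρ (SpecialLinearGroup.transvection hab.symm T) *ᵥ w) i = (Q i).eval T := by
    intro T i
    simp only [Q, mulVec, dotProduct, Polynomial.eval_finsetSum, Polynomial.eval_mul,
      Polynomial.eval_C, hq]
  have hP : ∀ (T : ℝ) (i : Fin m),
      (ρ (SpecialLinearGroup.transvection hab T) *ᵥ (ρ n *ᵥ w)) i =
        (∑ j, p i j * Polynomial.C ((ρ n *ᵥ w) j)).eval T := by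
    intro T i
    conv_lhs => rw [mulVec]
    simp only [dotProduct, Polynomial.eval_finsetSum, Polynomial.eval_mul,
      Polynomial.eval_C, hp]
  have hlim : ∀ i, Tendsto (fun s : ℝ => (Q i).eval (Real.exp s)) atTop (𝓝 0) := by
    intro i
    have h1 : ∀ s : ℝ, (Q i).eval (Real.exp s) =
        Real.exp (μ * s) * (∑ j, p i j * Polynomial.C ((ρ n *ᵥ w) j)).eval (Real.exp (-s)) := by
      intro s
      rw [← hQ, key, ← hP]
      rfl
    simp only [h1]
    have h2 : Tendsto (fun s : ℝ => Real.exp (μ * s)) atTop (𝓝 0) :=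
      Real.tendsto_exp_atBot.comp ((tendsto_const_mul_atBot_of_neg hμ).mpr tendsto_id)
    have h3 : Tendsto (fun s : ℝ => (∑ j, p i j * Polynomial.C ((ρ n *ᵥ w) j)).eval (Real.exp (-s)))
        atTop (𝓝 ((∑ j, p i j * Polynomial.C ((ρ n *ᵥ w) j)).eval 0)) :=
      ((Polynomial.continuous _).tendsto 0).comp
        (Real.tendsto_exp_atBot.comp tendsto_neg_atTop_atBot)
    have h4 := h2.mul h3
    rwa [zero_mul] at h4
  have hlim' : ∀ i, Tendsto (fun T : ℝ => (Q i).eval T) atTop (𝓝 0) := by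
    intro i
    refine ((hlim i).comp Real.tendsto_log_atTop).congr' ?_
    filter_upwards [eventually_gt_atTop (0:ℝ)] with T hT
    simp only [Function.comp, Real.exp_log hT]
  apply hw
  funext i
  have h1 := (Polynomial.tendsto_nhds_iff (Q i)).mp (hlim' i)
  have h2 : Q i = 0 := Polynomial.leadingCoeff_eq_zero.mp h1.1
  have h3 := hQ 0 i
  rw [h2, Polynomial.eval_zero, SpecialLinearGroup.transvection_coeff_zero, map_one, one_mulVec] at h3
  exact h3

end Wei
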