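import Pool.Agent.Helper188.Wei.Defs
import Pool.Agent.Helper188.Wei.P_sl2
import Pool.Agent.Helper188.Wei.P_nc1
import Pool.Agent.Helper188.Wei.P_nc2
import Pool.Agent.Helper188.Wei.P_coup

/-!
# Divergent but non-obvious orbits on `SL(n,ℝ)/Γ`: definitions
-/

open Matrix Filter Topology

namespace Wei
variable {ι : Type} [Fintype ι] [DecidableEq ι]


theorem ncl {m : ℕ} (ρ : SpecialLinearGroup ι ℝ →* Matrix (Fin m) (Fin m) ℝ)
    (hρ : PolyRep ρ) (θ : TZ ι) (hθ : θ ≠ 0) (w : Fin m → ℝ) (hw : w ≠ 0) :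
    ∃ g : SpecialLinearGroup ι ℝ, (fun a b => g a b) ∈ chart (θ : ι → ℝ) ∧
      ρ g *ᵥ w ∉ Vm ρ θ := by
  by_contra hcon
  push Not at hcon
  have hW : w ∈ W0 ρ θ := fun g hg => hcon g hg
  obtain ⟨w1, hw1, hW1, hfix1⟩ := nc1 ρ hρ θ w hw hW
  obtain ⟨w2, hw2, hW2, hfix2, μ, hμ⟩ := nc2 ρ hρ θ w1 hw1 hW1 hfix1
  obtain ⟨t, ht0, htz, hθt⟩ := coup θ hθ
  have hμ0 : ∀ a b, 0 < (θ : ι → ℝ) a → (θ : ι → ℝ) b < 0 → 0 ≤ μ a b := by
    intro a b ha hb
    have hab : a ≠ b := by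
      rintro rfl
      linarith
    exact sl2 ρ hρ hab w2 hw2 (hfix2 a b hab ha hb) (μ a b) (hμ a b ha hb)
  have hsum : ∀ (r : ℝ) (S : Finset (ι × ι)),
      ρ (dg (∑ p ∈ S, (r * t p.1 p.2) • cr p.1 p.2)) *ᵥ w2 =
        Real.exp (r * ∑ p ∈ S, t p.1 p.2 * μ p.1 p.2) • w2 := by
    intro r S
    induction S using Finset.induction_on with
    | empty => simp [dg_zero]
    | insert p S hp ih =>
      rw [Finset.sum_insert hp, Finset.sum_insert hp, dg_add, map_mul, ← mulVec_mulVec, ih,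
        mulVec_smul]
      by_cases hadm : 0 < (θ : ι → ℝ) p.1 ∧ (θ : ι → ℝ) p.2 < 0
      · rw [hμ p.1 p.2 hadm.1 hadm.2, smul_smul, ← Real.exp_add]
        congr 2
        ring
      · rw [htz _ _ hadm]
        simp [dg_zero]
  have hθr : ∀ r : ℝ, r • θ =
      ∑ p ∈ (Finset.univ : Finset ι) ×ˢ (Finset.univ : Finset ι), (r * t p.1 p.2) • cr p.1 p.2 := by
    intro r
    rw [Finset.sum_product]
    conv_lhs => rw [hθt]
    rw [Finset.smul_sum]
    refine Finset.sum_congr rfl fun a _ => ?_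
    rw [Finset.smul_sum]
    refine Finset.sum_congr rfl fun b _ => ?_
    rw [smul_smul]
  set K : ℝ := ∑ p ∈ (Finset.univ : Finset ι) ×ˢ (Finset.univ : Finset ι),
    t p.1 p.2 * μ p.1 p.2 with hK
  have hK0 : 0 ≤ K := by
    refine Finset.sum_nonneg fun p _ => ?_
    by_cases hadm : 0 < (θ : ι → ℝ) p.1 ∧ (θ : ι → ℝ) p.2 < 0
    · exact mul_nonneg (ht0 _ _) (hμ0 _ _ hadm.1 hadm.2)
    · rw [htz _ _ hadm, zero_mul]
  have h1 : (fun a b => (1 : SpecialLinearGroup ι ℝ) a b) ∈ chart (θ : ι → ℝ) := by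
    constructor
    · intro a
      simp
    · intro a b hab _
      simp [hab]
  have hV : w2 ∈ Vm ρ θ := by
    have := hW2 1 h1
    rwa [map_one, one_mulVec] at this
  have hT : Tendsto (fun r : ℝ => ρ (dg (r • θ)) *ᵥ w2) atTop (𝓝 0) := hV
  obtain ⟨i, hi⟩ : ∃ i, w2 i ≠ 0 := by
    by_contra hc
    push Not at hc
    exact hw2 (funext hc)
  have hTi : Tendsto (fun r : ℝ => |(ρ (dg (r • θ)) *ᵥ w2) i|) atTop (𝓝 |(0 : Fin m → ℝ) i|) :=
    (((tendsto_pi_nhds.mp hT) i).abs)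
  have hle : |w2 i| ≤ |(0 : Fin m → ℝ) i| := by
    refine ge_of_tendsto hTi ?_
    filter_upwards [eventually_ge_atTop (0:ℝ)] with r hr
    rw [hθr r, hsum r, Pi.smul_apply, smul_eq_mul, abs_mul, abs_of_pos (Real.exp_pos _)]
    have : 1 ≤ Real.exp (r * K) := Real.one_le_exp (mul_nonneg hr hK0)
    exact le_mul_of_one_le_left (abs_nonneg _) this
  rw [Pi.zero_apply, abs_zero] at hle
  exact hi (abs_nonpos_iff.mp hle)

end Wei
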