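import Pool.Agent.Helper188.Wei.Defs

/-!
# Divergent but non-obvious orbits on `SL(n,ℝ)/Γ`: definitions
-/

open Matrix Filter Topology

namespace Wei
variable {ι : Type} [Fintype ι] [DecidableEq ι]


theorem expsum_scal (Λ : Finset ℝ) (c : ℝ → ℝ) (r : ℕ → ℝ)
    (hr : Tendsto r atTop atTop)
    (h : Tendsto (fun k => ∑ l ∈ Λ, Real.exp (l * r k) * c l) atTop (𝓝 0)) :
    Tendsto (fun t : ℝ => ∑ l ∈ Λ, Real.exp (l * t) * c l) atTop (𝓝 0) := by
  classical
  have key : ∀ l ∈ Λ, 0 ≤ l → c l = 0 := by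
    by_contra hcon
    push Not at hcon
    obtain ⟨l0, hl0, hl0', hc0⟩ := hcon
    set S := Λ.filter (fun l => c l ≠ 0) with hS
    have hne : S.Nonempty := ⟨l0, Finset.mem_filter.2 ⟨hl0, hc0⟩⟩
    set L := S.max' hne with hL
    have hLS : L ∈ S := Finset.max'_mem _ _
    have hLΛ : L ∈ Λ := (Finset.mem_filter.1 hLS).1
    have hcL : c L ≠ 0 := (Finset.mem_filter.1 hLS).2
    have hL0 : 0 ≤ L := hl0'.trans (Finset.le_max' _ _ (Finset.mem_filter.2 ⟨hl0, hc0⟩))
    have h1 : Tendsto (fun k => ∑ l ∈ Λ, Real.exp ((l - L) * r k) * c l) atTop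
        (𝓝 (∑ l ∈ Λ, if l = L then c L else 0)) := by
      refine tendsto_finsetSum _ (fun l hl => ?_)
      by_cases hlL : l = L
      · rw [if_pos hlL, hlL]
        simp
      · rw [if_neg hlL]
        by_cases hcl : c l = 0
        · simp [hcl]
        · have hlt : l < L := lt_of_le_of_ne (Finset.le_max' _ _ (Finset.mem_filter.2 ⟨hl, hcl⟩)) hlL
          have h2 : Tendsto (fun k => (l - L) * r k) atTop atBot :=
            hr.const_mul_atTop_of_neg (by linarith)
          have h3 := (Real.tendsto_exp_atBot.comp h2).mul_const (c l)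
          rw [zero_mul] at h3
          exact h3
    rw [Finset.sum_ite_eq' Λ L (fun _ => c L), if_pos hLΛ] at h1
    have h2 : Tendsto (fun k => ∑ l ∈ Λ, Real.exp ((l - L) * r k) * c l) atTop (𝓝 0) := by
      have h3 : ∀ k, ∑ l ∈ Λ, Real.exp ((l - L) * r k) * c l =
          Real.exp (-(L * r k)) * ∑ l ∈ Λ, Real.exp (l * r k) * c l := by
        intro k
        rw [Finset.mul_sum]
        refine Finset.sum_congr rfl (fun l _ => ?_)
        rw [← mul_assoc, ← Real.exp_add]
        congr 2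
        ring
      simp only [h3]
      refine squeeze_zero_norm' (a := fun k => ‖∑ l ∈ Λ, Real.exp (l * r k) * c l‖) ?_ (by simpa using h.norm)
      filter_upwards [hr.eventually_ge_atTop 0] with k hk
      rw [norm_mul, Real.norm_eq_abs (Real.exp _), abs_of_pos (Real.exp_pos _)]
      have h4 : Real.exp (-(L * r k)) ≤ 1 := by
        rw [Real.exp_le_one_iff]
        have := mul_nonneg hL0 hk
        linarith
      calc Real.exp (-(L * r k)) * ‖∑ l ∈ Λ, Real.exp (l * r k) * c l‖ ≤ 1 * ‖∑ l ∈ Λ, Real.exp (l * r k) * c l‖ :=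
            mul_le_mul_of_nonneg_right h4 (norm_nonneg _)
        _ = _ := one_mul _
    exact hcL (tendsto_nhds_unique h1 h2)
  have h0 : (0 : ℝ) = ∑ l ∈ Λ, (0 : ℝ) := by simp
  rw [h0]
  refine tendsto_finsetSum _ (fun l hl => ?_)
  by_cases hl0 : 0 ≤ l
  · rw [key l hl hl0]
    simp
  · push Not at hl0
    have h2 : Tendsto (fun t : ℝ => l * t) atTop atBot := tendsto_id.const_mul_atTop_of_neg hl0
    have h3 := (Real.tendsto_exp_atBot.comp h2).mul_const (c l)
    rw [zero_mul] at h3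
    exact h3

/-- Exponential sums: a null sequence of values forces convergence to zero. -/
theorem expsum {m : ℕ} (Λ : Finset ℝ) (C : ℝ → Fin m → ℝ) (r : ℕ → ℝ)
    (hr : Tendsto r atTop atTop)
    (h : Tendsto (fun k => ∑ l ∈ Λ, Real.exp (l * r k) • C l) atTop (𝓝 0)) :
    Tendsto (fun t : ℝ => ∑ l ∈ Λ, Real.exp (l * t) • C l) atTop (𝓝 0) := by
  rw [tendsto_pi_nhds] at h ⊢
  intro i
  have h1 := h i
  simp only [Finset.sum_apply, Pi.smul_apply, smul_eq_mul, Pi.zero_apply] at h1 ⊢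
  exact expsum_scal Λ (fun l => C l i) r hr h1
end Wei
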