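import Pool.Agent.Helper188.Wei.Defs

/-!
# Divergent but non-obvious orbits on `SL(n,ℝ)/Γ`: definitions
-/

open Matrix Filter Topology

namespace Wei
variable {ι : Type} [Fintype ι] [DecidableEq ι]


/-- Finite exponential sums. -/
def IsE (f : ℝ → ℝ) : Prop :=
  ∃ c : ℝ →₀ ℝ, ∀ r, f r = c.sum (fun l a => Real.exp (l * r) * a)

theorem isE_const (a : ℝ) : IsE (fun _ => a) :=
  ⟨Finsupp.single 0 a, fun r => by simp⟩

theorem isE_add {f g : ℝ → ℝ} (hf : IsE f) (hg : IsE g) : IsE (fun r => f r + g r) := by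
  obtain ⟨c, hc⟩ := hf
  obtain ⟨d, hd⟩ := hg
  refine ⟨c + d, fun r => ?_⟩
  show f r + g r = _
  rw [Finsupp.sum_add_index', hc, hd]
  · intro l; simp
  · intro l a b; ring

theorem isE_mulc {f : ℝ → ℝ} (hf : IsE f) (a : ℝ) : IsE (fun r => f r * a) := by
  obtain ⟨c, hc⟩ := hf
  refine ⟨a • c, fun r => ?_⟩
  show f r * a = _
  rw [Finsupp.sum_smul_index (by intro l; simp), hc, Finsupp.sum_mul]
  refine Finsupp.sum_congr fun l _ => ?_
  ring

theorem isE_mulexp {f : ℝ → ℝ} (hf : IsE f) (k : ℝ) : IsE (fun r => f r * Real.exp (r * k)) := by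
  obtain ⟨c, hc⟩ := hf
  refine ⟨c.mapDomain (fun l => l + k), fun r => ?_⟩
  show f r * Real.exp (r * k) = _
  rw [Finsupp.sum_mapDomain_index (by intro l; simp) (by intro l a b; ring), hc, Finsupp.sum_mul]
  refine Finsupp.sum_congr fun l _ => ?_
  rw [show (l + k) * r = l * r + r * k by ring, Real.exp_add]
  ring

theorem isE_sum {κ : Type} (s : Finset κ) (f : κ → ℝ → ℝ) (h : ∀ j, IsE (f j)) :
    IsE (fun r => ∑ j ∈ s, f j r) := by
  classical
  induction s using Finset.induction_on with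
  | empty => simpa using isE_const 0
  | insert a s ha ih =>
    have := isE_add (h a) ih
    simpa [Finset.sum_insert ha] using this

theorem isE_poly (θ : TZ ι) (P : MvPolynomial (ι × ι) ℝ) :
    IsE (fun r => MvPolynomial.eval
      (fun p : ι × ι => ((dg (r • θ) : SpecialLinearGroup ι ℝ) p.1 p.2 : ℝ)) P) := by
  induction P using MvPolynomial.induction_on with
  | C a => simpa using isE_const a
  | add p q hp hq => simpa using isE_add hp hq
  | mul_X p n hp =>
    obtain ⟨a, b⟩ := n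
    have hval : ∀ r : ℝ, ((dg (r • θ) : SpecialLinearGroup ι ℝ) a b : ℝ)
        = if a = b then Real.exp (r * (θ : ι → ℝ) a) else 0 := by
      intro r
      show (diagonal (fun i => Real.exp (((r • θ : TZ ι) : ι → ℝ) i))) a b = _
      rw [diagonal_apply]
      rfl
    by_cases hab : a = b
    · have := isE_mulexp hp ((θ : ι → ℝ) a)
      refine (congrArg IsE (funext fun r => ?_)).mpr this
      rw [map_mul, MvPolynomial.eval_X]
      show _ * ((dg (r • θ) : SpecialLinearGroup ι ℝ) a b : ℝ) = _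
      rw [hval r, if_pos hab]
    · have := isE_mulc hp 0
      refine (congrArg IsE (funext fun r => ?_)).mpr this
      rw [map_mul, MvPolynomial.eval_X]
      show _ * ((dg (r • θ) : SpecialLinearGroup ι ℝ) a b : ℝ) = _
      rw [hval r, if_neg hab]

theorem rhoexp {m : ℕ} (ρ : SpecialLinearGroup ι ℝ →* Matrix (Fin m) (Fin m) ℝ)
    (hρ : PolyRep ρ) (θ : TZ ι) (w : Fin m → ℝ) :
    ∃ (Λ : Finset ℝ) (C : ℝ → Fin m → ℝ), ∀ r : ℝ,
      ρ (dg (r • θ)) *ᵥ w = ∑ l ∈ Λ, Real.exp (l * r) • C l := by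
  classical
  obtain ⟨P, hP⟩ := hρ
  have h1 : ∀ i : Fin m, IsE (fun r => (ρ (dg (r • θ)) *ᵥ w) i) := by
    intro i
    have h2 : IsE (fun r => ∑ j ∈ Finset.univ, (MvPolynomial.eval
      (fun p : ι × ι => ((dg (r • θ) : SpecialLinearGroup ι ℝ) p.1 p.2 : ℝ)) (P i j)) * w j) :=
      isE_sum Finset.univ _ (fun j => isE_mulc (isE_poly θ (P i j)) (w j))
    refine (congrArg IsE (funext fun r => ?_)).mpr h2
    rw [mulVec, dotProduct]
    refine Finset.sum_congr rfl fun j _ => ?_
    rw [hP]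
  choose c hc using h1
  refine ⟨Finset.univ.biUnion (fun i => (c i).support), fun l i => c i l, fun r => ?_⟩
  funext i
  have h3 : (ρ (dg (r • θ)) *ᵥ w) i = _ := hc i r
  rw [h3, Finset.sum_apply]
  rw [Finsupp.sum_of_support_subset (c i)
    (Finset.subset_biUnion_of_mem (fun i => (c i).support) (Finset.mem_univ i))
    (fun l a => Real.exp (l * r) * a) (by intro l _; simp)]
  rfl

end Wei
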