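import Pool.Agent.Helper188.Wei.Defs
import Pool.Agent.Helper188.Wei.P_expsum
import Pool.Agent.Helper188.Wei.P_rhoexp

/-!
# Divergent but non-obvious orbits on `SL(n,ℝ)/Γ`: definitions
-/

open Matrix Filter Topology

namespace Wei
variable {ι : Type} [Fintype ι] [DecidableEq ι]


theorem vmseq {m : ℕ} (ρ : SpecialLinearGroup ι ℝ →* Matrix (Fin m) (Fin m) ℝ)
    (hρ : PolyRep ρ) (θ : TZ ι) (w : Fin m → ℝ) (hw : w ∉ Vm ρ θ) (r : ℕ → ℝ)
    (hr : Tendsto r atTop atTop) :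
    ¬ Tendsto (fun k => ρ (dg (r k • θ)) *ᵥ w) atTop (𝓝 0) := by
  intro h
  apply hw
  obtain ⟨Λ, C, hC⟩ := rhoexp ρ hρ θ w
  have h1 : Tendsto (fun k => ∑ l ∈ Λ, Real.exp (l * r k) • C l) atTop (𝓝 0) := by
    refine h.congr fun k => ?_
    rw [hC]
  have h2 := expsum Λ C r hr h1
  show Tendsto (fun r : ℝ => ρ (dg (r • θ)) *ᵥ w) atTop (𝓝 0)
  refine h2.congr fun t => ?_
  rw [hC]

end Wei
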