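import Pool.Agent.Helper188.Wei.Defs
import Pool.Agent.Helper188.Wei.P_vmseq
import Pool.Agent.Helper188.Wei.P_ncl

/-!
# Divergent but non-obvious orbits on `SL(n,ℝ)/Γ`: definitions
-/

open Matrix Filter Topology

namespace Wei
variable {ι : Type} [Fintype ι] [DecidableEq ι]


theorem avoid {m : ℕ} (ρ : SpecialLinearGroup ι ℝ →* Matrix (Fin m) (Fin m) ℝ)
    (hρ : PolyRep ρ) (θ : TZ ι) (hθ : θ ≠ 0) (w : Fin m → ℝ) (hw : w ≠ 0) :
    ∃ f : MvPolynomial (ι × ι) ℝ, (∃ y ∈ chart (θ : ι → ℝ), pv f y ≠ 0) ∧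
      ∀ g : SpecialLinearGroup ι ℝ, pv f (fun a b => g a b) ≠ 0 →
        ∀ r : ℕ → ℝ, Tendsto r atTop atTop →
          ¬ Tendsto (fun k => ρ (dg (r k • θ) * g) *ᵥ w) atTop (𝓝 0) := by
  obtain ⟨P, hP⟩ := id hρ
  obtain ⟨g0, hg0, hu⟩ := ncl ρ hρ θ hθ w hw
  obtain ⟨l, hl1, hl2⟩ := Submodule.exists_le_ker_of_notMem hu
  have key : ∀ g : SpecialLinearGroup ι ℝ,
      pv (∑ i, ∑ j, MvPolynomial.C (l (Pi.single i 1) * w j) * P i j) (fun a b => g a b) =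
        l (ρ g *ᵥ w) := by
    intro g
    have h1 : ρ g *ᵥ w = ∑ i, (ρ g *ᵥ w) i • (Pi.single i 1 : Fin m → ℝ) := by
      funext k
      simp [Finset.sum_apply, Pi.single_apply]
    rw [h1, map_sum]
    unfold pv
    simp only [map_sum, map_mul, MvPolynomial.eval_C, map_smul, smul_eq_mul]
    apply Finset.sum_congr rfl
    intro i _
    have h2 : (ρ g *ᵥ w) i = ∑ j, ρ g i j * w j := rfl
    rw [h2, Finset.sum_mul]
    apply Finset.sum_congr rfl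
    intro j _
    rw [hP g i j]
    ring
  refine ⟨∑ i, ∑ j, MvPolynomial.C (l (Pi.single i 1) * w j) * P i j,
    ⟨fun a b => g0 a b, hg0, ?_⟩, ?_⟩
  · rw [key]
    exact hl1
  · intro g hg r hr
    rw [key] at hg
    have hv : ρ g *ᵥ w ∉ Vm ρ θ := fun h => hg (hl2 h)
    have h3 := vmseq ρ hρ θ (ρ g *ᵥ w) hv r hr
    intro h4
    apply h3
    have h5 : (fun k => ρ (dg (r k • θ)) *ᵥ (ρ g *ᵥ w)) =
        (fun k => ρ (dg (r k • θ) * g) *ᵥ w) := by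
      funext k
      rw [map_mul, mulVec_mulVec]
    rw [h5]
    exact h4

end Wei
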