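import Pool.Agent.Helper188.Wei.Defs

/-!
# Divergent but non-obvious orbits on `SL(n,ℝ)/Γ`: definitions
-/

open Matrix Filter Topology

namespace Wei
variable {ι : Type} [Fintype ι] [DecidableEq ι]


theorem cntgam (Γ : Subgroup (SpecialLinearGroup ι ℝ))
    (hΓ : Subgroup.Commensurable Γ (SLZ ι)) : Countable Γ := by
  have h2 : ((SLZ ι).subgroupOf Γ).index ≠ 0 := hΓ.2
  have hcM : Countable (Matrix ι ι ℤ) := by
    unfold Matrix
    infer_instance
  have hcS : Countable (SpecialLinearGroup ι ℤ) := by
    unfold Matrix.SpecialLinearGroup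
    infer_instance
  have hcZ : Countable (SLZ ι) := by
    have hs : Function.Surjective
        (SpecialLinearGroup.map (n := ι) (Int.castRingHom ℝ)).rangeRestrict :=
      MonoidHom.rangeRestrict_surjective _
    exact hs.countable
  have hcH : Countable ((SLZ ι).subgroupOf Γ) := by
    let f : ((SLZ ι).subgroupOf Γ) → SLZ ι := fun x => ⟨((x : Γ) : SpecialLinearGroup ι ℝ), x.2⟩
    have hf : Function.Injective f := by
      intro x y hxy
      have h1 : ((x : Γ) : SpecialLinearGroup ι ℝ) = ((y : Γ) : SpecialLinearGroup ι ℝ) :=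
        congrArg (fun z : SLZ ι => (z : SpecialLinearGroup ι ℝ)) hxy
      exact Subtype.ext (Subtype.ext h1)
    exact hf.countable
  have hfin : Finite (Γ ⧸ ((SLZ ι).subgroupOf Γ)) := by
    exact Nat.finite_of_card_ne_zero h2
  exact (Subgroup.groupEquivQuotientProdSubgroup (s := (SLZ ι).subgroupOf Γ)).injective.countable

end Wei
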