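import Pool.Agent.Helper188.Wei.Defs

/-!
# Divergent but non-obvious orbits on `SL(n,ℝ)/Γ`: definitions
-/

open Matrix Filter Topology

namespace Wei
variable {ι : Type} [Fintype ι] [DecidableEq ι]


theorem cntrep (m : ℕ) :
    Countable {ρ : SpecialLinearGroup ι ℝ →* Matrix (Fin m) (Fin m) ℝ // IsQRep ρ} := by
  have hc : Countable (MvPolynomial (ι × ι) ℚ) := by
    rw [← Cardinal.mk_le_aleph0_iff]
    refine (MvPolynomial.cardinalMk_le_max (σ := ι × ι) (R := ℚ)).trans ?_
    simp only [max_le_iff]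
    refine ⟨⟨?_, ?_⟩, le_refl _⟩
    · exact Cardinal.mk_le_aleph0
    · exact Cardinal.mk_le_aleph0
  have hinj : Function.Injective
      (fun ρ : {ρ : SpecialLinearGroup ι ℝ →* Matrix (Fin m) (Fin m) ℝ // IsQRep ρ} =>
        (ρ.2.choose : Fin m → Fin m → MvPolynomial (ι × ι) ℚ)) := by
    intro ρ σ h
    apply Subtype.ext
    apply MonoidHom.ext
    intro g
    ext i j
    have h' : ρ.2.choose = σ.2.choose := h
    rw [ρ.2.choose_spec g i j, σ.2.choose_spec g i j, h']
  exact hinj.countable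

end Wei
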