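import Pool.Agent.Helper188.Wei.Defs

/-!
# Divergent but non-obvious orbits on `SL(n,ℝ)/Γ`: definitions
-/

open Matrix Filter Topology

namespace Wei
variable {ι : Type} [Fintype ι] [DecidableEq ι]


/-- Easy half of Mahler's criterion, for a group commensurable with `SL(ι,ℤ)`. -/
theorem mahler (Γ : Subgroup (SpecialLinearGroup ι ℝ)) (hΓ : Subgroup.Commensurable Γ (SLZ ι))
    (K : Set (SpecialLinearGroup ι ℝ ⧸ Γ)) (hK : IsCompact K) :
    ∃ ε > 0, ∀ g : SpecialLinearGroup ι ℝ, (g : SpecialLinearGroup ι ℝ ⧸ Γ) ∈ K →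
      ∀ v : ι → ℤ, v ≠ 0 → ∃ i, ε ≤ |∑ j, g i j * (v j : ℝ)| := by
  classical
  -- step 1: uniform bound for representatives
  let O : ℕ → Set (SpecialLinearGroup ι ℝ) := fun A => {g | ∀ i j, |(g⁻¹ : SpecialLinearGroup ι ℝ) i j| < A}
  have hOo : ∀ A, IsOpen (O A) := by
    intro A
    have : O A = ⋂ i, ⋂ j, {g : SpecialLinearGroup ι ℝ |
        |((g⁻¹ : SpecialLinearGroup ι ℝ) : Matrix ι ι ℝ) i j| < A} := by
      ext g
      simp only [Set.mem_iInter]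
      rfl
    rw [this]
    refine isOpen_iInter_of_finite fun i => isOpen_iInter_of_finite fun j => ?_
    refine isOpen_lt ?_ continuous_const
    refine continuous_abs.comp ?_
    have hc1 : Continuous (fun g : SpecialLinearGroup ι ℝ => (g⁻¹).1) :=
      (SpecialLinearGroup.isClosedEmbedding_val.continuous).comp
        (continuous_inv : Continuous (fun g : SpecialLinearGroup ι ℝ => g⁻¹))
    exact hc1.matrix_elem i j
  obtain ⟨A, hA⟩ : ∃ A : ℕ, K ⊆ (QuotientGroup.mk : _ → SpecialLinearGroup ι ℝ ⧸ Γ) '' (O A) := by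
    refine hK.elim_directed_cover (fun A => (QuotientGroup.mk : _ → SpecialLinearGroup ι ℝ ⧸ Γ) '' (O A))
      (fun A => QuotientGroup.isOpenMap_coe _ (hOo A)) ?_ ?_
    · intro x _
      obtain ⟨g, rfl⟩ := QuotientGroup.mk_surjective x
      rw [Set.mem_iUnion]
      obtain ⟨b, hb⟩ := (Set.finite_range (fun t : ι × ι =>
        |(g⁻¹ : SpecialLinearGroup ι ℝ) t.1 t.2|)).bddAbove
      obtain ⟨A, hA⟩ := exists_nat_gt b
      exact ⟨A, g, fun i j => (hb ⟨(i, j), rfl⟩).trans_lt hA, rfl⟩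
    · refine directed_of_isDirected_le ?_
      intro a b hab
      refine Set.image_mono ?_
      intro g hg i j
      exact (hg i j).trans_le (by exact_mod_cast hab)
  -- step 2: finitely many cosets
  have hfin : Finite (Γ ⧸ (SLZ ι).subgroupOf Γ) := Subgroup.index_ne_zero_iff_finite.1 hΓ.2
  obtain ⟨B, hB⟩ := (Set.finite_range (fun t : (Γ ⧸ (SLZ ι).subgroupOf Γ) × ι × ι =>
        |(((t.1.out : Γ) : SpecialLinearGroup ι ℝ)⁻¹) t.2.1 t.2.2|)).bddAbove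
  have hB' : ∀ q i j, |((((q : Γ ⧸ (SLZ ι).subgroupOf Γ).out : Γ) : SpecialLinearGroup ι ℝ)⁻¹) i j| ≤ |B| :=
    fun q i j => (hB ⟨(q, i, j), rfl⟩).trans (le_abs_self B)
  have hpos : 0 < (Fintype.card ι : ℝ) * (Fintype.card ι : ℝ) * (|B| * A) + 1 := by positivity
  refine ⟨((Fintype.card ι : ℝ) * (Fintype.card ι : ℝ) * (|B| * A) + 1)⁻¹, by positivity, ?_⟩
  intro g hg v hv
  obtain ⟨c, hc, hcg⟩ := hA hg
  have hγ : c⁻¹ * g ∈ Γ := QuotientGroup.eq.1 hcg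
  set q : Γ ⧸ (SLZ ι).subgroupOf Γ := QuotientGroup.mk ⟨c⁻¹ * g, hγ⟩ with hq
  have hs : ((q.out : Γ) : SpecialLinearGroup ι ℝ)⁻¹ * (c⁻¹ * g) ∈ SLZ ι := by
    have h1 : (QuotientGroup.mk q.out : Γ ⧸ (SLZ ι).subgroupOf Γ) = QuotientGroup.mk ⟨c⁻¹ * g, hγ⟩ := by
      rw [← hq]
      exact Quotient.out_eq' q
    have h2 := QuotientGroup.eq.1 h1
    rw [Subgroup.mem_subgroupOf] at h2
    exact h2
  obtain ⟨s, hs'⟩ := hs
  -- the integer vector
  let w : ι → ℤ := s.1 *ᵥ v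
  have hw : w ≠ 0 := by
    intro h0
    apply hv
    have h1 : (s⁻¹).1 *ᵥ w = v := by
      show (s⁻¹).1 *ᵥ (s.1 *ᵥ v) = v
      have e : (s⁻¹).1 * s.1 = 1 := by
        have : (s⁻¹ * s).1 = 1 := by rw [inv_mul_cancel]; rfl
        exact this
      rw [mulVec_mulVec, e, one_mulVec]
    rw [← h1, h0, mulVec_zero]
  have hwv : (fun i => (w i : ℝ)) =
      (((q.out : Γ) : SpecialLinearGroup ι ℝ)⁻¹).1 *ᵥ
        ((c⁻¹).1 *ᵥ (g.1 *ᵥ (fun j => (v j : ℝ)))) := by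
    rw [mulVec_mulVec, mulVec_mulVec]
    have e1 : ((q.out : Γ) : SpecialLinearGroup ι ℝ)⁻¹ * (c⁻¹ * g) =
        SpecialLinearGroup.map (Int.castRingHom ℝ) s := hs'.symm
    have e2 : (((q.out : Γ) : SpecialLinearGroup ι ℝ)⁻¹).1 * ((c⁻¹).1 * g.1) =
        (SpecialLinearGroup.map (Int.castRingHom ℝ) s).1 := by
      rw [← e1]; rfl
    rw [mul_assoc, e2]
    funext i
    show (((∑ j, s i j * v j : ℤ)) : ℝ) = ∑ j, ((s i j : ℤ) : ℝ) * (v j : ℝ)
    push_cast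
    rfl
  by_contra hcon
  push Not at hcon
  apply hw
  funext i
  have hi : (w i : ℝ) = ∑ k, ((((q.out : Γ) : SpecialLinearGroup ι ℝ)⁻¹ : SpecialLinearGroup ι ℝ) i k) *
      ∑ j, ((c⁻¹ : SpecialLinearGroup ι ℝ) k j) * ∑ l, g j l * (v l : ℝ) := congrFun hwv i
  have hlt : |(w i : ℝ)| < 1 := by
    rw [hi]
    have h1 : ∀ k, |∑ j, ((c⁻¹ : SpecialLinearGroup ι ℝ) k j) * ∑ l, g j l * (v l : ℝ)| ≤
        (Fintype.card ι : ℝ) * (A * ((Fintype.card ι : ℝ) * (Fintype.card ι : ℝ) * (|B| * A) + 1)⁻¹) := by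
      intro k
      refine (Finset.abs_sum_le_sum_abs _ _).trans ?_
      refine (Finset.sum_le_card_nsmul _ _
        (A * ((Fintype.card ι : ℝ) * (Fintype.card ι : ℝ) * (|B| * A) + 1)⁻¹) ?_).trans ?_
      · intro j _
        rw [abs_mul]
        exact mul_le_mul (hc k j).le (hcon j).le (abs_nonneg _) (by positivity)
      · rw [nsmul_eq_mul]; rfl
    have h2 : |∑ k, ((((q.out : Γ) : SpecialLinearGroup ι ℝ)⁻¹ : SpecialLinearGroup ι ℝ) i k) *
      ∑ j, ((c⁻¹ : SpecialLinearGroup ι ℝ) k j) * ∑ l, g j l * (v l : ℝ)| ≤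
        (Fintype.card ι : ℝ) * (|B| * ((Fintype.card ι : ℝ) *
          (A * ((Fintype.card ι : ℝ) * (Fintype.card ι : ℝ) * (|B| * A) + 1)⁻¹))) := by
      refine (Finset.abs_sum_le_sum_abs _ _).trans ?_
      refine (Finset.sum_le_card_nsmul _ _
        (|B| * ((Fintype.card ι : ℝ) *
          (A * ((Fintype.card ι : ℝ) * (Fintype.card ι : ℝ) * (|B| * A) + 1)⁻¹))) ?_).trans ?_
      · intro k _
        rw [abs_mul]
        exact mul_le_mul (hB' q i k) (h1 k) (abs_nonneg _) (abs_nonneg _)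
      · rw [nsmul_eq_mul]; rfl
    refine h2.trans_lt ?_
    have h3 : (Fintype.card ι : ℝ) * (|B| * ((Fintype.card ι : ℝ) *
          (A * ((Fintype.card ι : ℝ) * (Fintype.card ι : ℝ) * (|B| * A) + 1)⁻¹))) =
        ((Fintype.card ι : ℝ) * (Fintype.card ι : ℝ) * (|B| * A)) /
          ((Fintype.card ι : ℝ) * (Fintype.card ι : ℝ) * (|B| * A) + 1) := by
      rw [div_eq_mul_inv]; ring
    rw [h3, div_lt_one hpos]
    linarith
  have : |w i| < 1 := by exact_mod_cast hlt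
  exact Int.abs_lt_one_iff.1 this

end Wei
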