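import Pool.Agent.Helper188.Wei.Defs
import Pool.Agent.Helper188.Wei.P_mahler

/-!
# Divergent but non-obvious orbits on `SL(n,ℝ)/Γ`: definitions
-/

open Matrix Filter Topology

namespace Wei
variable {ι : Type} [Fintype ι] [DecidableEq ι]


theorem divof_cont_dg : Continuous (dg : TZ ι → SpecialLinearGroup ι ℝ) := by
  unfold dg
  refine Continuous.subtype_mk ?_ _
  refine Continuous.matrix_diagonal ?_
  refine continuous_pi fun i => ?_
  exact Real.continuous_exp.comp ((continuous_apply i).comp continuous_subtype_val)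

theorem divof (Γ : Subgroup (SpecialLinearGroup ι ℝ)) (hΓ : Subgroup.Commensurable Γ (SLZ ι))
    (h g : SpecialLinearGroup ι ℝ) (𝔡 : Submodule ℝ (TZ ι))
    (hs : ∀ ε > 0, ∃ R : ℝ, ∀ d ∈ 𝔡, (∃ i, R ≤ |(d : ι → ℝ) i|) →
      ∃ v : ι → ℤ, v ≠ 0 ∧ ∀ i, |Real.exp ((d : ι → ℝ) i) * ∑ j, g i j * (v j : ℝ)| < ε) :
    Divergent Γ (torus h 𝔡) ((h * g : SpecialLinearGroup ι ℝ) : SpecialLinearGroup ι ℝ ⧸ Γ) := by
  unfold Divergent
  rw [Filter.hasBasis_cocompact.tendsto_right_iff]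
  intro K hK
  obtain ⟨ε, hε, hmah⟩ := mahler Γ hΓ K hK
  obtain ⟨A, hA⟩ : ∃ A : ℝ, A = 1 + ∑ i, ∑ j, |h i j| := ⟨_, rfl⟩
  have hA1 : 1 ≤ A := by
    rw [hA]
    have : 0 ≤ ∑ i, ∑ j, |h i j| := Finset.sum_nonneg fun i _ => Finset.sum_nonneg fun j _ =>
      abs_nonneg _
    linarith
  have hApos : 0 < A := by linarith
  obtain ⟨R, hR⟩ := hs (ε / (2 * A)) (by positivity)
  haveI : ProperSpace 𝔡 := FiniteDimensional.proper_real 𝔡
  let ψ : 𝔡 → torus h 𝔡 := fun a => ⟨h * dg a.1 * h⁻¹, a.1, a.2, rfl⟩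
  have hψ : Continuous ψ := by
    refine Continuous.subtype_mk ?_ _
    exact (continuous_const.mul (divof_cont_dg.comp continuous_subtype_val)).mul continuous_const
  have hcpt : IsCompact (ψ '' Metric.closedBall (0 : 𝔡) (max R 0)) :=
    (isCompact_closedBall (0 : 𝔡) (max R 0)).image hψ
  filter_upwards [hcpt.compl_mem_cocompact] with d hd hdK
  obtain ⟨a, ha, hda⟩ := d.2
  have hna : (⟨a, ha⟩ : 𝔡) ∉ Metric.closedBall (0 : 𝔡) (max R 0) := by
    intro hmem
    apply hd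
    exact ⟨⟨a, ha⟩, hmem, Subtype.ext hda.symm⟩
  have hex : ∃ i, R ≤ |(a : ι → ℝ) i| := by
    by_contra hcon
    push Not at hcon
    apply hna
    have h0 : dist (⟨a, ha⟩ : 𝔡) 0 = dist (a : ι → ℝ) 0 := rfl
    rw [Metric.mem_closedBall, h0, dist_zero_right]
    rw [pi_norm_le_iff_of_nonneg (le_max_right _ _)]
    intro i
    exact (hcon i).le.trans (le_max_left _ _)
  obtain ⟨v, hv0, hv⟩ := hR a ha hex
  have hmem : ((h * dg a * g : SpecialLinearGroup ι ℝ) : SpecialLinearGroup ι ℝ ⧸ Γ) ∈ K := by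
    have h1 : ((h * dg a * g : SpecialLinearGroup ι ℝ) : SpecialLinearGroup ι ℝ ⧸ Γ) =
        (d : SpecialLinearGroup ι ℝ) •
          ((h * g : SpecialLinearGroup ι ℝ) : SpecialLinearGroup ι ℝ ⧸ Γ) := by
      rw [hda]
      show _ = (((h * dg a * h⁻¹) * (h * g) : SpecialLinearGroup ι ℝ) :
        SpecialLinearGroup ι ℝ ⧸ Γ)
      congr 1
      group
    rw [h1]
    exact hdK
  obtain ⟨i, hi⟩ := hmah _ hmem v hv0
  have hentry : ∑ j, (h * dg a * g) i j * (v j : ℝ) =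
      ∑ k, h i k * (Real.exp ((a : ι → ℝ) k) * ∑ j, g k j * (v j : ℝ)) := by
    have h2 : ∀ j, (h * dg a * g) i j = ∑ k, h i k * Real.exp ((a : ι → ℝ) k) * g k j := by
      intro j
      show ((h : Matrix ι ι ℝ) * diagonal (fun i => Real.exp ((a : ι → ℝ) i)) *
        (g : Matrix ι ι ℝ)) i j = _
      rw [Matrix.mul_apply]
      refine Finset.sum_congr rfl fun k _ => ?_
      rw [Matrix.mul_diagonal]
    simp_rw [h2, Finset.sum_mul, Finset.mul_sum]
    rw [Finset.sum_comm]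
    refine Finset.sum_congr rfl fun k _ => Finset.sum_congr rfl fun j _ => ?_
    ring
  rw [hentry] at hi
  have hle : |∑ k, h i k * (Real.exp ((a : ι → ℝ) k) * ∑ j, g k j * (v j : ℝ))| ≤
      A * (ε / (2 * A)) := by
    calc |∑ k, h i k * (Real.exp ((a : ι → ℝ) k) * ∑ j, g k j * (v j : ℝ))|
        ≤ ∑ k, |h i k * (Real.exp ((a : ι → ℝ) k) * ∑ j, g k j * (v j : ℝ))| :=
          Finset.abs_sum_le_sum_abs _ _
      _ ≤ ∑ k, |h i k| * (ε / (2 * A)) := by
          refine Finset.sum_le_sum fun k _ => ?_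
          rw [abs_mul]
          exact mul_le_mul_of_nonneg_left (hv k).le (abs_nonneg _)
      _ = (∑ k, |h i k|) * (ε / (2 * A)) := by rw [Finset.sum_mul]
      _ ≤ A * (ε / (2 * A)) := by
          apply mul_le_mul_of_nonneg_right _ (by positivity)
          rw [hA]
          have : ∑ k, |h i k| ≤ ∑ i, ∑ j, |h i j| :=
            Finset.single_le_sum (f := fun i => ∑ j, |h i j|)
              (fun i _ => Finset.sum_nonneg fun j _ => abs_nonneg _) (Finset.mem_univ i)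
          linarith
  have heq : A * (ε / (2 * A)) = ε / 2 := by
    field_simp
  rw [heq] at hle
  linarith

end Wei
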