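import Pool.Agent.Helper188.Wei.Defs

/-!
# Divergent but non-obvious orbits on `SL(n,ℝ)/Γ`: definitions
-/

open Matrix Filter Topology

namespace Wei
variable {ι : Type} [Fintype ι] [DecidableEq ι]


theorem chartdet (θ : ι → ℝ) (x : ι → ι → ℝ) (hx : x ∈ chart θ) : (Matrix.of x).det = 1 := by
  obtain ⟨h1, h2⟩ := hx
  let b : ι → ℕ := fun i => if 0 < θ i then 0 else 1
  have hM : BlockTriangular (Matrix.of x) b := by
    intro i j hij
    show x i j = 0
    have hne : i ≠ j := by
      rintro rfl
      exact lt_irrefl _ hij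
    apply h2 i j hne
    rintro ⟨h3, h4⟩
    simp only [b, if_pos h3] at hij
    exact absurd hij (Nat.not_lt_zero _)
  rw [hM.det]
  apply Finset.prod_eq_one
  intro a _
  have : (Matrix.of x).toSquareBlock b a = 1 := by
    ext ⟨i, hi⟩ ⟨j, hj⟩
    show x i j = _
    by_cases hij : i = j
    · subst hij
      rw [h1, Matrix.one_apply_eq]
    · rw [Matrix.one_apply_ne (fun h => hij (Subtype.ext_iff.mp h))]
      apply h2 i j hij
      rintro ⟨h3, h4⟩
      have e : b i = b j := hi.trans hj.symm
      simp only [b, if_pos h3, if_neg (not_lt.mpr h4.le)] at e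
      exact absurd e (by norm_num)
  rw [this, Matrix.det_one]

end Wei
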