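import Pool.Agent.Helper188.Wei.Defs

/-!
# Divergent but non-obvious orbits on `SL(n,ℝ)/Γ`: definitions
-/

open Matrix Filter Topology

namespace Wei
variable {ι : Type} [Fintype ι] [DecidableEq ι]


/-- If every `z` outside `{i,j}` is the only new position of some element of `𝔡`, then `𝔡` is
everything. -/
theorem codim (𝔡 : Submodule ℝ (TZ ι)) (i j : ι) (hij : i ≠ j) (θ : TZ ι) (hθ : θ ∈ 𝔡)
    (hθ0 : θ ≠ 0) (hsupp : ∀ l, l ≠ i → l ≠ j → (θ : ι → ℝ) l = 0)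
    (hz : ∀ z, z ≠ i → z ≠ j → ∃ d ∈ 𝔡, (∀ l, l ≠ i → l ≠ z → l ≠ j → (d : ι → ℝ) l = 0) ∧
      (d : ι → ℝ) z ≠ 0) :
    𝔡 = ⊤ := by
  classical
  rw [Submodule.eq_top_iff']
  intro x
  choose! d hd using hz
  let y : TZ ι := x - ∑ z ∈ Finset.univ.filter (fun z => z ≠ i ∧ z ≠ j), (((x : ι → ℝ) z) / ((d z : ι → ℝ) z)) • d z
  have hy : ∀ l, (y : ι → ℝ) l = (x : ι → ℝ) l - ∑ z ∈ Finset.univ.filter (fun z => z ≠ i ∧ z ≠ j),
      (((x : ι → ℝ) z) / ((d z : ι → ℝ) z)) * (d z : ι → ℝ) l := by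
    intro l
    simp [y, Submodule.coe_sub, Submodule.coe_sum, Finset.sum_apply]
  have hy0 : ∀ l, l ≠ i → l ≠ j → (y : ι → ℝ) l = 0 := by
    intro l hli hlj
    rw [hy, Finset.sum_eq_single l]
    · rw [div_mul_cancel₀ _ (hd l hli hlj).2.2, sub_self]
    · intro z hz hzl
      have hz' := (Finset.mem_filter.1 hz).2
      rw [(hd z hz'.1 hz'.2).2.1 l hli hzl.symm hlj, mul_zero]
    · intro hn
      exact absurd (Finset.mem_filter.2 ⟨Finset.mem_univ _, hli, hlj⟩) hn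
  have two : ∀ w : TZ ι, (∀ l, l ≠ i → l ≠ j → (w : ι → ℝ) l = 0) → (w : ι → ℝ) i + (w : ι → ℝ) j = 0 := by
    intro w hw
    have h1 : ∑ l, (w : ι → ℝ) l = 0 := w.2
    have h2 : ∑ l, (w : ι → ℝ) l = (w : ι → ℝ) i + (w : ι → ℝ) j := by
      rw [← Finset.sum_subset (Finset.subset_univ ({i, j} : Finset ι)), Finset.sum_pair hij]
      intro l _ hl
      simp only [Finset.mem_insert, Finset.mem_singleton, not_or] at hl
      exact hw l hl.1 hl.2
    rw [← h2, h1]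
  have hθs := two θ hsupp
  have hys := two y hy0
  have hθi : (θ : ι → ℝ) i ≠ 0 := by
    intro h
    apply hθ0
    apply Subtype.ext
    funext l
    by_cases hli : l = i
    · rw [hli, h]; rfl
    · by_cases hlj : l = j
      · rw [hlj]
        have : (θ : ι → ℝ) j = 0 := by rw [h] at hθs; linarith
        rw [this]; rfl
      · rw [hsupp l hli hlj]; rfl
  have hyθ : y = ((y : ι → ℝ) i / (θ : ι → ℝ) i) • θ := by
    apply Subtype.ext
    funext l
    change (y : ι → ℝ) l = ((y : ι → ℝ) i / (θ : ι → ℝ) i) * (θ : ι → ℝ) l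
    by_cases hli : l = i
    · rw [hli, div_mul_cancel₀ _ hθi]
    · by_cases hlj : l = j
      · rw [hlj]
        have h1 : (θ : ι → ℝ) j = - (θ : ι → ℝ) i := by linarith
        have h2 : (y : ι → ℝ) j = - (y : ι → ℝ) i := by linarith
        rw [h1, h2]
        field_simp
      · rw [hsupp l hli hlj, hy0 l hli hlj, mul_zero]
  have hyd : y ∈ 𝔡 := by rw [hyθ]; exact 𝔡.smul_mem _ hθ
  have hxy : x = y + ∑ z ∈ Finset.univ.filter (fun z => z ≠ i ∧ z ≠ j), (((x : ι → ℝ) z) / ((d z : ι → ℝ) z)) • d z := by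
    simp [y]
  rw [hxy]
  apply 𝔡.add_mem hyd
  apply Submodule.sum_mem
  intro z hz
  have hz' := (Finset.mem_filter.1 hz).2
  exact 𝔡.smul_mem _ (hd z hz'.1 hz'.2).1

end Wei
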