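import Pool.Agent.Helper188.Wei.Defs

/-!
# Divergent but non-obvious orbits on `SL(n,ℝ)/Γ`: definitions
-/

open Matrix Filter Topology

namespace Wei
variable {ι : Type} [Fintype ι] [DecidableEq ι]


theorem fintz [Nonempty ι] : Module.finrank ℝ (TZ ι) + 1 = Fintype.card ι := by
  classical
  let L : (ι → ℝ) →ₗ[ℝ] ℝ := ∑ i, LinearMap.proj i
  have hL : ∀ a : ι → ℝ, L a = ∑ i, a i := by
    intro a
    simp [L, LinearMap.sum_apply]
  have hker : LinearMap.ker L = TZ ι := by
    refine Submodule.ext fun a => ?_
    rw [LinearMap.mem_ker, hL]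
    exact Iff.rfl
  have hsurj : Function.Surjective L := by
    intro c
    refine ⟨Pi.single (Classical.arbitrary ι) c, ?_⟩
    rw [hL]
    simp
  have h := LinearMap.finrank_range_add_finrank_ker L
  rw [LinearMap.range_eq_top.2 hsurj, finrank_top, Module.finrank_self, hker,
    Module.finrank_fintype_fun_eq_card] at h
  omega

end Wei
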