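import Pool.Agent.Helper188.Wei.Defs

/-!
# Divergent but non-obvious orbits on `SL(n,ℝ)/Γ`: definitions
-/

open Matrix Filter Topology

namespace Wei
variable {ι : Type} [Fintype ι] [DecidableEq ι]


/-- A nonzero element of minimal support. -/
theorem minsupp (𝔡 : Submodule ℝ (TZ ι)) (h0 : 𝔡 ≠ ⊥) :
    ∃ θ ∈ 𝔡, θ ≠ 0 ∧ ∀ d ∈ 𝔡, (∀ l, (θ : ι → ℝ) l = 0 → (d : ι → ℝ) l = 0) →
      ∃ r : ℝ, d = r • θ := by
  classical
  let N : TZ ι → ℕ := fun θ => (Finset.univ.filter fun l => (θ : ι → ℝ) l ≠ 0).card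
  have hex : ∃ n : ℕ, ∃ θ ∈ 𝔡, θ ≠ 0 ∧ N θ = n := by
    obtain ⟨θ, h1, h2⟩ := (Submodule.ne_bot_iff 𝔡).1 h0
    exact ⟨_, θ, h1, h2, rfl⟩
  obtain ⟨θ, hθ, hne, hN⟩ := Nat.find_spec hex
  refine ⟨θ, hθ, hne, fun d hd hv => ?_⟩
  have hb : ∃ b, (θ : ι → ℝ) b ≠ 0 := by
    by_contra hc
    push Not at hc
    exact hne (Subtype.ext (funext hc))
  obtain ⟨b, hb⟩ := hb
  refine ⟨(d : ι → ℝ) b / (θ : ι → ℝ) b, ?_⟩
  set r := (d : ι → ℝ) b / (θ : ι → ℝ) b with hr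
  by_contra hd0
  have he : d - r • θ ∈ 𝔡 := 𝔡.sub_mem hd (𝔡.smul_mem r hθ)
  have he0 : d - r • θ ≠ 0 := sub_ne_zero.2 hd0
  have hcoe : ∀ l, ((d - r • θ : TZ ι) : ι → ℝ) l = (d : ι → ℝ) l - r * (θ : ι → ℝ) l :=
    fun l => rfl
  have hlt : N (d - r • θ) < N θ := by
    apply Finset.card_lt_card
    rw [Finset.ssubset_iff_of_subset]
    · refine ⟨b, by simpa using hb, ?_⟩
      simp only [Finset.mem_filter, Finset.mem_univ, true_and, not_not]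
      rw [hcoe, hr, div_mul_cancel₀ _ hb, sub_self]
    · intro l hl
      simp only [Finset.mem_filter, Finset.mem_univ, true_and] at hl ⊢
      intro h
      apply hl
      rw [hcoe, hv l h, h, mul_zero, sub_zero]
  rw [hN] at hlt
  exact Nat.find_min hex hlt ⟨_, he, he0, rfl⟩

end Wei
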