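import Pool.Agent.Helper188.Wei.Defs
import Pool.Agent.Helper188.Wei.P_minsupp
import Pool.Agent.Helper188.Wei.P_codim
import Pool.Agent.Helper188.Wei.P_fintz

/-!
# Divergent but non-obvious orbits on `SL(n,ℝ)/Γ`: definitions
-/

open Matrix Filter Topology

namespace Wei
variable {ι : Type} [Fintype ι] [DecidableEq ι]


/-- The choice of the direction `θ`. -/
theorem choice (𝔡 : Submodule ℝ (TZ ι)) (h0 : 𝔡 ≠ ⊥)
    (hfin : Module.finrank ℝ 𝔡 + 2 ≤ Fintype.card ι) :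
    ∃ θ ∈ 𝔡, θ ≠ 0 ∧
      ((((∃ i1 i2, i1 ≠ i2 ∧ (θ : ι → ℝ) i1 < 0 ∧ (θ : ι → ℝ) i2 < 0) ∨
          (∃ a1 a2, a1 ≠ a2 ∧ 0 < (θ : ι → ℝ) a1 ∧ 0 < (θ : ι → ℝ) a2)) ∧
        (∀ d ∈ 𝔡, (∀ l, (θ : ι → ℝ) l = 0 → (d : ι → ℝ) l = 0) → ∃ r : ℝ, d = r • θ)) ∨
      (∃ i z j, i ≠ z ∧ z ≠ j ∧ i ≠ j ∧ (θ : ι → ℝ) i < 0 ∧ 0 < (θ : ι → ℝ) j ∧
        (∀ l, l ≠ i → l ≠ j → (θ : ι → ℝ) l = 0) ∧
        ∀ d ∈ 𝔡, (∀ l, l ≠ i → l ≠ z → l ≠ j → (d : ι → ℝ) l = 0) → ∃ r : ℝ, d = r • θ)) := by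
  obtain ⟨θ, hθ, hθ0, hmin⟩ := minsupp 𝔡 h0
  have hsum : ∑ i, (θ : ι → ℝ) i = 0 := θ.2
  have hi : ∃ i, (θ : ι → ℝ) i < 0 := by
    by_contra hcon
    push Not at hcon
    apply hθ0
    apply Subtype.ext
    funext l
    exact (Finset.sum_eq_zero_iff_of_nonneg (fun l _ => hcon l)).1 hsum l (Finset.mem_univ l)
  have hj : ∃ j, 0 < (θ : ι → ℝ) j := by
    by_contra hcon
    push Not at hcon
    apply hθ0
    apply Subtype.ext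
    funext l
    exact (Finset.sum_eq_zero_iff_of_nonpos (fun l _ => hcon l)).1 hsum l (Finset.mem_univ l)
  obtain ⟨i, hi⟩ := hi
  obtain ⟨j, hj⟩ := hj
  have hij : i ≠ j := by rintro rfl; linarith
  refine ⟨θ, hθ, hθ0, ?_⟩
  by_cases hk : ∃ k, k ≠ i ∧ k ≠ j ∧ (θ : ι → ℝ) k ≠ 0
  · obtain ⟨k, hki, hkj, hk0⟩ := hk
    refine Or.inl ⟨?_, hmin⟩
    rcases lt_or_gt_of_ne hk0 with h | h
    · exact Or.inl ⟨i, k, hki.symm, hi, h⟩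
    · exact Or.inr ⟨j, k, hkj.symm, hj, h⟩
  · push Not at hk
    right
    by_contra hcon
    have hcon2 : ∀ z, z ≠ i → z ≠ j → ∃ d ∈ 𝔡,
        (∀ l, l ≠ i → l ≠ z → l ≠ j → (d : ι → ℝ) l = 0) ∧ (d : ι → ℝ) z ≠ 0 := by
      intro z hzi hzj
      by_contra hcon3
      apply hcon
      refine ⟨i, z, j, hzi.symm, hzj, hij, hi, hj, hk, fun d hd hsupp => ?_⟩
      apply hmin d hd
      intro l hl
      have hli : l ≠ i := by rintro rfl; exact hi.ne hl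
      have hlj : l ≠ j := by rintro rfl; exact hj.ne' hl
      by_cases hlz : l = z
      · subst hlz
        by_contra hne
        exact hcon3 ⟨d, hd, hsupp, hne⟩
      · exact hsupp l hli hlz hlj
    have htop := codim 𝔡 i j hij θ hθ hθ0 hk hcon2
    haveI : Nonempty ι := ⟨i⟩
    have hf := fintz (ι := ι)
    rw [htop, finrank_top] at hfin
    omega

end Wei
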