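import Pool.Agent.Helper188.Wei.Defs

/-!
# Divergent but non-obvious orbits on `SL(n,ℝ)/Γ`: definitions
-/

open Matrix Filter Topology

namespace Wei
variable {ι : Type} [Fintype ι] [DecidableEq ι]


theorem det3 (i z j : ι) (hiz : i ≠ z) (hzj : z ≠ j) (hij : i ≠ j) (x y w : ℝ) :
    (Matrix.of (mk3 i z j x y w)).det = 1 := by
  have hM : Matrix.of (mk3 i z j x y w) =
      transvection j z w * transvection z i x * transvection j i (y - w * x) := by
    have h1 : transvection j z w * transvection z i x * transvection j i (y - w * x) =
        1 + single j z w + single z i x + single j i (w * x) + single j i (y - w * x) := by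
      unfold transvection
      simp only [mul_add, add_mul, one_mul, mul_one, single_mul_single_same]
      rw [single_mul_single_of_ne _ _ _ _ hzj, single_mul_single_of_ne _ _ _ _ hij,
        single_mul_single_of_ne _ _ _ _ hij]
      simp only [add_zero]
      abel
    rw [h1]
    ext a b
    have e : (1 + single j z w + single z i x + single j i (w * x) + single j i (y - w * x) :
        Matrix ι ι ℝ) a b = (if a = b then 1 else 0) + (if j = a ∧ z = b then w else 0) +
          (if z = a ∧ i = b then x else 0) + (if j = a ∧ i = b then w * x else 0) +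
          (if j = a ∧ i = b then y - w * x else 0) := by
      simp [Matrix.add_apply, Matrix.one_apply, Matrix.single_apply]
    rw [e]
    simp only [of_apply, mk3]
    by_cases hab : a = b
    · subst hab
      rw [if_pos rfl, if_pos rfl, if_neg, if_neg, if_neg]
      · rw [if_neg]
        · simp
        · rintro ⟨h1, h2⟩; exact hij (h2.trans h1.symm)
      · rintro ⟨h1, h2⟩; exact hij (h2.trans h1.symm)
      · rintro ⟨h1, h2⟩; exact hiz (h2.trans h1.symm)
      · rintro ⟨h1, h2⟩; exact hzj (h2.trans h1.symm)
    · rw [if_neg hab, if_neg hab]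
      by_cases h1 : a = z ∧ b = i
      · obtain ⟨rfl, rfl⟩ := h1
        simp [hzj.symm]
      · rw [if_neg h1]
        by_cases h2 : a = j ∧ b = i
        · obtain ⟨rfl, rfl⟩ := h2
          simp [hzj, hiz.symm]
        · rw [if_neg h2]
          by_cases h3 : a = j ∧ b = z
          · obtain ⟨rfl, rfl⟩ := h3
            simp [hiz, hzj]
          · rw [if_neg h3, if_neg, if_neg, if_neg]
            · rw [if_neg]
              · simp
              · rintro ⟨h4, h5⟩; exact h2 ⟨h4.symm, h5.symm⟩
            · rintro ⟨h4, h5⟩; exact h2 ⟨h4.symm, h5.symm⟩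
            · rintro ⟨h4, h5⟩; exact h1 ⟨h4.symm, h5.symm⟩
            · rintro ⟨h4, h5⟩; exact h3 ⟨h4.symm, h5.symm⟩
  rw [hM, det_mul, det_mul, det_transvection_of_ne _ _ hzj.symm, det_transvection_of_ne _ _ hiz.symm,
    det_transvection_of_ne _ _ hij.symm]
  norm_num

end Wei
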