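import Pool.Agent.Helper188.Wei.Defs

/-!
# Divergent but non-obvious orbits on `SL(n,ℝ)/Γ`: definitions
-/

open Matrix Filter Topology

namespace Wei
variable {ι : Type} [Fintype ι] [DecidableEq ι]


theorem pvcont (f : MvPolynomial (ι × ι) ℝ) : Continuous (pv f) := by
  unfold pv
  exact (MvPolynomial.continuous_eval f).comp
    (continuous_pi fun p => (continuous_apply p.2).comp (continuous_apply p.1))

end Wei
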