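import Pool.Agent.Helper188.Wei.Defs

/-!
# Divergent but non-obvious orbits on `SL(n,ℝ)/Γ`: definitions
-/

open Matrix Filter Topology

namespace Wei
variable {ι : Type} [Fintype ι] [DecidableEq ι]


theorem pvpoly (f : MvPolynomial (ι × ι) ℝ) (q : ι → ι → Polynomial ℝ) :
    ∃ p : Polynomial ℝ, ∀ t : ℝ, pv f (fun a b => (q a b).eval t) = p.eval t := by
  refine ⟨MvPolynomial.aeval (fun p : ι × ι => q p.1 p.2) f, fun t => ?_⟩
  unfold pv
  induction f using MvPolynomial.induction_on with
  | C a => simp
  | add p q hp hq => simp only [map_add, Polynomial.eval_add, hp, hq]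
  | mul_X p n hp => simp only [map_mul, MvPolynomial.eval_X, MvPolynomial.aeval_X,
      Polynomial.eval_mul, hp]

end Wei
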