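import Pool.Agent.Helper188.Wei.Defs
import Pool.Agent.Helper188.Wei.P_pvpoly

/-!
# Divergent but non-obvious orbits on `SL(n,ℝ)/Γ`: definitions
-/

open Matrix Filter Topology

namespace Wei
variable {ι : Type} [Fintype ι] [DecidableEq ι]


theorem seg (f : MvPolynomial (ι × ι) ℝ) (x y : ι → ι → ℝ) (hy : pv f y ≠ 0) (δ : ℝ)
    (hδ : 0 < δ) :
    ∃ t : ℝ, 0 < t ∧ t < δ ∧ t < 1 ∧ pv f (fun a b => (1 - t) * x a b + t * y a b) ≠ 0 := by
  obtain ⟨p, hp⟩ := pvpoly f (fun a b => Polynomial.C (x a b) * (1 - Polynomial.X) +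
    Polynomial.C (y a b) * Polynomial.X)
  have hp' : ∀ t : ℝ, pv f (fun a b => (1 - t) * x a b + t * y a b) = p.eval t := by
    intro t
    rw [← hp t]
    congr 1
    funext a b
    simp
    ring
  have hp0 : p ≠ 0 := by
    rintro rfl
    have := hp' 1
    rw [Polynomial.eval_zero] at this
    apply hy
    rw [← this]
    congr 1
    funext a b
    ring
  have hinf : (Set.Ioo (0 : ℝ) (min δ 1)).Infinite := Set.Ioo_infinite (lt_min hδ one_pos)
  obtain ⟨t, ht, htr⟩ := hinf.exists_notMem_finset p.roots.toFinset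
  refine ⟨t, ht.1, lt_of_lt_of_le ht.2 (min_le_left _ _), lt_of_lt_of_le ht.2 (min_le_right _ _),
    ?_⟩
  rw [hp' t]
  intro h0
  apply htr
  rw [Multiset.mem_toFinset, Polynomial.mem_roots hp0]
  exact h0

end Wei
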