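import Pool.Agent.Helper188.Wei.Defs
import Pool.Agent.Helper188.Wei.P_pvcont
import Pool.Agent.Helper188.Wei.P_seg

/-!
# Divergent but non-obvious orbits on `SL(n,ℝ)/Γ`: definitions
-/

open Matrix Filter Topology

namespace Wei
variable {ι : Type} [Fintype ι] [DecidableEq ι]


omit [DecidableEq ι] in
theorem block_abs (x y : ι → ι → ℝ) (a b : ι) : |x a b - y a b| ≤ dist x y := by
  rw [← Real.dist_eq]
  exact (dist_le_pi_dist (x a) (y a) b).trans (dist_le_pi_dist x y a)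

omit [DecidableEq ι] in
theorem block_dist (x y : ι → ι → ℝ) (r : ℝ) (hr : 0 < r) (h : ∀ a b, |x a b - y a b| < r) :
    dist x y < r := by
  rw [dist_pi_lt_iff hr]
  intro a
  rw [dist_pi_lt_iff hr]
  intro b
  rw [Real.dist_eq]
  exact h a b

omit [Fintype ι] [DecidableEq ι] in
theorem block_chart (θ : ι → ℝ) (x y : ι → ι → ℝ) (hx : x ∈ chart θ) (hy : y ∈ chart θ) (t : ℝ) :
    (fun a b => (1 - t) * x a b + t * y a b) ∈ chart θ := by
  refine ⟨fun a => ?_, fun a b hab h => ?_⟩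
  · show (1 - t) * x a a + t * y a a = 1
    rw [hx.1 a, hy.1 a]; ring
  · show (1 - t) * x a b + t * y a b = 0
    rw [hx.2 a b hab h, hy.2 a b hab h]; ring

/-- Making the coordinates in `T` rational, generically for the polynomial `f`. -/
theorem block (θ : ι → ℝ) (T : Set (ι × ι)) (hT : ∀ p ∈ T, 0 < θ p.1 ∧ θ p.2 < 0)
    (f : MvPolynomial (ι × ι) ℝ) (hf : ∃ y ∈ chart θ, pv f y ≠ 0) (x0 : ι → ι → ℝ)
    (hx0 : x0 ∈ chart θ) (δ : ℝ) (hδ : 0 < δ) :
    ∃ (c : ι → ι → ℚ) (x1 : ι → ι → ℝ), x1 ∈ chart θ ∧ dist x0 x1 < δ ∧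
      (∀ a b, (a, b) ∉ T → x1 a b = x0 a b) ∧ (∀ a b, (a, b) ∈ T → x1 a b = (c a b : ℝ)) ∧
      ∀ δ3 > 0, ∃ x3 ∈ chart θ, (∀ a b, (a, b) ∈ T → x3 a b = (c a b : ℝ)) ∧
        dist x1 x3 < δ3 ∧ pv f x3 ≠ 0 := by
  classical
  obtain ⟨y, hy, hyf⟩ := hf
  have hD : 0 ≤ dist x0 y := dist_nonneg
  obtain ⟨t, ht0, htδ, ht1, htf⟩ := seg f x0 y hyf (δ / (2 * (1 + dist x0 y))) (by positivity)
  obtain ⟨yt, hyt⟩ : ∃ yt : ι → ι → ℝ, yt = fun a b => (1 - t) * x0 a b + t * y a b := ⟨_, rfl⟩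
  rw [← hyt] at htf
  have hytc : yt ∈ chart θ := by rw [hyt]; exact block_chart θ x0 y hx0 hy t
  have htb : t * (1 + dist x0 y) < δ / 2 := by
    rw [lt_div_iff₀ (by positivity)] at htδ
    linarith
  have hx0yt : ∀ a b, |x0 a b - yt a b| < δ / 2 := by
    intro a b
    have h1 : x0 a b - yt a b = t * (x0 a b - y a b) := by rw [hyt]; ring
    rw [h1, abs_mul, abs_of_pos ht0]
    have h2 := mul_le_mul_of_nonneg_left (block_abs x0 y a b) ht0.le
    linarith
  -- openness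
  have hopen : IsOpen {x : ι → ι → ℝ | pv f x ≠ 0} := isOpen_ne.preimage (pvcont f)
  obtain ⟨η, hη, hηb⟩ := Metric.isOpen_iff.1 hopen yt htf
  obtain ⟨η', hη'⟩ : ∃ η' : ℝ, η' = min η (δ / 2) := ⟨_, rfl⟩
  have hη'0 : 0 < η' := by rw [hη']; exact lt_min hη (by linarith)
  have hη'1 : η' ≤ η := by rw [hη']; exact min_le_left _ _
  have hη'2 : η' ≤ δ / 2 := by rw [hη']; exact min_le_right _ _
  have hrat : ∀ a b, ∃ q : ℚ, |yt a b - (q : ℝ)| < η' := by
    intro a b
    obtain ⟨q, h1, h2⟩ := exists_rat_btwn (show yt a b < yt a b + η' by linarith)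
    refine ⟨q, ?_⟩
    rw [abs_lt]
    constructor <;> linarith
  choose c hc using hrat
  have hTd : ∀ a, (a, a) ∉ T := by
    intro a h
    have := hT _ h
    simp only at this
    linarith [this.1, this.2]
  have hrep : ∀ x : ι → ι → ℝ, x ∈ chart θ →
      (fun a b => if (a, b) ∈ T then (c a b : ℝ) else x a b) ∈ chart θ := by
    intro x hx
    refine ⟨fun a => ?_, fun a b hab h => ?_⟩
    · show (if (a, a) ∈ T then (c a a : ℝ) else x a a) = 1
      rw [if_neg (hTd a)]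
      exact hx.1 a
    · show (if (a, b) ∈ T then (c a b : ℝ) else x a b) = 0
      rw [if_neg (fun h' => h (hT _ h'))]
      exact hx.2 a b hab h
  obtain ⟨y', hy'⟩ : ∃ y' : ι → ι → ℝ, y' = fun a b => if (a, b) ∈ T then (c a b : ℝ) else yt a b := ⟨_, rfl⟩
  obtain ⟨x1, hx1⟩ : ∃ x1 : ι → ι → ℝ, x1 = fun a b => if (a, b) ∈ T then (c a b : ℝ) else x0 a b := ⟨_, rfl⟩
  have hy'c : y' ∈ chart θ := by rw [hy']; exact hrep yt hytc
  have hx1c : x1 ∈ chart θ := by rw [hx1]; exact hrep x0 hx0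
  have hy'f : pv f y' ≠ 0 := by
    refine hηb ?_
    rw [Metric.mem_ball]
    refine (block_dist y' yt η' hη'0 fun a b => ?_).trans_le hη'1
    rw [hy']
    show |(if (a, b) ∈ T then (c a b : ℝ) else yt a b) - yt a b| < η'
    split_ifs
    · rw [abs_sub_comm]; exact hc a b
    · rw [sub_self, abs_zero]; exact hη'0
  refine ⟨c, x1, hx1c, ?_, ?_, ?_, ?_⟩
  · refine block_dist x0 x1 δ hδ fun a b => ?_
    rw [hx1]
    show |x0 a b - (if (a, b) ∈ T then (c a b : ℝ) else x0 a b)| < δ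
    split_ifs
    · have h1 := hx0yt a b
      have h2 := hc a b
      have h3 := abs_sub_le (x0 a b) (yt a b) (c a b : ℝ)
      linarith
    · rw [sub_self, abs_zero]; exact hδ
  · intro a b hab
    rw [hx1]
    exact if_neg hab
  · intro a b hab
    rw [hx1]
    exact if_pos hab
  · intro δ3 hδ3
    have hD' : 0 ≤ dist x1 y' := dist_nonneg
    obtain ⟨s, hs0, hsδ, hs1, hsf⟩ := seg f x1 y' hy'f (δ3 / (1 + dist x1 y')) (by positivity)
    have hsb : s * (1 + dist x1 y') < δ3 := by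
      rwa [lt_div_iff₀ (by positivity)] at hsδ
    refine ⟨fun a b => (1 - s) * x1 a b + s * y' a b, block_chart θ x1 y' hx1c hy'c s, ?_, ?_, hsf⟩
    · intro a b hab
      show (1 - s) * x1 a b + s * y' a b = (c a b : ℝ)
      have h1 : x1 a b = (c a b : ℝ) := by rw [hx1]; exact if_pos hab
      have h2 : y' a b = (c a b : ℝ) := by rw [hy']; exact if_pos hab
      rw [h1, h2]; ring
    · refine block_dist _ _ δ3 hδ3 fun a b => ?_
      have h1 : x1 a b - ((1 - s) * x1 a b + s * y' a b) = s * (x1 a b - y' a b) := by ring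
      show |x1 a b - ((1 - s) * x1 a b + s * y' a b)| < δ3
      rw [h1, abs_mul, abs_of_pos hs0]
      have h2 := mul_le_mul_of_nonneg_left (block_abs x1 y' a b) hs0.le
      linarith

end Wei
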