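import Pool.Agent.Helper188.Wei.Defs

/-!
# Divergent but non-obvious orbits on `SL(n,ℝ)/Γ`: definitions
-/

open Matrix Filter Topology

namespace Wei
variable {ι : Type} [Fintype ι] [DecidableEq ι]


/-- One round of the construction in `limit`. -/
theorem mstep {X : Type} [MetricSpace X] (S : X → ℝ → ℝ → Prop)
    (hmono : ∀ x r ε ε', S x r ε → ε ≤ ε' → S x r ε')
    (hopen : ∀ a b ε : ℝ, IsOpen {x | ∀ r ∈ Set.Icc a b, S x r ε})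
    (Z Z' : Set (Set X)) (hZZ : Z ⊆ Z')
    (hst : ∀ z ∈ Z', ∀ ε > 0, ∃ R : ℝ, ∀ r ≥ R, ∀ y ∈ z, S y r ε)
    (B : Set X)
    (hstep : ∀ z0 ∈ Z, ∀ x0 ∈ z0, ∀ δ1 > 0, ∃ x1 ∈ z0, ∃ z1 ∈ Z', x1 ∈ z1 ∧
      dist x0 x1 < δ1 ∧ ∀ δ2 > 0, ∃ x2 ∈ z1, ∃ z2 ∈ Z, x2 ∈ z2 ∧ dist x1 x2 < δ2 ∧
        ∀ δ3 > 0, ∃ x3 ∈ z2, dist x2 x3 < δ3 ∧ x3 ∉ B)
    (z0 : Set X) (hz0 : z0 ∈ Z) (x0 : X) (hx0 : x0 ∈ z0) (r0 ε : ℝ) (hε : 0 < ε)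
    (hr0 : ∀ r ≥ r0, ∀ y ∈ z0, S y r ε) (η ε' : ℝ) (hη : 0 < η) (hε' : 0 < ε') :
    ∃ z ∈ Z, ∃ x ∈ z, ∃ r1 : ℝ, r0 + 1 ≤ r1 ∧ dist x0 x < η ∧ x ∉ B ∧
      (∀ r ≥ r1, ∀ y ∈ z, S y r ε') ∧ ∀ r ∈ Set.Icc r0 r1, S x r ε := by
  have hη4 : 0 < η / 4 := by linarith
  obtain ⟨x1, hx1, z1, hz1, hx1z1, hd1, h2⟩ := hstep z0 hz0 x0 hx0 (η / 4) hη4
  have hmin : 0 < min ε ε' := lt_min hε hε'
  obtain ⟨R1, hR1⟩ := hst z1 hz1 (min ε ε') hmin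
  have hra0 : r0 + 1 ≤ max R1 (r0 + 1) := le_max_right _ _
  have hraR : R1 ≤ max R1 (r0 + 1) := le_max_left _ _
  generalize max R1 (r0 + 1) = ra at hra0 hraR
  have hm1 : x1 ∈ {x | ∀ r ∈ Set.Icc r0 ra, S x r ε} := by
    intro r hr
    exact hr0 r hr.1 x1 hx1
  obtain ⟨δ2, hδ2, hb2⟩ := Metric.isOpen_iff.1 (hopen r0 ra ε) x1 hm1
  obtain ⟨x2, hx2, z2, hz2, hx2z2, hd2, h3⟩ := h2 (min δ2 (η / 4)) (lt_min hδ2 hη4)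
  obtain ⟨R2, hR2⟩ := hst z2 (hZZ hz2) (min ε ε') hmin
  have hrb0 : ra ≤ max R2 ra := le_max_right _ _
  have hrbR : R2 ≤ max R2 ra := le_max_left _ _
  generalize max R2 ra = rb at hrb0 hrbR
  have hm2' : ∀ r ∈ Set.Icc r0 ra, S x2 r ε := by
    have : x2 ∈ Metric.ball x1 δ2 := by
      rw [Metric.mem_ball, dist_comm]
      exact lt_of_lt_of_le hd2 (min_le_left _ _)
    exact hb2 this
  have hm2 : x2 ∈ {x | ∀ r ∈ Set.Icc r0 rb, S x r ε} := by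
    intro r hr
    rcases le_total r ra with h | h
    · exact hm2' r ⟨hr.1, h⟩
    · exact hmono x2 r _ _ (hR1 r (le_trans hraR h) x2 hx2) (min_le_left _ _)
  obtain ⟨δ3, hδ3, hb3⟩ := Metric.isOpen_iff.1 (hopen r0 rb ε) x2 hm2
  obtain ⟨x3, hx3, hd3, hB⟩ := h3 (min δ3 (η / 4)) (lt_min hδ3 hη4)
  refine ⟨z2, hz2, x3, hx3, rb, le_trans hra0 hrb0, ?_, hB, ?_, ?_⟩
  · have e1 := lt_of_lt_of_le hd2 (min_le_right _ _)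
    have e2 := lt_of_lt_of_le hd3 (min_le_right _ _)
    have e3 := dist_triangle x0 x1 x3
    have e4 := dist_triangle x1 x2 x3
    linarith
  · intro r hr y hy
    exact hmono y r _ _ (hR2 r (le_trans hrbR hr) y hy) (min_le_right _ _)
  · have : x3 ∈ Metric.ball x2 δ3 := by
      rw [Metric.mem_ball, dist_comm]
      exact lt_of_lt_of_le hd3 (min_le_left _ _)
    exact hb3 this

end Wei
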