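import Pool.Agent.Helper188.Wei.Defs
import Pool.Agent.Helper188.Wei.P_mstep

/-!
# Divergent but non-obvious orbits on `SL(n,ℝ)/Γ`: definitions
-/

open Matrix Filter Topology

namespace Wei
variable {ι : Type} [Fintype ι] [DecidableEq ι]


/-- The limiting construction. -/
theorem limit {X : Type} [MetricSpace X] [CompleteSpace X] (S : X → ℝ → ℝ → Prop)
    (hmono : ∀ x r ε ε', S x r ε → ε ≤ ε' → S x r ε')
    (hopen : ∀ a b ε : ℝ, IsOpen {x | ∀ r ∈ Set.Icc a b, S x r ε})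
    (X0 : Set X) (hX0 : IsClosed X0) (Z Z' : Set (Set X)) (hZZ : Z ⊆ Z')
    (hZX : ∀ z ∈ Z', z ⊆ X0) (hne : ∃ z ∈ Z, z.Nonempty)
    (hst : ∀ z ∈ Z', ∀ ε > 0, ∃ R : ℝ, ∀ r ≥ R, ∀ y ∈ z, S y r ε)
    (B : ℕ → Set X) (hB : ∀ k, IsClosed (B k))
    (hstep : ∀ z0 ∈ Z, ∀ x0 ∈ z0, ∀ k : ℕ, ∀ δ1 > 0, ∃ x1 ∈ z0, ∃ z1 ∈ Z', x1 ∈ z1 ∧
      dist x0 x1 < δ1 ∧ ∀ δ2 > 0, ∃ x2 ∈ z1, ∃ z2 ∈ Z, x2 ∈ z2 ∧ dist x1 x2 < δ2 ∧
        ∀ δ3 > 0, ∃ x3 ∈ z2, dist x2 x3 < δ3 ∧ x3 ∉ B k) :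
    ∃ x ∈ X0, (∀ k, x ∉ B k) ∧ ∀ ε > 0, ∃ R : ℝ, ∀ r ≥ R, S x r ε := by
  obtain ⟨zz, hzz, xx, hxx⟩ := hne
  have heps : ∀ k : ℕ, (0 : ℝ) < 1 / ((k : ℝ) + 1) := fun k => by positivity
  obtain ⟨R0, hR0⟩ := hst zz (hZZ hzz) (1 / (((0 : ℕ) : ℝ) + 1)) (heps 0)
  have step : ∀ (k : ℕ) (t : Set X × X × ℝ × ℝ),
      (t.1 ∈ Z ∧ t.2.1 ∈ t.1 ∧ 0 < t.2.2.2 ∧
        ∀ s ≥ t.2.2.1, ∀ y ∈ t.1, S y s (1 / ((k : ℝ) + 1))) →
      ∃ t' : Set X × X × ℝ × ℝ, (t'.1 ∈ Z ∧ t'.2.1 ∈ t'.1 ∧ 0 < t'.2.2.2 ∧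
        ∀ s ≥ t'.2.2.1, ∀ y ∈ t'.1, S y s (1 / (((k + 1 : ℕ) : ℝ) + 1))) ∧
        (t.2.2.1 + 1 ≤ t'.2.2.1 ∧ t'.2.2.2 ≤ t.2.2.2 / 2 ∧
          dist t.2.1 t'.2.1 + t'.2.2.2 ≤ t.2.2.2 ∧
          ∀ y ∈ Metric.closedBall t'.2.1 t'.2.2.2, y ∉ B k ∧
            ∀ s ∈ Set.Icc t.2.2.1 t'.2.2.1, S y s (1 / ((k : ℝ) + 1))) := by
    rintro k ⟨z, x, r, ρ⟩ ⟨hz, hx, hρ, hS⟩
    simp only at hz hx hρ hS
    obtain ⟨z', hz', x', hx', r1, hr1, hd, hxB, hS', hSx⟩ :=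
      mstep S hmono hopen Z Z' hZZ hst (B k) (fun z0 hz0 x0 hx0 δ1 hδ1 =>
        hstep z0 hz0 x0 hx0 k δ1 hδ1) z hz x hx r (1 / ((k : ℝ) + 1)) (heps k) hS (ρ / 2)
        (1 / (((k + 1 : ℕ) : ℝ) + 1)) (by linarith) (heps (k + 1))
    have hO : IsOpen ((B k)ᶜ ∩ {y | ∀ s ∈ Set.Icc r r1, S y s (1 / ((k : ℝ) + 1))}) :=
      (hB k).isOpen_compl.inter (hopen r r1 _)
    have hmem : x' ∈ (B k)ᶜ ∩ {y | ∀ s ∈ Set.Icc r r1, S y s (1 / ((k : ℝ) + 1))} :=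
      ⟨hxB, hSx⟩
    obtain ⟨δ, hδ, hball⟩ := Metric.isOpen_iff.1 hO x' hmem
    refine ⟨(z', x', r1, min (δ / 2) (ρ / 2)), ⟨hz', hx', ?_, hS'⟩, hr1, ?_, ?_, ?_⟩
    · exact lt_min (by linarith) (by linarith)
    · exact min_le_right _ _
    · have := min_le_right (δ / 2) (ρ / 2)
      simp only
      linarith
    · intro y hy
      simp only at hy ⊢
      have h1 : y ∈ Metric.ball x' δ := by
        rw [Metric.mem_closedBall] at hy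
        rw [Metric.mem_ball]
        have := min_le_left (δ / 2) (ρ / 2)
        linarith
      exact hball h1
  choose! f hf using step
  let u : ℕ → Set X × X × ℝ × ℝ := fun n =>
    Nat.rec (motive := fun _ => Set X × X × ℝ × ℝ) (zz, xx, R0, 1) (fun k t => f k t) n
  have hu : ∀ n : ℕ, (u n).1 ∈ Z ∧ (u n).2.1 ∈ (u n).1 ∧ 0 < (u n).2.2.2 ∧
        ∀ s ≥ (u n).2.2.1, ∀ y ∈ (u n).1, S y s (1 / ((n : ℝ) + 1)) := by
    intro n
    induction n with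
    | zero => exact ⟨hzz, hxx, one_pos, hR0⟩
    | succ n ih => exact (hf n (u n) ih).1
  have hrel : ∀ n : ℕ, (u n).2.2.1 + 1 ≤ (u (n + 1)).2.2.1 ∧
      (u (n + 1)).2.2.2 ≤ (u n).2.2.2 / 2 ∧
      dist (u n).2.1 (u (n + 1)).2.1 + (u (n + 1)).2.2.2 ≤ (u n).2.2.2 ∧
      ∀ y ∈ Metric.closedBall (u (n + 1)).2.1 (u (n + 1)).2.2.2, y ∉ B n ∧
        ∀ s ∈ Set.Icc (u n).2.2.1 (u (n + 1)).2.2.1, S y s (1 / ((n : ℝ) + 1)) :=
    fun n => (hf n (u n) (hu n)).2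
  have hρ : ∀ n : ℕ, (u n).2.2.2 ≤ (1 / 2 : ℝ) ^ n := by
    intro n
    induction n with
    | zero => simp [u]
    | succ n ih =>
      have h := (hrel n).2.1
      rw [pow_succ]
      linarith
  have hdist : ∀ n m : ℕ, dist (u n).2.1 (u (n + m)).2.1 + (u (n + m)).2.2.2 ≤ (u n).2.2.2 := by
    intro n m
    induction m with
    | zero => simp
    | succ m ih =>
      have h := (hrel (n + m)).2.2.1
      have h2 := dist_triangle (u n).2.1 (u (n + m)).2.1 (u (n + m + 1)).2.1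
      rw [← add_assoc]
      linarith
  have hcau : CauchySeq (fun n => (u n).2.1) := by
    refine cauchySeq_of_le_geometric (1 / 2) 1 (by norm_num) ?_
    intro n
    have h := hdist n 1
    have h2 := (hu (n + 1)).2.2.1
    have h3 := hρ n
    linarith
  obtain ⟨x, hx⟩ := cauchySeq_tendsto_of_complete hcau
  have hxball : ∀ n, x ∈ Metric.closedBall (u n).2.1 (u n).2.2.2 := by
    intro n
    refine Metric.isClosed_closedBall.mem_of_tendsto hx ?_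
    filter_upwards [Filter.eventually_ge_atTop n] with m hm
    obtain ⟨j, rfl⟩ := Nat.exists_eq_add_of_le hm
    rw [Metric.mem_closedBall, dist_comm]
    have h := hdist n j
    have h2 := (hu (n + j)).2.2.1
    linarith
  have hr : ∀ n m : ℕ, (u n).2.2.1 + m ≤ (u (n + m)).2.2.1 := by
    intro n m
    induction m with
    | zero => simp
    | succ m ih =>
      have h := (hrel (n + m)).1
      rw [← add_assoc]
      push_cast
      linarith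
  refine ⟨x, ?_, ?_, ?_⟩
  · refine hX0.mem_of_tendsto hx (Filter.Eventually.of_forall fun n => ?_)
    exact hZX _ (hZZ (hu n).1) (hu n).2.1
  · intro k
    exact ((hrel k).2.2.2 x (hxball (k + 1))).1
  · intro ε hε
    obtain ⟨K, hK⟩ := exists_nat_one_div_lt hε
    refine ⟨(u K).2.2.1, fun r hrr => ?_⟩
    -- find the least m with r < r_{K+m}
    have hex : ∃ m : ℕ, r < (u (K + m)).2.2.1 := by
      obtain ⟨m, hm⟩ := exists_nat_gt (r - (u K).2.2.1)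
      exact ⟨m, by have := hr K m; linarith⟩
    classical
    obtain ⟨m, hm, hmin⟩ : ∃ m : ℕ, r < (u (K + m)).2.2.1 ∧
        ∀ j < m, ¬ r < (u (K + j)).2.2.1 :=
      ⟨Nat.find hex, Nat.find_spec hex, fun j hj => Nat.find_min hex hj⟩
    cases m with
    | zero =>
      simp only [add_zero] at hm
      exact absurd hrr (not_le.2 hm)
    | succ m =>
      have h1 := hmin m (Nat.lt_succ_self m)
      have h2 := ((hrel (K + m)).2.2.2 x (hxball (K + m + 1))).2 r ⟨not_lt.1 h1, hm.le⟩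
      refine hmono _ _ _ _ h2 ?_
      refine le_trans ?_ hK.le
      apply one_div_le_one_div_of_le
      · positivity
      · push_cast
        linarith [Nat.cast_nonneg (α := ℝ) m]

end Wei
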