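import Pool.Agent.Helper188.Wei.Defs

/-!
# Divergent but non-obvious orbits on `SL(n,ℝ)/Γ`: definitions
-/

open Matrix Filter Topology

namespace Wei
variable {ι : Type} [Fintype ι] [DecidableEq ι]


theorem ssopen_vs (θ : ι → ℝ) (ε : ℝ) :
    IsOpen {p : (ι → ι → ℝ) × ℝ | VS θ p.1 p.2 ε} := by
  have h1 : {p : (ι → ι → ℝ) × ℝ | VS θ p.1 p.2 ε} =
      ⋃ (v : ι → ℤ), ⋃ (_ : v ≠ 0), ⋂ i, {p : (ι → ι → ℝ) × ℝ |
        |Real.exp (p.2 * θ i) * ∑ j, p.1 i j * (v j : ℝ)| < ε} := by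
    ext p
    simp only [VS, Set.mem_ofPred_eq, Set.mem_iUnion, Set.mem_iInter, exists_prop]
  rw [h1]
  refine isOpen_iUnion (fun v => isOpen_iUnion (fun _ => isOpen_iInter_of_finite (fun i => ?_)))
  apply isOpen_lt _ continuous_const
  fun_prop

theorem ssopen_cs (θ : ι → ℝ) (ε : ℝ) :
    IsOpen {p : (ι → ι → ℝ) × ℝ | CS θ p.1 p.2 ε} := by
  have h1 : {p : (ι → ι → ℝ) × ℝ | CS θ p.1 p.2 ε} =
      ⋃ (v : ι → ℤ), ⋃ (_ : v ≠ 0), ⋂ j, {p : (ι → ι → ℝ) × ℝ |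
        |Real.exp (-(p.2 * θ j)) * ∑ i, (v i : ℝ) * (adjugate (Matrix.of p.1)) i j| < ε} := by
    ext p
    simp only [CS, Set.mem_ofPred_eq, Set.mem_iUnion, Set.mem_iInter, exists_prop]
  rw [h1]
  refine isOpen_iUnion (fun v => isOpen_iUnion (fun _ => isOpen_iInter_of_finite (fun j => ?_)))
  have hA : Continuous (fun p : (ι → ι → ℝ) × ℝ => adjugate (Matrix.of p.1)) := by
    apply Continuous.matrix_adjugate
    exact continuous_fst
  have hB : ∀ i, Continuous (fun p : (ι → ι → ℝ) × ℝ => (adjugate (Matrix.of p.1)) i j) := by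
    intro i
    exact hA.matrix_elem i j
  apply isOpen_lt _ continuous_const
  apply Continuous.abs
  apply Continuous.mul (by fun_prop)
  exact continuous_finsetSum _ (fun i _ => continuous_const.mul (hB i))

theorem ssopen (θ : ι → ℝ) (a b ε : ℝ) :
    IsOpen {x : ι → ι → ℝ | ∀ r ∈ Set.Icc a b, SS θ x r ε} := by
  have hU : IsOpen {p : (ι → ι → ℝ) × ℝ | SS θ p.1 p.2 ε} := (ssopen_vs θ ε).union (ssopen_cs θ ε)
  rw [isOpen_iff_mem_nhds]
  intro x hx
  apply (isCompact_Icc (a := a) (b := b)).eventually_forall_of_forall_eventually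
  intro r hr
  exact hU.mem_nhds (hx r hr)

end Wei
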