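import Pool.Agent.Helper188.Wei.Defs

/-!
# Divergent but non-obvious orbits on `SL(n,ℝ)/Γ`: definitions
-/

open Matrix Filter Topology

namespace Wei
variable {ι : Type} [Fintype ι] [DecidableEq ι]


theorem stV (θ : ι → ℝ) (i : ι) (hi : θ i < 0) (c : ι → ℚ) (ε : ℝ) (hε : 0 < ε) :
    ∃ R : ℝ, ∀ r ≥ R, ∀ x ∈ ZV θ i c, SS θ x r ε := by
  obtain ⟨M, hM, m, hm⟩ : ∃ M : ℕ, 0 < M ∧ ∃ m : ι → ℤ, ∀ a, (M : ℚ) * c a = (m a : ℚ) := by
    refine ⟨∏ a, (c a).den, Finset.prod_pos (fun a _ => (c a).pos), ?_⟩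
    have h : ∀ a, ∃ m : ℤ, ((∏ a, (c a).den : ℕ) : ℚ) * c a = (m : ℚ) := by
      intro a
      obtain ⟨k, hk⟩ := Finset.dvd_prod_of_mem (fun a => (c a).den) (Finset.mem_univ a)
      refine ⟨k * (c a).num, ?_⟩
      rw [hk]
      push_cast
      rw [← Rat.mul_den_eq_num (c a)]
      ring
    choose m hm using h
    exact ⟨m, hm⟩
  have hmR : ∀ a, (M : ℝ) * ((c a : ℚ) : ℝ) = (m a : ℝ) := by
    intro a
    have := congrArg (fun q : ℚ => (q : ℝ)) (hm a)
    simpa using this
  have hlim : Tendsto (fun r : ℝ => Real.exp (r * θ i) * (M : ℝ)) atTop (𝓝 (0 * (M : ℝ))) := by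
    apply Tendsto.mul_const
    exact Real.tendsto_exp_atBot.comp (tendsto_id.atTop_mul_const_of_neg hi)
  rw [zero_mul] at hlim
  obtain ⟨R, hR⟩ := eventually_atTop.1 (hlim.eventually (gt_mem_nhds hε))
  refine ⟨R, fun r hr x hx => Or.inl ?_⟩
  obtain ⟨⟨hx1, hx2⟩, hx3⟩ := hx
  refine ⟨fun j => (if j = i then (M : ℤ) else 0) + (if 0 < θ j then - m j else 0), ?_, ?_⟩
  · intro h0
    have h1 := congrFun h0 i
    simp only [if_true, Pi.zero_apply] at h1
    rw [if_neg (not_lt.2 hi.le)] at h1
    omega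
  · intro a
    have hsum : ∑ j, x a j * (((if j = i then (M : ℤ) else 0) +
        (if 0 < θ j then - m j else 0) : ℤ) : ℝ) = if a = i then (M : ℝ) else 0 := by
      have e1 : ∀ j, x a j * (((if j = i then (M : ℤ) else 0) +
        (if 0 < θ j then - m j else 0) : ℤ) : ℝ) =
          (if j = i then x a j * (M : ℝ) else 0) +
          (if j = a then x a j * (if 0 < θ j then - (m j : ℝ) else 0) else 0) := by
        intro j
        have e2 : x a j * (if 0 < θ j then - (m j : ℝ) else 0) =
            if j = a then x a j * (if 0 < θ j then - (m j : ℝ) else 0) else 0 := by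
          by_cases hja : j = a
          · rw [if_pos hja]
          · rw [if_neg hja]
            by_cases hj : 0 < θ j
            · rw [hx2 a j (Ne.symm hja) (fun h => absurd h.2 (not_lt.2 hj.le)), zero_mul]
            · rw [if_neg hj, mul_zero]
        rw [← e2]
        push_cast
        split_ifs <;> ring
      rw [Finset.sum_congr rfl (fun j _ => e1 j), Finset.sum_add_distrib, Finset.sum_ite_eq',
        Finset.sum_ite_eq', if_pos (Finset.mem_univ _), if_pos (Finset.mem_univ _), hx1 a, one_mul]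
      by_cases ha : 0 < θ a
      · have hai : a ≠ i := fun h => by rw [h] at ha; linarith
        rw [if_pos ha, if_neg hai, hx3 a ha, mul_comm, hmR a, add_neg_cancel]
      · rw [if_neg ha, add_zero]
        by_cases hai : a = i
        · rw [if_pos hai, hai, hx1 i, one_mul]
        · rw [if_neg hai, hx2 a i hai (fun h => ha h.1), zero_mul]
    rw [hsum]
    by_cases hai : a = i
    · rw [if_pos hai, hai, abs_of_nonneg (by positivity)]
      exact hR r hr
    · rw [if_neg hai, mul_zero, abs_zero]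
      exact hε

end Wei
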