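import Pool.Agent.Helper188.Wei.Defs
import Pool.Agent.Helper188.Wei.P_limit
import Pool.Agent.Helper188.Wei.P_ssopen
import Pool.Agent.Helper188.Wei.P_pvcont
import Pool.Agent.Helper188.Wei.P_stV
import Pool.Agent.Helper188.Wei.P_block

/-!
# Divergent but non-obvious orbits on `SL(n,ℝ)/Γ`: definitions
-/

open Matrix Filter Topology

namespace Wei
variable {ι : Type} [Fintype ι] [DecidableEq ι]


theorem dyn1 (θ : ι → ℝ) (i1 i2 : ι) (h12 : i1 ≠ i2) (h1 : θ i1 < 0) (h2 : θ i2 < 0)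
    (f : ℕ → MvPolynomial (ι × ι) ℝ) (hf : ∀ k, ∃ y ∈ chart θ, pv (f k) y ≠ 0) :
    ∃ x ∈ chart θ, (∀ k, pv (f k) x ≠ 0) ∧ ∀ ε > 0, ∃ R : ℝ, ∀ r ≥ R, SS θ x r ε := by
  have hclosed : IsClosed (chart θ) := by
    have e : chart θ = (⋂ a, {x : ι → ι → ℝ | x a a = 1}) ∩
        ⋂ a, ⋂ b, ⋂ (_ : a ≠ b), ⋂ (_ : ¬ (0 < θ a ∧ θ b < 0)), {x : ι → ι → ℝ | x a b = 0} := by
      ext x
      simp only [chart, Set.mem_inter_iff, Set.mem_iInter, Set.mem_ofPred_eq]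
    rw [e]
    refine IsClosed.inter (isClosed_iInter fun a => isClosed_eq (by fun_prop) continuous_const) ?_
    refine isClosed_iInter fun a => isClosed_iInter fun b => isClosed_iInter fun _ =>
      isClosed_iInter fun _ => isClosed_eq (by fun_prop) continuous_const
  have hmono : ∀ (x : ι → ι → ℝ) (r ε ε' : ℝ), SS θ x r ε → ε ≤ ε' → SS θ x r ε' := by
    rintro x r ε ε' (⟨v, hv, h⟩ | ⟨v, hv, h⟩) hle
    · exact Or.inl ⟨v, hv, fun i => lt_of_lt_of_le (h i) hle⟩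
    · exact Or.inr ⟨v, hv, fun i => lt_of_lt_of_le (h i) hle⟩
  obtain ⟨x, hx, hxB, hxS⟩ := limit (X := ι → ι → ℝ) (fun x r ε => SS θ x r ε) hmono
    (fun a b ε => ssopen θ a b ε) (chart θ) hclosed
    {z | ∃ (i : ι) (c : ι → ℚ), (i = i1 ∨ i = i2) ∧ z = ZV θ i c}
    {z | ∃ (i : ι) (c : ι → ℚ), (i = i1 ∨ i = i2) ∧ z = ZV θ i c} (le_refl _)
    (by
      rintro z ⟨i, c, -, rfl⟩ x hx
      exact hx.1)
    (by
      refine ⟨ZV θ i1 0, ⟨i1, 0, Or.inl rfl, rfl⟩, fun a b => if a = b then 1 else 0, ?_, ?_⟩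
      · refine ⟨fun a => by simp, fun a b hab _ => by simp [hab]⟩
      · intro a ha
        have : a ≠ i1 := by
          rintro rfl
          exact lt_asymm ha h1
        simp [this])
    (by
      rintro z ⟨i, c, hi, rfl⟩ ε hε
      have hθ : θ i < 0 := by rcases hi with rfl | rfl <;> assumption
      obtain ⟨R, hR⟩ := stV θ i hθ c ε hε
      exact ⟨R, hR⟩)
    (fun k => {x | pv (f k) x = 0}) (fun k => isClosed_eq (pvcont _) continuous_const)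
    (by
      rintro z0 ⟨i, c, hi, rfl⟩ x0 hx0 k δ1 hδ1
      obtain ⟨i', hi', hii, hθ'⟩ : ∃ i', (i' = i1 ∨ i' = i2) ∧ i ≠ i' ∧ θ i' < 0 := by
        rcases hi with rfl | rfl
        · exact ⟨i2, Or.inr rfl, h12, h2⟩
        · exact ⟨i1, Or.inl rfl, h12.symm, h1⟩
      obtain ⟨c', x1, hx1, hd, hout, hin, hgen⟩ := block θ {p | 0 < θ p.1 ∧ p.2 = i'}
        (by
          rintro ⟨a, b⟩ ⟨ha, hb⟩
          simp only [] at ha hb ⊢
          rw [hb]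
          exact ⟨ha, hθ'⟩) (f k) (hf k) x0 hx0.1 δ1 hδ1
      refine ⟨x1, ⟨hx1, ?_⟩, ZV θ i' (fun a => c' a i'), ⟨i', _, hi', rfl⟩, ⟨hx1, ?_⟩, hd, ?_⟩
      · intro a ha
        rw [hout a i (fun h => hii h.2)]
        exact hx0.2 a ha
      · intro a ha
        exact hin a i' ⟨ha, rfl⟩
      · intro δ2 hδ2
        refine ⟨x1, ⟨hx1, fun a ha => hin a i' ⟨ha, rfl⟩⟩, ZV θ i' (fun a => c' a i'),
          ⟨i', _, hi', rfl⟩, ⟨hx1, fun a ha => hin a i' ⟨ha, rfl⟩⟩, by rw [dist_self]; exact hδ2, ?_⟩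
        intro δ3 hδ3
        obtain ⟨x3, hx3, hin3, hd3, hne3⟩ := hgen δ3 hδ3
        exact ⟨x3, ⟨hx3, fun a ha => hin3 a i' ⟨ha, rfl⟩⟩, hd3, hne3⟩)
  exact ⟨x, hx, hxB, hxS⟩

end Wei
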