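import Pool.Agent.Helper188.Wei.Defs
import Pool.Agent.Helper188.Wei.P_chartdet

/-!
# Divergent but non-obvious orbits on `SL(n,ℝ)/Γ`: definitions
-/

open Matrix Filter Topology

namespace Wei
variable {ι : Type} [Fintype ι] [DecidableEq ι]


theorem stC (θ : ι → ℝ) (a : ι) (ha : 0 < θ a) (c : ι → ℚ) (ε : ℝ) (hε : 0 < ε) :
    ∃ R : ℝ, ∀ r ≥ R, ∀ x ∈ ZC θ a c, SS θ x r ε := by
  obtain ⟨M, hM0, m, hm⟩ : ∃ M : ℤ, 0 < M ∧ ∃ m : ι → ℤ, ∀ b, (m b : ℝ) = (M : ℝ) * (c b : ℝ) := by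
    refine ⟨∏ b, ((c b).den : ℤ), Finset.prod_pos fun b _ => by exact_mod_cast (c b).pos,
      fun b => (c b).num * ∏ b' ∈ Finset.univ.erase b, ((c b').den : ℤ), ?_⟩
    intro b
    have h1 : (∏ b', ((c b').den : ℤ)) = ((c b).den : ℤ) *
        ∏ b' ∈ Finset.univ.erase b, ((c b').den : ℤ) :=
      (Finset.mul_prod_erase Finset.univ (fun b' => ((c b').den : ℤ)) (Finset.mem_univ b)).symm
    have h2 : ((c b : ℚ) : ℝ) = ((c b).num : ℝ) / ((c b).den : ℝ) := Rat.cast_def (c b)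
    have h3 : ((c b).den : ℝ) ≠ 0 := by exact_mod_cast (c b).den_nz
    rw [h1, h2]
    push_cast
    field_simp
  have hMR : (0:ℝ) < (M : ℝ) := by exact_mod_cast hM0
  refine ⟨(M : ℝ) / ε / θ a, ?_⟩
  intro r hr x hx
  right
  obtain ⟨φ, hφ⟩ : ∃ φ : ι → ℤ, φ = fun j => if j = a then M else if θ j < 0 then m j else 0 :=
    ⟨_, rfl⟩
  have hφx : ∀ i, (φ i : ℝ) = (M : ℝ) * x a i := by
    intro i
    rw [hφ]
    simp only
    by_cases h1 : i = a
    · rw [if_pos h1, h1, hx.1.1 a, mul_one]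
    · rw [if_neg h1]
      by_cases h2 : θ i < 0
      · rw [if_pos h2, hm, hx.2 i h2]
      · rw [if_neg h2, hx.1.2 a i (Ne.symm h1) (fun h => h2 h.2)]
        simp
  refine ⟨φ, ?_, ?_⟩
  · intro h
    have := congrFun h a
    rw [hφ] at this
    simp only [if_true, Pi.zero_apply] at this
    omega
  · intro j
    have h1 : ∑ i, (φ i : ℝ) * (adjugate (Matrix.of x)) i j =
        (M : ℝ) * ((Matrix.of x) * adjugate (Matrix.of x)) a j := by
      rw [Matrix.mul_apply, Finset.mul_sum]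
      refine Finset.sum_congr rfl fun i _ => ?_
      rw [hφx i, Matrix.of_apply, mul_assoc]
    rw [h1, Matrix.mul_adjugate, chartdet θ x hx.1, one_smul, Matrix.one_apply]
    by_cases haj : a = j
    · subst haj
      rw [if_pos rfl, mul_one, abs_of_nonneg (by positivity)]
      have h2 : (M : ℝ) / ε ≤ r * θ a := by
        rwa [ge_iff_le, div_le_iff₀ ha] at hr
      have h3 := Real.add_one_le_exp (r * θ a)
      have h4 : (M : ℝ) < Real.exp (r * θ a) * ε := by
        rw [← div_lt_iff₀ hε]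
        linarith
      rw [Real.exp_neg, inv_mul_lt_iff₀ (Real.exp_pos _)]
      exact h4
    · rw [if_neg haj, mul_zero, mul_zero, abs_zero]
      exact hε

end Wei
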