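import Pool.Agent.Helper188.Wei.Defs
import Pool.Agent.Helper188.Wei.P_limit
import Pool.Agent.Helper188.Wei.P_ssopen
import Pool.Agent.Helper188.Wei.P_pvcont
import Pool.Agent.Helper188.Wei.P_stC
import Pool.Agent.Helper188.Wei.P_block

/-!
# Divergent but non-obvious orbits on `SL(n,ℝ)/Γ`: definitions
-/

open Matrix Filter Topology

namespace Wei
variable {ι : Type} [Fintype ι] [DecidableEq ι]


theorem j25543_chart_closed (θ : ι → ℝ) : IsClosed (chart θ) := by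
  have h1 : chart θ = (⋂ a, {x : ι → ι → ℝ | x a a = 1}) ∩
      (⋂ a, ⋂ b, {x : ι → ι → ℝ | a ≠ b → ¬ (0 < θ a ∧ θ b < 0) → x a b = 0}) := by
    ext x
    constructor
    · rintro ⟨h1, h2⟩
      exact ⟨Set.mem_iInter.2 h1, Set.mem_iInter.2 fun a => Set.mem_iInter.2 fun b => h2 a b⟩
    · rintro ⟨h1, h2⟩
      exact ⟨fun a => Set.mem_iInter.1 h1 a,
        fun a b => Set.mem_iInter.1 (Set.mem_iInter.1 h2 a) b⟩
  rw [h1]
  refine IsClosed.inter ?_ ?_
  · refine isClosed_iInter fun a => isClosed_eq ?_ continuous_const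
    exact (continuous_apply a).comp (continuous_apply a)
  · refine isClosed_iInter fun a => isClosed_iInter fun b => ?_
    by_cases hab : a ≠ b
    · by_cases hc : ¬ (0 < θ a ∧ θ b < 0)
      · have : {x : ι → ι → ℝ | a ≠ b → ¬ (0 < θ a ∧ θ b < 0) → x a b = 0} =
            {x : ι → ι → ℝ | x a b = 0} := by
          ext x
          exact ⟨fun h => h hab hc, fun h _ _ => h⟩
        rw [this]
        exact isClosed_eq ((continuous_apply b).comp (continuous_apply a)) continuous_const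
      · have : {x : ι → ι → ℝ | a ≠ b → ¬ (0 < θ a ∧ θ b < 0) → x a b = 0} = Set.univ := by
          ext x
          exact ⟨fun _ => trivial, fun _ _ h => absurd h hc⟩
        rw [this]
        exact isClosed_univ
    · have : {x : ι → ι → ℝ | a ≠ b → ¬ (0 < θ a ∧ θ b < 0) → x a b = 0} = Set.univ := by
        ext x
        exact ⟨fun _ => trivial, fun _ h => absurd h hab⟩
      rw [this]
      exact isClosed_univ

theorem j25543_SS_mono (θ : ι → ℝ) (x : ι → ι → ℝ) (r ε ε' : ℝ) (h : SS θ x r ε) (hε : ε ≤ ε') :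
    SS θ x r ε' := by
  rcases h with ⟨v, hv, h⟩ | ⟨v, hv, h⟩
  · exact Or.inl ⟨v, hv, fun i => (h i).trans_le hε⟩
  · exact Or.inr ⟨v, hv, fun i => (h i).trans_le hε⟩

theorem dyn2 (θ : ι → ℝ) (a1 a2 : ι) (h12 : a1 ≠ a2) (h1 : 0 < θ a1) (h2 : 0 < θ a2)
    (f : ℕ → MvPolynomial (ι × ι) ℝ) (hf : ∀ k, ∃ y ∈ chart θ, pv (f k) y ≠ 0) :
    ∃ x ∈ chart θ, (∀ k, pv (f k) x ≠ 0) ∧ ∀ ε > 0, ∃ R : ℝ, ∀ r ≥ R, SS θ x r ε := by
  obtain ⟨x, hx, hxB, hxS⟩ := limit (X := ι → ι → ℝ) (fun x r ε => SS θ x r ε)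
    (fun x r ε ε' h hε => j25543_SS_mono θ x r ε ε' h hε)
    (fun a b ε => ssopen θ a b ε) (chart θ) (j25543_chart_closed θ)
    {z | ∃ (a : ι) (c : ι → ℚ), (a = a1 ∨ a = a2) ∧ z = ZC θ a c}
    {z | ∃ (a : ι) (c : ι → ℚ), (a = a1 ∨ a = a2) ∧ z = ZC θ a c}
    (le_refl _)
    (by
      rintro z ⟨a, c, _, rfl⟩ x hx
      exact hx.1)
    (by
      refine ⟨ZC θ a1 0, ⟨a1, 0, Or.inl rfl, rfl⟩, fun a b => if a = b then 1 else 0, ?_, ?_⟩
      · refine ⟨fun a => by simp, fun a b hab _ => by simp [hab]⟩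
      · intro b hb
        have : a1 ≠ b := by
          rintro rfl
          linarith
        simp [this])
    (by
      rintro z ⟨a, c, ha, rfl⟩ ε hε
      have ha0 : 0 < θ a := by
        rcases ha with rfl | rfl
        · exact h1
        · exact h2
      obtain ⟨R, hR⟩ := stC θ a ha0 c ε hε
      exact ⟨R, fun r hr y hy => hR r hr y hy⟩)
    (fun k => {x | pv (f k) x = 0})
    (fun k => isClosed_eq (pvcont (f k)) continuous_const)
    (by
      rintro z0 ⟨a, c, ha, rfl⟩ x0 hx0 k δ1 hδ1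
      -- the other index
      obtain ⟨a', ha', haa', ha'0⟩ : ∃ a' : ι, (a' = a1 ∨ a' = a2) ∧ a ≠ a' ∧ 0 < θ a' := by
        rcases ha with rfl | rfl
        · exact ⟨a2, Or.inr rfl, h12, h2⟩
        · exact ⟨a1, Or.inl rfl, h12.symm, h1⟩
      obtain ⟨c', x1, hx1, hd1, hout, hin, hgen⟩ := block θ {p | p.1 = a' ∧ θ p.2 < 0}
        (by
          rintro ⟨p, q⟩ ⟨hp, hq⟩
          simp only at hp hq
          exact ⟨by rw [hp]; exact ha'0, hq⟩) (f k) (hf k) x0 hx0.1 δ1 hδ1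
      refine ⟨x1, ⟨hx1, fun b hb => ?_⟩, ZC θ a' (c' a'), ⟨a', c' a', ha', rfl⟩,
        ⟨hx1, fun b hb => hin a' b ⟨rfl, hb⟩⟩, hd1, fun δ2 hδ2 => ?_⟩
      · rw [hout a b (fun h => haa' h.1)]
        exact hx0.2 b hb
      · refine ⟨x1, ⟨hx1, fun b hb => hin a' b ⟨rfl, hb⟩⟩, ZC θ a' (c' a'),
          ⟨a', c' a', ha', rfl⟩, ⟨hx1, fun b hb => hin a' b ⟨rfl, hb⟩⟩, ?_, fun δ3 hδ3 => ?_⟩
        · rw [dist_self]; exact hδ2
        · obtain ⟨x3, hx3, hin3, hd3, hne3⟩ := hgen δ3 hδ3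
          exact ⟨x3, ⟨hx3, fun b hb => hin3 a' b ⟨rfl, hb⟩⟩, hd3, hne3⟩)
  exact ⟨x, hx, hxB, hxS⟩

end Wei
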