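import Pool.Agent.Helper188.Wei.Defs
import Pool.Agent.Helper188.Wei.P_det3

/-!
# Divergent but non-obvious orbits on `SL(n,ℝ)/Γ`: definitions
-/

open Matrix Filter Topology

namespace Wei
variable {ι : Type} [Fintype ι] [DecidableEq ι]


theorem st3c (θ : ι → ℝ) (i z j : ι) (hiz : i ≠ z) (hzj : z ≠ j) (hij : i ≠ j) (hj : 0 < θ j)
    (β γ : ℚ) (ε : ℝ) (hε : 0 < ε) :
    ∃ R : ℝ, ∀ r ≥ R, ∀ x : ℝ, SS θ (mk3 i z j x γ β) r ε := by
  classical
  have hβd : (β.den : ℝ) ≠ 0 := by exact_mod_cast β.den_nz
  have hγd : (γ.den : ℝ) ≠ 0 := by exact_mod_cast γ.den_nz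
  have hβ : (β.num : ℝ) = β.den * (β : ℝ) := by
    rw [Rat.cast_def β]; field_simp
  have hγ : (γ.num : ℝ) = γ.den * (γ : ℝ) := by
    rw [Rat.cast_def γ]; field_simp
  set M : ℝ := (β.den : ℝ) * γ.den with hM
  have hM0 : 0 < M := by
    have h1 : (0 : ℝ) < β.den := by exact_mod_cast β.den_pos
    have h2 : (0 : ℝ) < γ.den := by exact_mod_cast γ.den_pos
    positivity
  refine ⟨M / (ε * θ j), fun r hr x => Or.inr ?_⟩
  set X : ι → ι → ℝ := mk3 i z j x γ β with hX
  let φ : ι → ℤ := fun a => if a = j then (β.den : ℤ) * γ.den else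
    if a = i then γ.num * β.den else if a = z then β.num * γ.den else 0
  have hφ : ∀ a, (φ a : ℝ) = M * X j a := by
    intro a
    have hX1 : X j a = if j = a then (1:ℝ) else if a = i then (γ:ℝ) else if a = z then (β:ℝ) else 0 := by
      simp [hX, mk3, hzj.symm]
    have hφ1 : φ a = if a = j then (β.den : ℤ) * γ.den else
      if a = i then γ.num * β.den else if a = z then β.num * γ.den else 0 := rfl
    rw [hX1, hφ1]
    by_cases h1 : a = j
    · rw [if_pos h1, if_pos h1.symm, hM]
      push_cast
      ring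
    · have h1' : ¬ j = a := fun h => h1 h.symm
      rw [if_neg h1, if_neg h1']
      by_cases h2 : a = i
      · rw [if_pos h2, if_pos h2]
        push_cast
        rw [hγ, hM]
        ring
      · rw [if_neg h2, if_neg h2]
        by_cases h3 : a = z
        · rw [if_pos h3, if_pos h3]
          push_cast
          rw [hβ, hM]
          ring
        · rw [if_neg h3, if_neg h3]
          simp
  refine ⟨φ, ?_, ?_⟩
  · intro h
    have h1 : (φ j : ℝ) = 0 := by rw [h]; simp
    have h2 : (φ j : ℝ) = M := by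
      rw [hφ j]; simp [hX, mk3]
    rw [h2] at h1
    exact hM0.ne' h1
  · intro l
    have hs : ∑ a, (φ a : ℝ) * (adjugate (Matrix.of X)) a l = M * ((1 : Matrix ι ι ℝ) j l) := by
      have h1 : (Matrix.of X) * adjugate (Matrix.of X) = 1 := by
        rw [Matrix.mul_adjugate, hX, det3 i z j hiz hzj hij, one_smul]
      rw [← h1, Matrix.mul_apply, Finset.mul_sum]
      refine Finset.sum_congr rfl fun a _ => ?_
      rw [hφ a, Matrix.of_apply]
      ring
    rw [hs]
    by_cases hl : j = l
    · subst hl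
      rw [Matrix.one_apply_eq, mul_one]
      have ht : M / ε ≤ r * θ j := by
        have := mul_le_mul_of_nonneg_right hr hj.le
        calc M / ε = M / (ε * θ j) * θ j := by field_simp
          _ ≤ _ := this
      have he := Real.add_one_le_exp (r * θ j)
      have h3 : M / ε < Real.exp (r * θ j) := by linarith
      rw [div_lt_iff₀ hε] at h3
      have hpos := Real.exp_pos (r * θ j)
      rw [abs_of_pos (mul_pos (Real.exp_pos _) hM0), Real.exp_neg, inv_mul_lt_iff₀ hpos]
      linarith
    · rw [Matrix.one_apply_ne hl, mul_zero, mul_zero, abs_zero]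
      exact hε

end Wei
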