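import Pool.Agent.Helper188.Wei.Defs

/-!
# Divergent but non-obvious orbits on `SL(n,ℝ)/Γ`: definitions
-/

open Matrix Filter Topology

namespace Wei
variable {ι : Type} [Fintype ι] [DecidableEq ι]


theorem st3v_sum (i z j : ι) (hiz : i ≠ z) (hzj : z ≠ j) (hij : i ≠ j) (x y w : ℝ) (v : ι → ℝ) (a : ι) :
    ∑ b, mk3 i z j x y w a b * v b
      = v a + (if a = z then x * v i else 0) + (if a = j then y * v i + w * v z else 0) := by
  have h : ∀ b, mk3 i z j x y w a b * v b = (if b = a then v b else 0)
      + (if b = i then (if a = z then x * v b else 0) else 0)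
      + (if b = i then (if a = j then y * v b else 0) else 0)
      + (if b = z then (if a = j then w * v b else 0) else 0) := by
    intro b
    unfold mk3
    by_cases h1 : a = b
    · subst h1
      by_cases h2 : a = i
      · subst h2
        simp [hiz, hij]
      · by_cases h3 : a = z
        · subst h3
          simp [h2, hzj]
        · simp [h2, h3]
    · have h1' : ¬ b = a := fun h => h1 h.symm
      by_cases h2 : b = i
      · subst h2
        by_cases h3 : a = z
        · subst h3
          simp [h1, hzj, h1']
        · by_cases h4 : a = j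
          · subst h4
            simp [h1, h3, h1', hiz]
          · simp [h1, h3, h4, h1']
      · by_cases h3 : b = z
        · subst h3
          by_cases h4 : a = j
          · subst h4
            simp [h1, h2, h1']
          · simp [h1, h2, h4, h1']
        · simp [h1, h2, h3, h1']
  simp only [h, Finset.sum_add_distrib, Finset.sum_ite_eq', Finset.mem_univ, if_true]
  by_cases h4 : a = j
  · simp [h4, hzj.symm]
    ring
  · simp [h4]

theorem st3v (θ : ι → ℝ) (i z j : ι) (hiz : i ≠ z) (hzj : z ≠ j) (hij : i ≠ j) (hi : θ i < 0)
    (α τ : ℚ) (ε : ℝ) (hε : 0 < ε) :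
    ∃ R : ℝ, ∀ r ≥ R, ∀ w : ℝ, SS θ (mk3 i z j α (τ + α * w) w) r ε := by
  set M : ℤ := (α.den : ℤ) * (τ.den : ℤ) with hM
  set p : ℤ := α.num * τ.den with hp
  set q : ℤ := τ.num * α.den with hq
  have hα0 : (α.den : ℝ) ≠ 0 := by exact_mod_cast α.den_nz
  have hτ0 : (τ.den : ℝ) ≠ 0 := by exact_mod_cast τ.den_nz
  have hMpos : 0 < M := by
    have h1 : (0:ℤ) < α.den := by exact_mod_cast α.pos
    have h2 : (0:ℤ) < τ.den := by exact_mod_cast τ.pos
    exact mul_pos h1 h2
  have hMr : (0:ℝ) < (M:ℝ) := by exact_mod_cast hMpos
  have hαM : (α : ℝ) * M = p := by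
    rw [hM, hp]
    push_cast
    have : (α : ℝ) = (α.num : ℝ) / (α.den : ℝ) := by exact_mod_cast (Rat.num_div_den α).symm
    rw [this]
    field_simp
  have hτM : (τ : ℝ) * M = q := by
    rw [hM, hq]
    push_cast
    have : (τ : ℝ) = (τ.num : ℝ) / (τ.den : ℝ) := by exact_mod_cast (Rat.num_div_den τ).symm
    rw [this]
    field_simp
  refine ⟨Real.log (ε / (2 * M)) / θ i, fun r hr w => Or.inl ?_⟩
  refine ⟨fun k => if k = i then M else if k = z then -p else if k = j then -q else 0, ?_, ?_⟩
  · intro h
    have := congrFun h i
    simp at this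
    omega
  · intro a
    rw [st3v_sum i z j hiz hzj hij α (τ + α * w) w
      (fun k => ((if k = i then M else if k = z then -p else if k = j then -q else 0 : ℤ) : ℝ)) a]
    by_cases h1 : a = i
    · subst h1
      simp only [if_true, hiz, if_false, hij, add_zero]
      rw [abs_of_pos (mul_pos (Real.exp_pos _) hMr)]
      have h2 : r * θ a ≤ Real.log (ε / (2 * M)) := by
        rw [ge_iff_le, div_le_iff_of_neg hi] at hr
        exact hr
      have h3 : Real.exp (r * θ a) ≤ ε / (2 * M) := by
        rw [← Real.exp_log (show 0 < ε / (2 * M) by positivity)]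
        exact Real.exp_le_exp.mpr h2
      calc Real.exp (r * θ a) * M ≤ ε / (2 * M) * M := by gcongr
        _ = ε / 2 := by field_simp
        _ < ε := by linarith
    · by_cases h2 : a = z
      · subst h2
        have : ((-p : ℤ) : ℝ) + (α : ℝ) * M = 0 := by
          rw [hαM]; push_cast; ring
        simp only [h1, if_false, if_true, hzj, add_zero]
        rw [this, mul_zero, abs_zero]
        exact hε
      · by_cases h3 : a = j
        · subst h3
          have : ((-q : ℤ) : ℝ) + ((τ + α * w) * M + w * ((-p : ℤ) : ℝ)) = 0 := by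
            push_cast
            rw [← hαM, ← hτM]
            ring
          have hzi : z ≠ i := fun h => hiz h.symm
          simp only [h1, h2, hzi, if_false, if_true, add_zero]
          rw [this, mul_zero, abs_zero]
          exact hε
        · simp only [h1, h2, h3, if_false, add_zero, Int.cast_zero, mul_zero, abs_zero]
          exact hε

end Wei
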