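import Pool.Agent.Helper188.Wei.Defs

/-!
# Divergent but non-obvious orbits on `SL(n,ℝ)/Γ`: definitions
-/

open Matrix Filter Topology

namespace Wei
variable {ι : Type} [Fintype ι] [DecidableEq ι]


/-- A nonzero real polynomial has rational non-roots near every point. -/
theorem ratavoid (p : Polynomial ℝ) (hp : p ≠ 0) (x δ : ℝ) (hδ : 0 < δ) :
    ∃ q : ℚ, |x - q| < δ ∧ p.eval (q : ℝ) ≠ 0 := by
  have hfin : ((p.roots.toFinset : Finset ℝ) : Set ℝ).Finite := Finset.finite_toSet _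
  have hne : (Set.Ioo (x - δ) (x + δ) \ ((p.roots.toFinset : Finset ℝ) : Set ℝ)).Nonempty :=
    ((Set.Ioo_infinite (by linarith)).diff hfin).nonempty
  have hopen : IsOpen (Set.Ioo (x - δ) (x + δ) \ ((p.roots.toFinset : Finset ℝ) : Set ℝ)) :=
    isOpen_Ioo.sdiff hfin.isClosed
  obtain ⟨q, hq⟩ := (Rat.denseRange_cast (𝕜 := ℝ)).exists_mem_open hopen hne
  refine ⟨q, ?_, fun h0 => hq.2 ?_⟩
  · rw [abs_lt]
    constructor <;> linarith [hq.1.1, hq.1.2]
  · simp only [Finset.mem_coe, Multiset.mem_toFinset]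
    exact (Polynomial.mem_roots hp).2 h0

end Wei
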