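import Pool.Agent.Helper188.Wei.Defs
import Pool.Agent.Helper188.Wei.P_pvpoly
import Pool.Agent.Helper188.Wei.P_ratavoid

/-!
# Divergent but non-obvious orbits on `SL(n,ℝ)/Γ`: definitions
-/

open Matrix Filter Topology

namespace Wei
variable {ι : Type} [Fintype ι] [DecidableEq ι]


theorem step3_poly (i z j : ι) (f : MvPolynomial (ι × ι) ℝ) (qx qy qw : Polynomial ℝ) :
    ∃ p : Polynomial ℝ, ∀ t : ℝ,
      pv f (mk3 i z j (qx.eval t) (qy.eval t) (qw.eval t)) = p.eval t := by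
  obtain ⟨p, hp⟩ := pvpoly f (fun a b => if a = b then 1 else if a = z ∧ b = i then qx
    else if a = j ∧ b = i then qy else if a = j ∧ b = z then qw else 0)
  refine ⟨p, fun t => ?_⟩
  rw [← hp t]
  congr 1
  funext a b
  unfold mk3
  split_ifs <;> simp

theorem step3_near (i z j : ι) (f : MvPolynomial (ι × ι) ℝ) (qx qy qw : Polynomial ℝ) (t0 : ℝ)
    (h0 : pv f (mk3 i z j (qx.eval t0) (qy.eval t0) (qw.eval t0)) ≠ 0) (x δ : ℝ) (hδ : 0 < δ) :
    ∃ q : ℚ, |x - q| < δ ∧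
      pv f (mk3 i z j (qx.eval (q : ℝ)) (qy.eval (q : ℝ)) (qw.eval (q : ℝ))) ≠ 0 := by
  obtain ⟨p, hp⟩ := step3_poly i z j f qx qy qw
  have hp0 : p ≠ 0 := by
    rintro rfl
    rw [hp t0, Polynomial.eval_zero] at h0
    exact h0 rfl
  obtain ⟨q, hq1, hq2⟩ := ratavoid p hp0 x δ hδ
  exact ⟨q, hq1, by rw [hp]; exact hq2⟩

theorem step3 (i z j : ι) (hiz : i ≠ z) (hzj : z ≠ j) (hij : i ≠ j)
    (f : MvPolynomial (ι × ι) ℝ) (hf : ∃ x y w : ℝ, pv f (mk3 i z j x y w) ≠ 0)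
    (α τ : ℚ) (w : ℝ) (δ1 : ℝ) (hδ1 : 0 < δ1) :
    ∃ β : ℚ, |w - β| < δ1 ∧ ∀ δ2 > 0, ∃ α' : ℚ, |(α : ℝ) - α'| < δ2 ∧
      ∀ δ3 > 0, ∃ w' : ℝ, |(β : ℝ) - w'| < δ3 ∧
        pv f (mk3 i z j α' ((τ + α * β - α' * β : ℚ) + α' * w') w') ≠ 0 := by
  obtain ⟨x, y, c1, hxy⟩ := hf
  -- step 1
  obtain ⟨a1, b1, h1⟩ : ∃ a1 b1 : ℝ,
      pv f (mk3 i z j a1 (τ + b1 * (α - a1) + c1 * a1) c1) ≠ 0 := by
    obtain ⟨p, hp⟩ := step3_poly i z j f Polynomial.X (Polynomial.C y) (Polynomial.C c1)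
    simp only [Polynomial.eval_X, Polynomial.eval_C] at hp
    have hp0 : p ≠ 0 := by
      rintro rfl
      rw [hp x, Polynomial.eval_zero] at hxy
      exact hxy rfl
    obtain ⟨q, -, hq2⟩ := ratavoid (p * (Polynomial.X - Polynomial.C (α : ℝ)))
      (mul_ne_zero hp0 (Polynomial.X_sub_C_ne_zero _)) x 1 one_pos
    rw [Polynomial.eval_mul, Polynomial.eval_sub, Polynomial.eval_X, Polynomial.eval_C] at hq2
    have hq3 := left_ne_zero_of_mul hq2
    have hq4 := right_ne_zero_of_mul hq2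
    have hq5 : (α : ℝ) - q ≠ 0 := by
      intro h
      apply hq4
      linarith
    refine ⟨q, (y - τ - c1 * q) / (α - q), ?_⟩
    have e : (τ : ℝ) + (y - τ - c1 * q) / (α - q) * (α - q) + c1 * q = y := by
      rw [div_mul_cancel₀ _ hq5]
      ring
    rw [e, hp]
    exact hq3
  -- step 2
  obtain ⟨β, hβ1, hβ2⟩ := step3_near i z j f (Polynomial.C a1)
    (Polynomial.C (τ : ℝ) + Polynomial.X * Polynomial.C ((α : ℝ) - a1) + Polynomial.C (c1 * a1))
    (Polynomial.C c1) b1 (by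
      simp only [Polynomial.eval_add, Polynomial.eval_mul, Polynomial.eval_X, Polynomial.eval_C]
      exact h1) w δ1 hδ1
  simp only [Polynomial.eval_add, Polynomial.eval_mul, Polynomial.eval_X,
    Polynomial.eval_C] at hβ2
  refine ⟨β, hβ1, fun δ2 hδ2 => ?_⟩
  -- step 3
  obtain ⟨α', hα1, hα2⟩ := step3_near i z j f Polynomial.X
    (Polynomial.C (τ : ℝ) + Polynomial.C (β : ℝ) * (Polynomial.C (α : ℝ) - Polynomial.X) +
      Polynomial.C c1 * Polynomial.X)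
    (Polynomial.C c1) a1 (by
      simp only [Polynomial.eval_add, Polynomial.eval_sub, Polynomial.eval_mul,
        Polynomial.eval_X, Polynomial.eval_C]
      exact hβ2) α δ2 hδ2
  simp only [Polynomial.eval_add, Polynomial.eval_sub, Polynomial.eval_mul, Polynomial.eval_X,
    Polynomial.eval_C] at hα2
  refine ⟨α', hα1, fun δ3 hδ3 => ?_⟩
  -- step 4
  obtain ⟨w', hw1, hw2⟩ := step3_near i z j f (Polynomial.C (α' : ℝ))
    (Polynomial.C ((τ : ℝ) + β * (α - α')) + Polynomial.X * Polynomial.C (α' : ℝ))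
    Polynomial.X c1 (by
      simp only [Polynomial.eval_add, Polynomial.eval_mul, Polynomial.eval_X, Polynomial.eval_C]
      exact hα2) β δ3 hδ3
  simp only [Polynomial.eval_add, Polynomial.eval_mul, Polynomial.eval_X,
    Polynomial.eval_C] at hw2
  refine ⟨(w' : ℝ), hw1, ?_⟩
  have e : ((τ + α * β - α' * β : ℚ) : ℝ) + (α' : ℝ) * (w' : ℝ) =
      (τ : ℝ) + β * (α - α') + w' * α' := by
    push_cast
    ring
  rw [e]
  exact hw2

end Wei
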