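import Pool.Agent.Helper188.Wei.Defs
import Pool.Agent.Helper188.Wei.P_limit
import Pool.Agent.Helper188.Wei.P_ssopen
import Pool.Agent.Helper188.Wei.P_pvcont
import Pool.Agent.Helper188.Wei.P_st3v
import Pool.Agent.Helper188.Wei.P_st3c
import Pool.Agent.Helper188.Wei.P_step3

/-!
# Divergent but non-obvious orbits on `SL(n,ℝ)/Γ`: definitions
-/

open Matrix Filter Topology

namespace Wei
variable {ι : Type} [Fintype ι] [DecidableEq ι]


theorem dyn3 (θ : ι → ℝ) (i z j : ι) (hiz : i ≠ z) (hzj : z ≠ j) (hij : i ≠ j)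
    (hi : θ i < 0) (hj : 0 < θ j) (f : ℕ → MvPolynomial (ι × ι) ℝ)
    (hf : ∀ k, ∃ x y w : ℝ, pv (f k) (mk3 i z j x y w) ≠ 0) :
    ∃ x y w : ℝ, (∀ k, pv (f k) (mk3 i z j x y w) ≠ 0) ∧
      ∀ ε > 0, ∃ R : ℝ, ∀ r ≥ R, SS θ (mk3 i z j x y w) r ε := by
  classical
  let Z : Set (Set (ℝ × ℝ × ℝ)) :=
    {s | ∃ α τ : ℚ, s = {p : ℝ × ℝ × ℝ | p.1 = α ∧ p.2.1 = τ + α * p.2.2}}
  let Z2 : Set (Set (ℝ × ℝ × ℝ)) :=
    {s | ∃ β γ : ℚ, s = {p : ℝ × ℝ × ℝ | p.2.1 = γ ∧ p.2.2 = β}}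
  let m : ℝ × ℝ × ℝ → ι → ι → ℝ := fun p => mk3 i z j p.1 p.2.1 p.2.2
  have hm : Continuous m := by
    refine continuous_pi fun a => continuous_pi fun b => ?_
    simp only [m, mk3]
    split_ifs <;> fun_prop
  have scale : ∀ (a d t δ : ℝ), |d| < δ / (1 + |a|) → |t| ≤ |a| * |d| ∨ |t| ≤ |d| → |t| < δ := by
    intro a d t δ h1 h2
    have h3 : 0 < 1 + |a| := by positivity
    rw [lt_div_iff₀ h3] at h1
    rcases h2 with h2 | h2
    · nlinarith [abs_nonneg a, abs_nonneg d]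
    · nlinarith [abs_nonneg a, abs_nonneg d]
  obtain ⟨x, -, hx1, hx2⟩ := limit (X := ℝ × ℝ × ℝ) (fun p r ε => SS θ (m p) r ε)
    (by
      rintro p r ε ε' (⟨v, hv, h⟩ | ⟨v, hv, h⟩) hε
      · exact Or.inl ⟨v, hv, fun i => (h i).trans_le hε⟩
      · exact Or.inr ⟨v, hv, fun i => (h i).trans_le hε⟩)
    (fun a b ε => (ssopen θ a b ε).preimage hm)
    Set.univ isClosed_univ Z (Z ∪ Z2) Set.subset_union_left (fun _ _ => Set.subset_univ _)
    ⟨_, ⟨0, 0, rfl⟩, ⟨(0, 0, 0), by simp⟩⟩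
    (by
      rintro s (⟨α, τ, rfl⟩ | ⟨β, γ, rfl⟩) ε hε
      · obtain ⟨R, hR⟩ := st3v θ i z j hiz hzj hij hi α τ ε hε
        refine ⟨R, fun r hr y hy => ?_⟩
        have h1 : m y = mk3 i z j α (τ + α * y.2.2) y.2.2 := by
          simp only [m]
          rw [hy.2, hy.1]
        rw [h1]
        exact hR r hr _
      · obtain ⟨R, hR⟩ := st3c θ i z j hiz hzj hij hj β γ ε hε
        refine ⟨R, fun r hr y hy => ?_⟩
        have h1 : m y = mk3 i z j y.1 γ β := by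
          simp only [m]
          rw [hy.2, hy.1]
        rw [h1]
        exact hR r hr _)
    (fun k => {p | pv (f k) (m p) = 0})
    (fun k => isClosed_eq ((pvcont (f k)).comp hm) continuous_const)
    (by
      rintro _ ⟨α, τ, rfl⟩ x0 hx0 k δ1 hδ1
      obtain ⟨hx01, hx02⟩ := hx0
      obtain ⟨β, hβ, h2⟩ := step3 i z j hiz hzj hij (f k) (hf k) α τ x0.2.2
        (δ1 / (1 + |(α : ℝ)|)) (by positivity)
      refine ⟨((α : ℝ), (τ : ℝ) + α * β, (β : ℝ)), ⟨rfl, rfl⟩,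
        {p : ℝ × ℝ × ℝ | p.2.1 = ((τ + α * β : ℚ) : ℝ) ∧ p.2.2 = β},
        Or.inr ⟨β, τ + α * β, rfl⟩, ⟨by push_cast; rfl, rfl⟩, ?_, ?_⟩
      · rw [Prod.dist_eq, Prod.dist_eq, hx01, hx02, dist_self, Real.dist_eq, Real.dist_eq]
        refine max_lt hδ1 (max_lt (scale _ _ _ _ hβ (Or.inl ?_)) (scale _ _ _ _ hβ (Or.inr le_rfl)))
        rw [← abs_mul]
        apply le_of_eq
        congr 1
        show (τ : ℝ) + α * x0.2.2 - ((τ : ℝ) + α * β) = α * (x0.2.2 - β)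
        ring
      · intro δ2 hδ2
        obtain ⟨α', hα', h3⟩ := h2 δ2 hδ2
        refine ⟨((α' : ℝ), (τ : ℝ) + α * β, (β : ℝ)), ⟨by push_cast; rfl, rfl⟩,
          {p : ℝ × ℝ × ℝ | p.1 = α' ∧ p.2.1 = ((τ + α * β - α' * β : ℚ) : ℝ) + α' * p.2.2},
          ⟨α', τ + α * β - α' * β, rfl⟩, ⟨rfl, ?_⟩, ?_, ?_⟩
        · show (τ : ℝ) + α * β = ((τ + α * β - α' * β : ℚ) : ℝ) + α' * β
          push_cast
          ring
        · rw [Prod.dist_eq]
          refine max_lt hα' ?_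
          rw [dist_self]
          exact hδ2
        · intro δ3 hδ3
          obtain ⟨w', hw', h4⟩ := h3 (δ3 / (1 + |(α' : ℝ)|)) (by positivity)
          refine ⟨((α' : ℝ), ((τ + α * β - α' * β : ℚ) : ℝ) + α' * w', w'), ⟨rfl, rfl⟩, ?_, h4⟩
          rw [Prod.dist_eq, Prod.dist_eq, dist_self, Real.dist_eq, Real.dist_eq]
          refine max_lt hδ3 (max_lt (scale _ _ _ _ hw' (Or.inl ?_))
            (scale _ _ _ _ hw' (Or.inr le_rfl)))
          rw [← abs_mul]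
          apply le_of_eq
          congr 1
          show (τ : ℝ) + α * β - (((τ + α * β - α' * β : ℚ) : ℝ) + α' * w') = α' * (β - w')
          push_cast
          ring)
  exact ⟨x.1, x.2.1, x.2.2, fun k => hx1 k, hx2⟩

end Wei
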