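import Pool.Agent.Helper188.Wei.Defs
import Pool.Agent.Helper188.Wei.P_mink

/-!
# Divergent but non-obvious orbits on `SL(n,ℝ)/Γ`: definitions
-/

open Matrix Filter Topology

namespace Wei
variable {ι : Type} [Fintype ι] [DecidableEq ι]


/-- Transference. -/
theorem transf (ε : ℝ) (hε : 0 < ε) :
    ∃ δ > 0, ∀ (h : Matrix ι ι ℝ), h.det = 1 → ∀ φ : ι → ℤ, φ ≠ 0 →
      (∀ j, |∑ i, (φ i : ℝ) * (adjugate h) i j| < δ) →
      ∃ v : ι → ℤ, v ≠ 0 ∧ ∀ i, |∑ j, h i j * (v j : ℝ)| < ε := by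
  set n : ℕ := Fintype.card ι with hn
  rcases isEmpty_or_nonempty ι with hι | hι
  · refine ⟨1, one_pos, ?_⟩
    intro h _ φ hφ
    exact absurd (Subsingleton.elim φ 0) hφ
  have hn1 : 1 ≤ n := Fintype.card_pos
  have hnR : (1:ℝ) ≤ n := by exact_mod_cast hn1
  set η : ℝ := ε / n with hη
  have hη0 : 0 < η := by positivity
  have hnη : n * η = ε := by
    rw [hη]
    field_simp
  refine ⟨η ^ (n - 1), pow_pos hη0 _, ?_⟩
  intro h hdet φ hφ hsmall
  set ψ : ι → ℝ := fun j => ∑ i, (φ i : ℝ) * (adjugate h) i j with hψ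
  have hψv : ψ = (fun i => (φ i : ℝ)) ᵥ* adjugate h := rfl
  have hψh : ψ ᵥ* h = fun i => (φ i : ℝ) := by
    rw [hψv, vecMul_vecMul, adjugate_mul, hdet, one_smul, vecMul_one]
  have hψ0 : ψ ≠ 0 := by
    intro h0
    apply hφ
    funext i
    have := congrFun hψh i
    rw [h0, zero_vecMul, Pi.zero_apply] at this
    show φ i = 0
    exact_mod_cast this.symm
  obtain ⟨i0, hi0⟩ := Finite.exists_max (fun i => |ψ i|)
  have hpos : 0 < |ψ i0| := by
    obtain ⟨i, hi⟩ := Function.ne_iff.mp hψ0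
    exact lt_of_lt_of_le (abs_pos.mpr hi) (hi0 i)
  have hdet' : (h.updateRow i0 (fun k => (φ k : ℝ))).det = ψ i0 := by
    rw [← cramer_transpose_apply, cramer_eq_adjugate_mulVec, ← adjugate_transpose,
      mulVec_transpose, hψv]
  have hcard : (Finset.univ \ {i0} : Finset ι).card = n - 1 := by
    rw [Finset.card_sdiff_of_subset (Finset.subset_univ _), Finset.card_univ,
      Finset.card_singleton]
  obtain ⟨v, hv0, hv⟩ := mink (h.updateRow i0 (fun k => (φ k : ℝ)))
    (by rw [hdet']; exact abs_pos.mp hpos)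
    (Function.update (fun _ => η) i0 1) (by
      intro i
      by_cases hi : i = i0
      · subst hi
        simp
      · simp [hi, hη0]) (by
      rw [hdet', Finset.prod_update_of_mem (Finset.mem_univ i0), one_mul, Finset.prod_const,
        hcard]
      exact hsmall i0)
  refine ⟨v, hv0, ?_⟩
  have hi0v : ∑ j, (φ j : ℝ) * (v j : ℝ) = 0 := by
    have h1 := hv i0
    rw [Function.update_self] at h1
    simp only [updateRow_self] at h1
    have h2 : ∑ j, (φ j : ℝ) * (v j : ℝ) = ((∑ j, φ j * v j : ℤ) : ℝ) := by push_cast; rfl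
    rw [h2] at h1 ⊢
    have h3 : |(∑ j, φ j * v j : ℤ)| < 1 := by exact_mod_cast h1
    rw [Int.abs_lt_one_iff.mp h3, Int.cast_zero]
  have hne : ∀ i, i ≠ i0 → |∑ j, h i j * (v j : ℝ)| < η := by
    intro i hi
    have h1 := hv i
    rw [Function.update_of_ne hi] at h1
    simpa only [updateRow_ne hi] using h1
  have hzero : ∑ i, ψ i * (∑ j, h i j * (v j : ℝ)) = 0 := by
    have h1 : ∑ i, ψ i * (∑ j, h i j * (v j : ℝ)) = ψ ⬝ᵥ (h *ᵥ fun j => (v j : ℝ)) := rfl
    rw [h1, dotProduct_mulVec, hψh]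
    exact hi0v
  have hsplit : ψ i0 * (∑ j, h i0 j * (v j : ℝ)) =
      - ∑ i ∈ Finset.univ \ {i0}, ψ i * (∑ j, h i j * (v j : ℝ)) := by
    have h1 := Finset.sum_sdiff (Finset.subset_univ ({i0} : Finset ι))
      (f := fun i => ψ i * (∑ j, h i j * (v j : ℝ)))
    rw [Finset.sum_singleton, hzero] at h1
    linarith
  have hbound : |ψ i0| * |∑ j, h i0 j * (v j : ℝ)| ≤ |ψ i0| * ((n - 1) * η) := by
    rw [← abs_mul, hsplit, abs_neg]
    calc |∑ i ∈ Finset.univ \ {i0}, ψ i * (∑ j, h i j * (v j : ℝ))|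
        ≤ ∑ i ∈ Finset.univ \ {i0}, |ψ i * (∑ j, h i j * (v j : ℝ))| :=
          Finset.abs_sum_le_sum_abs _ _
      _ ≤ ∑ i ∈ Finset.univ \ {i0}, |ψ i0| * η := by
          refine Finset.sum_le_sum fun i hi => ?_
          have hi' : i ≠ i0 := by
            rw [Finset.mem_sdiff, Finset.mem_singleton] at hi
            exact hi.2
          rw [abs_mul]
          exact mul_le_mul (hi0 i) (hne i hi').le (abs_nonneg _) (abs_nonneg _)
      _ = |ψ i0| * ((n - 1) * η) := by
          rw [Finset.sum_const, hcard, nsmul_eq_mul, Nat.cast_sub hn1, Nat.cast_one]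
          ring
  intro i
  by_cases hi : i = i0
  · subst hi
    have h1 := le_of_mul_le_mul_left hbound hpos
    calc |∑ j, h i j * (v j : ℝ)| ≤ (n - 1) * η := h1
      _ < n * η := by linarith
      _ = ε := hnη
  · calc |∑ j, h i j * (v j : ℝ)| < η := hne i hi
      _ ≤ n * η := by nlinarith
      _ = ε := hnη

end Wei
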