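import Pool.Agent.Helper188.Wei.Defs
import Pool.Agent.Helper188.Wei.P_transf

/-!
# Divergent but non-obvious orbits on `SL(n,ℝ)/Γ`: definitions
-/

open Matrix Filter Topology

namespace Wei
variable {ι : Type} [Fintype ι] [DecidableEq ι]


theorem ssvs (θ : ι → ℝ) (hθ : ∑ i, θ i = 0) (x : ι → ι → ℝ) (hx : (Matrix.of x).det = 1)
    (h : ∀ ε > 0, ∃ R : ℝ, ∀ r ≥ R, SS θ x r ε) :
    ∀ ε > 0, ∃ R : ℝ, ∀ r ≥ R, VS θ x r ε := by
  intro ε hε
  obtain ⟨δ, hδ, htr⟩ := transf (ι := ι) ε hε
  obtain ⟨R, hR⟩ := h (min ε δ) (lt_min hε hδ)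
  refine ⟨R, fun r hr => ?_⟩
  rcases hR r hr with ⟨v, hv, hvi⟩ | ⟨φ, hφ, hφj⟩
  · exact ⟨v, hv, fun i => (hvi i).trans_le (min_le_left _ _)⟩
  · have hprod : ∏ i, Real.exp (r * θ i) = 1 := by
      rw [← Real.exp_sum, ← Finset.mul_sum, hθ, mul_zero, Real.exp_zero]
    have hdet : (Matrix.diagonal (fun i => Real.exp (r * θ i)) * Matrix.of x).det = 1 := by
      rw [Matrix.det_mul, Matrix.det_diagonal, hprod, hx, one_mul]
    have hadj : Matrix.adjugate (Matrix.diagonal (fun i : ι => Real.exp (r * θ i))) =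
        Matrix.diagonal (fun i => Real.exp (-(r * θ i))) := by
      rw [Matrix.adjugate_diagonal]
      congr 1
      funext i
      rw [← Real.exp_sum, ← Finset.mul_sum]
      congr 1
      have := Finset.add_sum_erase Finset.univ θ (Finset.mem_univ i)
      rw [hθ] at this
      have h2 : ∑ j ∈ Finset.univ.erase i, θ j = - θ i := by linarith
      rw [h2]
      ring
    obtain ⟨v, hv, hvi⟩ := htr _ hdet φ hφ (by
      intro j
      rw [Matrix.adjugate_mul_distrib, hadj]
      have h1 : ∑ i, (φ i : ℝ) * ((Matrix.of x).adjugate *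
          Matrix.diagonal (fun i => Real.exp (-(r * θ i)))) i j =
          Real.exp (-(r * θ j)) * ∑ i, (φ i : ℝ) * (adjugate (Matrix.of x)) i j := by
        rw [Finset.mul_sum]
        apply Finset.sum_congr rfl
        intro i _
        rw [Matrix.mul_diagonal]
        ring
      rw [h1]
      exact (hφj j).trans_le (min_le_right _ _))
    refine ⟨v, hv, fun i => ?_⟩
    have h2 : ∑ j, (Matrix.diagonal (fun i => Real.exp (r * θ i)) * Matrix.of x) i j * (v j : ℝ) =
        Real.exp (r * θ i) * ∑ j, x i j * (v j : ℝ) := by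
      rw [Finset.mul_sum]
      apply Finset.sum_congr rfl
      intro j _
      rw [Matrix.diagonal_mul, Matrix.of_apply]
      ring
    rw [← h2]
    exact hvi i

end Wei
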