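import Pool.Agent.Helper188.Wei.Defs

/-!
# Divergent but non-obvious orbits on `SL(n,ℝ)/Γ`: definitions
-/

open Matrix Filter Topology

namespace Wei
variable {ι : Type} [Fintype ι] [DecidableEq ι]


theorem vsneg (θ : ι → ℝ) (x : ι → ι → ℝ) (j : ι) (hj : 0 < θ j)
    (hcol : ∀ a, x a j = if a = j then 1 else 0) :
    ∀ ε > 0, ∃ R : ℝ, ∀ r ≤ -R, VS θ x r ε := by
  intro ε hε
  refine ⟨(|Real.log ε| + 1) / θ j, fun r hr => ⟨Pi.single j 1, by simp, fun i => ?_⟩⟩
  have hs : ∑ k, x i k * (((Pi.single j 1 : ι → ℤ) k : ℤ) : ℝ) = x i j := by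
    rw [Finset.sum_eq_single j]
    · simp
    · intro k _ hk
      simp [Pi.single_eq_of_ne hk]
    · intro h
      exact absurd (Finset.mem_univ j) h
  rw [hs, hcol]
  by_cases hij : i = j
  · subst hij
    rw [if_pos rfl, mul_one, abs_of_pos (Real.exp_pos _), ← Real.lt_log_iff_exp_lt hε]
    have h1 : r * θ i ≤ -((|Real.log ε| + 1) / θ i) * θ i :=
      mul_le_mul_of_nonneg_right hr hj.le
    have h2 : -((|Real.log ε| + 1) / θ i) * θ i = -(|Real.log ε| + 1) := by
      field_simp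
    have h3 := neg_abs_le (Real.log ε)
    linarith
  · rw [if_neg hij, mul_zero, abs_zero]
    exact hε

end Wei
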