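import Pool.Agent.Helper188.Wei.Defs
import Pool.Agent.Helper188.Wei.P_chartdet
import Pool.Agent.Helper188.Wei.P_dyn1
import Pool.Agent.Helper188.Wei.P_dyn2
import Pool.Agent.Helper188.Wei.P_det3
import Pool.Agent.Helper188.Wei.P_dyn3
import Pool.Agent.Helper188.Wei.P_ssvs
import Pool.Agent.Helper188.Wei.P_vsneg
import Pool.Agent.Helper188.Wei.P_choice

/-!
# Divergent but non-obvious orbits on `SL(n,ℝ)/Γ`: definitions
-/

open Matrix Filter Topology

namespace Wei
variable {ι : Type} [Fintype ι] [DecidableEq ι]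


theorem dyn_comb (θ : TZ ι) (hθ0 : θ ≠ 0) (x : ι → ι → ℝ) (hx : (Matrix.of x).det = 1)
    (hcol : ∀ j, 0 < (θ : ι → ℝ) j → ∀ a, x a j = if a = j then 1 else 0)
    (h : ∀ ε > 0, ∃ R : ℝ, ∀ r ≥ R, SS (θ : ι → ℝ) x r ε) :
    ∀ ε > 0, ∃ R : ℝ, ∀ r : ℝ, R ≤ |r| → VS (θ : ι → ℝ) x r ε := by
  intro ε hε
  have hex : ∃ j ∈ (Finset.univ : Finset ι), 0 < (θ : ι → ℝ) j := by
    apply Finset.exists_pos_of_sum_zero_of_exists_nonzero
    · exact θ.2
    · by_contra hc
      push Not at hc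
      apply hθ0
      apply Subtype.ext
      funext l
      exact hc l (Finset.mem_univ l)
  obtain ⟨j, -, hj⟩ := hex
  obtain ⟨R1, hR1⟩ := ssvs (θ : ι → ℝ) θ.2 x hx h ε hε
  obtain ⟨R2, hR2⟩ := vsneg (θ : ι → ℝ) x j hj (hcol j hj) ε hε
  refine ⟨max R1 R2, fun r hr => ?_⟩
  rcases le_total 0 r with h0 | h0
  · rw [abs_of_nonneg h0] at hr
    exact hR1 r ((le_max_left _ _).trans hr)
  · rw [abs_of_nonpos h0] at hr
    have := (le_max_right R1 R2).trans hr
    exact hR2 r (by linarith)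

/-- The dynamical construction, all cases. -/
theorem dyn (𝔡 : Submodule ℝ (TZ ι)) (h0 : 𝔡 ≠ ⊥)
    (hfin : Module.finrank ℝ 𝔡 + 2 ≤ Fintype.card ι) :
    ∃ θ ∈ 𝔡, θ ≠ 0 ∧ ∀ f : ℕ → MvPolynomial (ι × ι) ℝ,
      (∀ k, ∃ y ∈ chart (θ : ι → ℝ), pv (f k) y ≠ 0) →
      ∃ (x : ι → ι → ℝ) (L : Finset ι), (Matrix.of x).det = 1 ∧ (∀ k, pv (f k) x ≠ 0) ∧
        (∀ l ∈ L, ∀ b, x l b = if l = b then 1 else 0) ∧
        (∀ l ∈ L, ∀ a, x a l = if a = l then 1 else 0) ∧
        (∀ l ∈ L, (θ : ι → ℝ) l = 0) ∧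
        (∀ d ∈ 𝔡, (∀ l ∈ L, (d : ι → ℝ) l = 0) → ∃ r : ℝ, d = r • θ) ∧
        ∀ ε > 0, ∃ R : ℝ, ∀ r : ℝ, R ≤ |r| → VS (θ : ι → ℝ) x r ε := by
  classical
  obtain ⟨θ, hθm, hθ0, hcase⟩ := choice 𝔡 h0 hfin
  refine ⟨θ, hθm, hθ0, fun f hf => ?_⟩
  rcases hcase with ⟨hneg, hspan⟩ | ⟨i, z, j, hiz, hzj, hij, hi, hj, hl, hspan⟩
  · have hx : ∃ x ∈ chart (θ : ι → ℝ), (∀ k, pv (f k) x ≠ 0) ∧
        ∀ ε > 0, ∃ R : ℝ, ∀ r ≥ R, SS (θ : ι → ℝ) x r ε := by
      rcases hneg with ⟨i1, i2, h12, h1, h2⟩ | ⟨a1, a2, h12, h1, h2⟩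
      · exact dyn1 _ i1 i2 h12 h1 h2 f hf
      · exact dyn2 _ a1 a2 h12 h1 h2 f hf
    obtain ⟨x, hxc, hxf, hSS⟩ := hx
    have hdet := chartdet _ x hxc
    refine ⟨x, Finset.univ.filter (fun l => (θ : ι → ℝ) l = 0), hdet, hxf, ?_, ?_, ?_, ?_, ?_⟩
    · intro l hlL b
      have hl0 : (θ : ι → ℝ) l = 0 := (Finset.mem_filter.1 hlL).2
      by_cases hlb : l = b
      · rw [if_pos hlb, ← hlb]
        exact hxc.1 l
      · rw [if_neg hlb]
        apply hxc.2 l b hlb
        rintro ⟨h3, -⟩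
        rw [hl0] at h3
        exact lt_irrefl _ h3
    · intro l hlL a
      have hl0 : (θ : ι → ℝ) l = 0 := (Finset.mem_filter.1 hlL).2
      by_cases hlb : a = l
      · rw [if_pos hlb, hlb]
        exact hxc.1 l
      · rw [if_neg hlb]
        apply hxc.2 a l hlb
        rintro ⟨-, h3⟩
        rw [hl0] at h3
        exact lt_irrefl _ h3
    · intro l hlL
      exact (Finset.mem_filter.1 hlL).2
    · intro d hd hdl
      apply hspan d hd
      intro l hl0
      exact hdl l (Finset.mem_filter.2 ⟨Finset.mem_univ l, hl0⟩)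
    · apply dyn_comb θ hθ0 x hdet _ hSS
      intro j hj a
      by_cases haj : a = j
      · rw [if_pos haj, haj]
        exact hxc.1 j
      · rw [if_neg haj]
        apply hxc.2 a j haj
        rintro ⟨-, h3⟩
        linarith
  · have hf' : ∀ k, ∃ x y w : ℝ, pv (f k) (mk3 i z j x y w) ≠ 0 := by
      intro k
      obtain ⟨y, hy, hfy⟩ := hf k
      refine ⟨0, y j i, 0, ?_⟩
      have e : mk3 i z j 0 (y j i) 0 = y := by
        funext a b
        unfold mk3
        by_cases hab : a = b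
        · rw [if_pos hab, hab]
          exact (hy.1 b).symm
        rw [if_neg hab]
        have hz0 : (θ : ι → ℝ) z = 0 := hl z (Ne.symm hiz) hzj
        by_cases h1 : a = z ∧ b = i
        · rw [if_pos h1]
          symm
          apply hy.2 a b hab
          rintro ⟨h3, -⟩
          rw [h1.1, hz0] at h3
          exact lt_irrefl _ h3
        rw [if_neg h1]
        by_cases h2 : a = j ∧ b = i
        · rw [if_pos h2, h2.1, h2.2]
        rw [if_neg h2]
        have h4 : y a b = 0 := by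
          apply hy.2 a b hab
          rintro ⟨h5, h6⟩
          apply h2
          constructor
          · by_contra haj
            by_cases hai : a = i
            · rw [hai] at h5; linarith
            · rw [hl a hai haj] at h5; exact lt_irrefl _ h5
          · by_contra hbi
            by_cases hbj : b = j
            · rw [hbj] at h6; linarith
            · rw [hl b hbi hbj] at h6; exact lt_irrefl _ h6
        rw [h4]
        split_ifs <;> rfl
      rw [e]
      exact hfy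
    obtain ⟨x, y, w, hxf, hSS⟩ := dyn3 (θ : ι → ℝ) i z j hiz hzj hij hi hj f hf'
    have hdet := det3 i z j hiz hzj hij x y w
    refine ⟨mk3 i z j x y w, Finset.univ.filter (fun l => l ≠ i ∧ l ≠ z ∧ l ≠ j), hdet, hxf,
      ?_, ?_, ?_, ?_, ?_⟩
    · intro l hlL b
      obtain ⟨-, h1, h2, h3⟩ := Finset.mem_filter.1 hlL
      unfold mk3
      rw [if_neg (show ¬ (l = z ∧ b = i) from fun h => h2 h.1),
        if_neg (show ¬ (l = j ∧ b = i) from fun h => h3 h.1),
        if_neg (show ¬ (l = j ∧ b = z) from fun h => h3 h.1)]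
    · intro l hlL a
      obtain ⟨-, h1, h2, h3⟩ := Finset.mem_filter.1 hlL
      unfold mk3
      rw [if_neg (show ¬ (a = z ∧ l = i) from fun h => h1 h.2),
        if_neg (show ¬ (a = j ∧ l = i) from fun h => h1 h.2),
        if_neg (show ¬ (a = j ∧ l = z) from fun h => h2 h.2)]
    · intro l hlL
      obtain ⟨-, h1, h2, h3⟩ := Finset.mem_filter.1 hlL
      exact hl l h1 h3
    · intro d hd hdl
      apply hspan d hd
      intro l h1 h2 h3
      exact hdl l (Finset.mem_filter.2 ⟨Finset.mem_univ l, h1, h2, h3⟩)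
    · apply dyn_comb θ hθ0 _ hdet _ hSS
      intro j' hj' a
      have hjj : j' = j := by
        by_contra h1
        by_cases h2 : j' = i
        · rw [h2] at hj'; linarith
        · rw [hl j' h2 h1] at hj'; exact lt_irrefl _ hj'
      subst hjj
      unfold mk3
      rw [if_neg (show ¬ (a = z ∧ j' = i) from fun h => hij h.2.symm),
        if_neg (show ¬ (a = j' ∧ j' = i) from fun h => hij h.2.symm),
        if_neg (show ¬ (a = j' ∧ j' = z) from fun h => hzj h.2.symm)]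

end Wei
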