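import Pool.Agent.Helper188.Wei.Defs

/-!
# Divergent but non-obvious orbits on `SL(n,ℝ)/Γ`: definitions
-/

open Matrix Filter Topology

namespace Wei
variable {ι : Type} [Fintype ι] [DecidableEq ι]


/-- The sequence `h e(nθ) h⁻¹` tends to infinity in `D`. -/
theorem seqinf (h : SpecialLinearGroup ι ℝ) (𝔡 : Submodule ℝ (TZ ι)) (θ : TZ ι) (hθ : θ ∈ 𝔡)
    (hθ0 : θ ≠ 0) :
    Tendsto (fun n : ℕ => (⟨h * dg ((n : ℝ) • θ) * h⁻¹, ⟨(n : ℝ) • θ, 𝔡.smul_mem _ hθ, rfl⟩⟩ :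
      torus h 𝔡)) atTop (cocompact (torus h 𝔡)) := by
  obtain ⟨j, hj⟩ : ∃ j, 0 < (θ : ι → ℝ) j := by
    by_contra hcon
    push Not at hcon
    have h1 : ∑ i, (θ : ι → ℝ) i = 0 := θ.2
    have h2 := (Finset.sum_eq_zero_iff_of_nonpos (fun i _ => hcon i)).1 h1
    apply hθ0
    apply Subtype.ext
    funext i
    exact h2 i (Finset.mem_univ i)
  have hF : Continuous (fun d : torus h 𝔡 =>
      ((h⁻¹ * (d : SpecialLinearGroup ι ℝ) * h : SpecialLinearGroup ι ℝ) : Matrix ι ι ℝ) j j) := by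
    have h1 : Continuous (fun d : torus h 𝔡 =>
      (h⁻¹ * (d : SpecialLinearGroup ι ℝ) * h : SpecialLinearGroup ι ℝ)) := by
      exact (continuous_const.mul continuous_subtype_val).mul continuous_const
    have h2 : Continuous (fun g : SpecialLinearGroup ι ℝ => (g : Matrix ι ι ℝ)) :=
      continuous_subtype_val
    exact (continuous_apply_apply j j).comp (h2.comp h1)
  have hval : ∀ n : ℕ, ((h⁻¹ * (h * dg ((n : ℝ) • θ) * h⁻¹) * h : SpecialLinearGroup ι ℝ) :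
      Matrix ι ι ℝ) j j = Real.exp ((n : ℝ) * (θ : ι → ℝ) j) := by
    intro n
    have h1 : (h⁻¹ * (h * dg ((n : ℝ) • θ) * h⁻¹) * h : SpecialLinearGroup ι ℝ) =
      dg ((n : ℝ) • θ) := by group
    rw [h1]
    simp [dg]
  rw [Filter.hasBasis_cocompact.tendsto_right_iff]
  intro K hK
  obtain ⟨M, hM⟩ := (hK.image hF).bddAbove
  have ht : Tendsto (fun n : ℕ => Real.exp ((n : ℝ) * (θ : ι → ℝ) j)) atTop atTop :=
    Real.tendsto_exp_atTop.comp (tendsto_natCast_atTop_atTop.atTop_mul_const hj)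
  filter_upwards [ht.eventually_gt_atTop M] with n hn hmem
  have h3 := hM (Set.mem_image_of_mem _ hmem)
  simp only [hval n] at h3
  linarith

end Wei
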