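import Pool.Agent.Helper188.Wei.Defs
import Pool.Agent.Helper188.Wei.P_seqinf

/-!
# Divergent but non-obvious orbits on `SL(n,ℝ)/Γ`: definitions
-/

open Matrix Filter Topology

namespace Wei
variable {ι : Type} [Fintype ι] [DecidableEq ι]


theorem nonobv (Γ : Subgroup (SpecialLinearGroup ι ℝ)) (h g : SpecialLinearGroup ι ℝ)
    (𝔡 : Submodule ℝ (TZ ι)) (θ : TZ ι) (hθ : θ ∈ 𝔡) (hθ0 : θ ≠ 0)
    (hno : ∀ (m : ℕ) (ρ : SpecialLinearGroup ι ℝ →* Matrix (Fin m) (Fin m) ℝ), IsQRep ρ →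
      ∀ v : Fin m → ℚ, v ≠ 0 → ∀ γ ∈ Γ, ∀ r : ℕ → ℝ, Tendsto r atTop atTop →
        ¬ Tendsto (fun k => ρ (dg (r k • θ) * g) *ᵥ (ρ γ *ᵥ (fun j => (v j : ℝ)))) atTop (𝓝 0)) :
    ¬ Obvious Γ (torus h 𝔡)
      ((h * g : SpecialLinearGroup ι ℝ) : SpecialLinearGroup ι ℝ ⧸ Γ) := by
  rintro ⟨g', hg', l, m, ρ, v, hQ, hv, hseq⟩
  obtain ⟨i, φ, hφ, ht⟩ := hseq _ (seqinf h 𝔡 θ hθ hθ0)
  have hγ : (h * g)⁻¹ * g' ∈ Γ := QuotientGroup.eq.1 hg'.symm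
  refine hno (m i) (ρ i) (hQ i) (v i) (hv i) _ hγ (fun k => ((φ k : ℕ) : ℝ)) ?_ ?_
  · exact tendsto_natCast_atTop_atTop.comp hφ.tendsto_atTop
  · have hc : Continuous fun w : Fin (m i) → ℝ => (ρ i) h⁻¹ *ᵥ w :=
      continuous_const.matrix_mulVec continuous_id
    have h1 := (hc.tendsto 0).comp ht
    rw [mulVec_zero] at h1
    refine h1.congr fun k => ?_
    show (ρ i) h⁻¹ *ᵥ ((ρ i) ((h * dg (((φ k : ℕ) : ℝ) • θ) * h⁻¹) * g') *ᵥ _) = _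
    rw [mulVec_mulVec, mulVec_mulVec, ← map_mul, ← map_mul]
    congr 2
    group

end Wei
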