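import Pool.Agent.Helper188.Wei.Defs

/-!
# Divergent but non-obvious orbits on `SL(n,ℝ)/Γ`: definitions
-/

open Matrix Filter Topology

namespace Wei
variable {ι : Type} [Fintype ι] [DecidableEq ι]


theorem qrep {m : ℕ} (ρ : SpecialLinearGroup ι ℝ →* Matrix (Fin m) (Fin m) ℝ)
    (hρ : IsQRep ρ) : PolyRep ρ := by
  obtain ⟨P, hP⟩ := hρ
  refine ⟨fun i j => MvPolynomial.map (algebraMap ℚ ℝ) (P i j), ?_⟩
  intro g i j
  rw [hP g i j, MvPolynomial.eval_map, MvPolynomial.aeval_def]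

end Wei
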