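import Pool.Agent.Helper188.Wei.Defs
import Pool.Agent.Helper188.Wei.P_dyn
import Pool.Agent.Helper188.Wei.P_avoid
import Pool.Agent.Helper188.Wei.P_allshort
import Pool.Agent.Helper188.Wei.P_divof
import Pool.Agent.Helper188.Wei.P_nonobv
import Pool.Agent.Helper188.Wei.P_qrep
import Pool.Agent.Helper188.Wei.P_cntrep
import Pool.Agent.Helper188.Wei.P_cntgam

open Matrix Filter Topology

namespace Wei

variable {ι : Type} [Fintype ι] [DecidableEq ι]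

theorem mainthm (Γ : Subgroup (SpecialLinearGroup ι ℝ)) (hΓ : Subgroup.Commensurable Γ (SLZ ι))
    (h : SpecialLinearGroup ι ℝ) (𝔡 : Submodule ℝ (TZ ι)) (h0 : 𝔡 ≠ ⊥)
    (hfin : Module.finrank ℝ 𝔡 + 2 ≤ Fintype.card ι) :
    ∃ x : SpecialLinearGroup ι ℝ ⧸ Γ,
      Divergent Γ (torus h 𝔡) x ∧ ¬ Obvious Γ (torus h 𝔡) x := by
  classical
  obtain ⟨θ, hθ, hθ0, hdyn⟩ := dyn 𝔡 h0 hfin
  let T : Type := Σ m : ℕ, {ρ : SpecialLinearGroup ι ℝ →* Matrix (Fin m) (Fin m) ℝ // IsQRep ρ} ×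
    {v : Fin m → ℚ // v ≠ 0} × Γ
  have : ∀ m : ℕ, Countable
    {ρ : SpecialLinearGroup ι ℝ →* Matrix (Fin m) (Fin m) ℝ // IsQRep ρ} := cntrep
  have : Countable Γ := cntgam Γ hΓ
  have : Countable T := inferInstance
  have : Nonempty T := by
    refine ⟨⟨1, ⟨1, ?_⟩, ⟨fun _ => 1, ?_⟩, 1⟩⟩
    · refine ⟨fun _ _ => 1, ?_⟩
      intro g i j
      have hij : i = j := Subsingleton.elim i j
      subst hij
      simp
    · intro hh
      have := congrFun hh 0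
      simp at this
  obtain ⟨e, he⟩ := exists_surjective_nat T
  have hw : ∀ t : T, t.2.1.1 (t.2.2.2 : SpecialLinearGroup ι ℝ) *ᵥ
      (fun j => ((t.2.2.1.1 j : ℚ) : ℝ)) ≠ 0 := by
    intro t hh
    apply t.2.2.1.2
    have h1 : t.2.1.1 ((t.2.2.2 : SpecialLinearGroup ι ℝ)⁻¹) *ᵥ
      (t.2.1.1 (t.2.2.2 : SpecialLinearGroup ι ℝ) *ᵥ
      (fun j => ((t.2.2.1.1 j : ℚ) : ℝ))) = 0 := by rw [hh, mulVec_zero]
    rw [mulVec_mulVec, ← map_mul, inv_mul_cancel, map_one, one_mulVec] at h1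
    funext j
    have := congrFun h1 j
    simpa using this
  have hav : ∀ t : T, ∃ f : MvPolynomial (ι × ι) ℝ, (∃ y ∈ chart (θ : ι → ℝ), pv f y ≠ 0) ∧
      ∀ g : SpecialLinearGroup ι ℝ, pv f (fun a b => g a b) ≠ 0 →
        ∀ r : ℕ → ℝ, Tendsto r atTop atTop →
          ¬ Tendsto (fun k => t.2.1.1 (dg (r k • θ) * g) *ᵥ
            (t.2.1.1 (t.2.2.2 : SpecialLinearGroup ι ℝ) *ᵥ
              (fun j => ((t.2.2.1.1 j : ℚ) : ℝ)))) atTop (𝓝 0) := by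
    intro t
    exact avoid t.2.1.1 (qrep t.2.1.1 t.2.1.2) θ hθ0 _ (hw t)
  choose F hF1 hF2 using hav
  obtain ⟨x, L, hdet, hfx, hxL, hxL', hθL, hker, hvs⟩ := hdyn (fun k => F (e k)) (fun k => hF1 (e k))
  let g : SpecialLinearGroup ι ℝ := ⟨Matrix.of x, hdet⟩
  have hgx : (fun a b => g a b) = x := rfl
  refine ⟨((h * g : SpecialLinearGroup ι ℝ) : SpecialLinearGroup ι ℝ ⧸ Γ), ?_, ?_⟩
  · apply divof Γ hΓ h g 𝔡
    exact allshort 𝔡 θ L hθL hker x hdet hxL hxL' hvs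
  · apply nonobv Γ h g 𝔡 θ hθ hθ0
    intro m ρ hρ v hv γ hγ r hr
    obtain ⟨k, hk⟩ := he ⟨m, ⟨ρ, hρ⟩, ⟨v, hv⟩, ⟨γ, hγ⟩⟩
    have h2 := hF2 (e k) g (by rw [hgx]; exact hfx k) r hr
    rw [hk] at h2
    exact h2

end Wei
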