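import Pool.Agent.Helper188.Wei.Lie

/-!
# Closed connected subgroups of the split torus: definitions
-/

open Matrix Filter Topology

namespace Wei
variable {ι : Type} [Fintype ι] [DecidableEq ι]


/-- The lines contained in a closed additive subgroup of a finite-dimensional space: small
elements of the subgroup lie on such lines. -/
theorem linesin {V : Type} [NormedAddCommGroup V] [NormedSpace ℝ V] [FiniteDimensional ℝ V]
    (H : AddSubgroup V) (hH : IsClosed (H : Set V)) (W : Submodule ℝ V)
    (hW : ∀ v, v ∈ W ↔ ∀ s : ℝ, s • v ∈ H) :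
    ∃ δ > 0, ∀ a ∈ H, ‖a‖ < δ → a ∈ W := by
  by_contra hcon
  push Not at hcon
  have hWH : ∀ v ∈ W, v ∈ H := by
    intro v hv
    have := (hW v).1 hv 1
    rwa [one_smul] at this
  obtain ⟨C, hC⟩ := W.exists_isCompl
  obtain ⟨P, hP1, hP2⟩ : ∃ P : V →ₗ[ℝ] V, (∀ x, P x ∈ C) ∧ ∀ x, x - P x ∈ W := by
    refine ⟨C.subtype ∘ₗ C.projectionOnto W hC.symm, fun x => Submodule.coe_mem _, ?_⟩
    intro x
    rw [← Submodule.projectionOnto_apply_eq_zero_iff hC.symm, map_sub, sub_eq_zero]
    exact (Submodule.projectionOnto_apply_left hC.symm _).symm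
  have hPc : Continuous P := P.continuous_of_finiteDimensional
  choose a haH hasm haW using fun n : ℕ => hcon (1 / ((n : ℝ) + 1)) (by positivity)
  have ha0 : Tendsto a atTop (𝓝 0) := by
    rw [tendsto_zero_iff_norm_tendsto_zero]
    exact squeeze_zero (fun n => norm_nonneg _) (fun n => (hasm n).le)
      tendsto_one_div_add_atTop_nhds_zero_nat
  have hc0 : Tendsto (fun n => P (a n)) atTop (𝓝 0) := by
    have := (hPc.tendsto 0).comp ha0
    rw [map_zero] at this
    exact this
  have hcH : ∀ n, P (a n) ∈ H := by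
    intro n
    have h1 := H.sub_mem (haH n) (hWH _ (hP2 (a n)))
    rwa [sub_sub_cancel] at h1
  have hcne : ∀ n, P (a n) ≠ 0 := by
    intro n h
    have h1 := hP2 (a n)
    rw [h, sub_zero] at h1
    exact haW n h1
  have : ProperSpace V := FiniteDimensional.proper ℝ V
  have hsph : ∀ n, ‖P (a n)‖⁻¹ • P (a n) ∈ Metric.sphere (0 : V) 1 := by
    intro n
    rw [mem_sphere_zero_iff_norm, norm_smul, norm_inv, norm_norm]
    exact inv_mul_cancel₀ (norm_ne_zero_iff.2 (hcne n))
  obtain ⟨u, hu, φ, hφ, hlim⟩ := (isCompact_sphere (0 : V) 1).tendsto_subseq hsph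
  have hun : ‖u‖ = 1 := mem_sphere_zero_iff_norm.1 hu
  have hcφ : Tendsto (fun n => P (a (φ n))) atTop (𝓝 0) := hc0.comp hφ.tendsto_atTop
  have huW : u ∈ W := by
    rw [hW]
    intro s
    have ht : Tendsto (fun n => ⌊s / ‖P (a (φ n))‖⌋ • P (a (φ n))) atTop (𝓝 (s • u)) := by
      have h1 : Tendsto (fun n => s • (‖P (a (φ n))‖⁻¹ • P (a (φ n)))) atTop (𝓝 (s • u)) :=
        hlim.const_smul s
      have h2 : Tendsto (fun n => Int.fract (s / ‖P (a (φ n))‖) • P (a (φ n))) atTop (𝓝 0) := by
        rw [tendsto_zero_iff_norm_tendsto_zero]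
        refine squeeze_zero (fun n => norm_nonneg _) (fun n => ?_)
          (tendsto_zero_iff_norm_tendsto_zero.1 hcφ)
        rw [norm_smul, Real.norm_eq_abs, abs_of_nonneg (Int.fract_nonneg _)]
        exact mul_le_of_le_one_left (norm_nonneg _) (Int.fract_lt_one _).le
      have h3 := h1.sub h2
      rw [sub_zero] at h3
      refine h3.congr (fun n => ?_)
      rw [smul_smul, ← div_eq_mul_inv, ← sub_smul, Int.self_sub_fract, Int.cast_smul_eq_zsmul]
    exact hH.mem_of_tendsto ht (Eventually.of_forall fun n => H.zsmul_mem (hcH (φ n)) _)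
  have huC : u ∈ C := by
    have hCc : IsClosed (C : Set V) := C.closed_of_finiteDimensional
    exact hCc.mem_of_tendsto hlim
      (Eventually.of_forall fun n => C.smul_mem _ (hP1 (a (φ n))))
  have hu0 : u = 0 := Submodule.disjoint_def.1 hC.disjoint u huW huC
  rw [hu0, norm_zero] at hun
  exact zero_ne_one hun

end Wei
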