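import Pool.Agent.Helper188.Wei.Lie
import Pool.Agent.Helper188.Wei.P_linesin

/-!
# Closed connected subgroups of the split torus: definitions
-/

open Matrix Filter Topology

namespace Wei
variable {ι : Type} [Fintype ι] [DecidableEq ι]


/-- A closed connected additive subgroup of a finite-dimensional real space is a linear
subspace. -/
theorem closedconn {V : Type} [NormedAddCommGroup V] [NormedSpace ℝ V] [FiniteDimensional ℝ V]
    (H : AddSubgroup V) (hH : IsClosed (H : Set V)) (hc : IsPreconnected (H : Set V)) (a : V)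
    (ha : a ∈ H) (s : ℝ) : s • a ∈ H := by
  let W : Submodule ℝ V :=
    { carrier := {v | ∀ s : ℝ, s • v ∈ H}
      add_mem' := by
        intro v w hv hw s
        rw [smul_add]
        exact H.add_mem (hv s) (hw s)
      zero_mem' := by
        intro s
        rw [smul_zero]
        exact H.zero_mem
      smul_mem' := by
        intro c v hv s
        rw [smul_smul]
        exact hv (s * c) }
  have hWmem : ∀ v, v ∈ W ↔ ∀ s : ℝ, s • v ∈ H := fun v => Iff.rfl
  obtain ⟨δ, hδ, hδW⟩ := linesin H hH W hWmem
  by_contra hcon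
  have haW : a ∉ W := fun h => hcon ((hWmem a).mp h s)
  have hWH : ∀ v ∈ W, v ∈ H := by
    intro v hv
    have := (hWmem v).mp hv 1
    rwa [one_smul] at this
  have hWc : IsClosed (W : Set V) := Submodule.closed_of_finiteDimensional W
  have hU1 : IsOpen (Metric.thickening δ (W : Set V)) := Metric.isOpen_thickening
  have hU2 : IsOpen ((W : Set V)ᶜ) := hWc.isOpen_compl
  have hcov : (H : Set V) ⊆ Metric.thickening δ (W : Set V) ∪ (W : Set V)ᶜ := by
    intro x _
    by_cases hx : x ∈ (W : Set V)
    · exact Or.inl (Metric.self_subset_thickening hδ _ hx)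
    · exact Or.inr hx
  obtain ⟨b, hbH, hb1, hb2⟩ := hc _ _ hU1 hU2 hcov
    ⟨0, H.zero_mem, Metric.self_subset_thickening hδ _ W.zero_mem⟩ ⟨a, ha, haW⟩
  obtain ⟨w, hw, hbw⟩ := Metric.mem_thickening_iff.mp hb1
  apply hb2
  have h1 : b - w ∈ W := by
    apply hδW
    · exact H.sub_mem hbH (hWH w hw)
    · rwa [← dist_eq_norm]
  have h2 : b = (b - w) + w := by abel
  show b ∈ W
  rw [h2]
  exact W.add_mem h1 hw

end Wei
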