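import Pool.Agent.Helper188.Wei.Lie

/-!
# Closed connected subgroups of the split torus: definitions
-/

open Matrix Filter Topology

namespace Wei
variable {ι : Type} [Fintype ι] [DecidableEq ι]


/-- A connected subgroup of the real points of the torus lies in its identity component. -/
theorem posdiag (h : SpecialLinearGroup ι ℝ) (D : Subgroup (SpecialLinearGroup ι ℝ))
    (hc : IsPreconnected (D : Set (SpecialLinearGroup ι ℝ)))
    (hD : ∀ d ∈ D, (h⁻¹ * d * h : SpecialLinearGroup ι ℝ).1.IsDiag) :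
    ∀ d ∈ D, ∃ a : TZ ι, d = h * dg a * h⁻¹ := by
  have hdiag : ∀ d ∈ D, (h⁻¹ * d * h : SpecialLinearGroup ι ℝ).1
      = diagonal (fun i => (h⁻¹ * d * h : SpecialLinearGroup ι ℝ).1 i i) := by
    intro d hd
    ext i j
    by_cases hij : i = j
    · subst hij
      rw [diagonal_apply_eq]
    · rw [diagonal_apply_ne _ hij]
      exact hD d hd hij
  have hprod : ∀ d ∈ D, ∏ i, (h⁻¹ * d * h : SpecialLinearGroup ι ℝ).1 i i = 1 := by
    intro d hd
    rw [← det_diagonal, ← hdiag d hd]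
    exact (h⁻¹ * d * h : SpecialLinearGroup ι ℝ).2
  have hne : ∀ i, ∀ d ∈ D, (h⁻¹ * d * h : SpecialLinearGroup ι ℝ).1 i i ≠ 0 := by
    intro i d hd h0
    have h1 := hprod d hd
    have h2 : ∏ j, (h⁻¹ * d * h : SpecialLinearGroup ι ℝ).1 j j = 0 :=
      Finset.prod_eq_zero (Finset.mem_univ i) h0
    exact zero_ne_one (h2.symm.trans h1)
  have hpos : ∀ i, ∀ d ∈ D, 0 < (h⁻¹ * d * h : SpecialLinearGroup ι ℝ).1 i i := by
    intro i d hd
    by_contra hcon
    have hlt : (h⁻¹ * d * h : SpecialLinearGroup ι ℝ).1 i i < 0 :=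
      lt_of_le_of_ne (not_lt.mp hcon) (hne i d hd)
    have hcont : Continuous (fun d : SpecialLinearGroup ι ℝ =>
        (h⁻¹ * d * h : SpecialLinearGroup ι ℝ).1 i i) := by
      have h1 : Continuous (fun d : SpecialLinearGroup ι ℝ =>
        (h⁻¹ * d * h : SpecialLinearGroup ι ℝ)) := by fun_prop
      exact (continuous_subtype_val.comp h1).matrix_elem i i
    have hpre := (hc.image _ hcont.continuousOn).ordConnected
    have hd' : (h⁻¹ * d * h : SpecialLinearGroup ι ℝ).1 i i ∈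
        (fun d : SpecialLinearGroup ι ℝ =>
        (h⁻¹ * d * h : SpecialLinearGroup ι ℝ).1 i i) '' (D : Set (SpecialLinearGroup ι ℝ)) :=
      ⟨d, hd, rfl⟩
    have h1' : (1 : ℝ) ∈
        (fun d : SpecialLinearGroup ι ℝ =>
        (h⁻¹ * d * h : SpecialLinearGroup ι ℝ).1 i i) '' (D : Set (SpecialLinearGroup ι ℝ)) := by
      refine ⟨1, D.one_mem, ?_⟩
      have : (h⁻¹ * 1 * h : SpecialLinearGroup ι ℝ) = 1 := by group
      show (h⁻¹ * 1 * h : SpecialLinearGroup ι ℝ).1 i i = 1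
      rw [this]
      simp
    obtain ⟨e, he, he0⟩ := hpre.out hd' h1' ⟨hlt.le, zero_le_one⟩
    exact hne i e he he0
  intro d hd
  have hsum : ∑ i, Real.log ((h⁻¹ * d * h : SpecialLinearGroup ι ℝ).1 i i) = 0 := by
    rw [← Real.log_prod (fun i _ => hne i d hd), hprod d hd, Real.log_one]
  refine ⟨⟨fun i => Real.log ((h⁻¹ * d * h : SpecialLinearGroup ι ℝ).1 i i), hsum⟩, ?_⟩
  have hE : (h⁻¹ * d * h : SpecialLinearGroup ι ℝ)
      = dg ⟨fun i => Real.log ((h⁻¹ * d * h : SpecialLinearGroup ι ℝ).1 i i), hsum⟩ := by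
    apply Subtype.ext
    refine (hdiag d hd).trans ?_
    show _ = diagonal _
    congr 1
    funext i
    exact (Real.exp_log (hpos i d hd)).symm
  rw [← hE]
  group

end Wei
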