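import Pool.Agent.Helper188.Wei.Lie
import Pool.Agent.Helper188.Wei.P_closedconn
import Pool.Agent.Helper188.Wei.P_posdiag

/-!
# Closed connected subgroups of the split torus: definitions
-/

open Matrix Filter Topology

namespace Wei
variable {ι : Type} [Fintype ι] [DecidableEq ι]


theorem islie_aux_cont (h : SpecialLinearGroup ι ℝ) :
    Continuous (fun a : TZ ι => h * dg a * h⁻¹) := by
  have h1 : Continuous (fun a : TZ ι => dg a) := by
    unfold dg
    refine Continuous.subtype_mk ?_ _
    refine Continuous.matrix_diagonal ?_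
    refine continuous_pi fun i => Real.continuous_exp.comp ?_
    exact (continuous_apply i).comp continuous_subtype_val
  exact (continuous_const.mul h1).mul continuous_const

theorem islie_aux_conj (h : SpecialLinearGroup ι ℝ) (a : TZ ι) (i : ι) :
    (h⁻¹ * (h * dg a * h⁻¹) * h : SpecialLinearGroup ι ℝ).1 i i = Real.exp ((a : ι → ℝ) i) := by
  have : h⁻¹ * (h * dg a * h⁻¹) * h = dg a := by group
  rw [this]
  simp [dg]

theorem islie (h : SpecialLinearGroup ι ℝ) (D : Subgroup (SpecialLinearGroup ι ℝ))
    (hcl : IsClosed (D : Set (SpecialLinearGroup ι ℝ)))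
    (hc : IsPreconnected (D : Set (SpecialLinearGroup ι ℝ)))
    (hD : ∀ d ∈ D, (h⁻¹ * d * h : SpecialLinearGroup ι ℝ).1.IsDiag) (g : SpecialLinearGroup ι ℝ) :
    g ∈ D ↔ ∃ a ∈ lieAlg h D, g = h * dg a * h⁻¹ := by
  let H : AddSubgroup (TZ ι) :=
    { carrier := {a | h * dg a * h⁻¹ ∈ D}
      add_mem' := by
        intro a b ha hb
        simp only [Set.mem_ofPred_eq] at *
        have := D.mul_mem ha hb
        rw [dg_add]
        convert this using 1
        group
      zero_mem' := by
        simp only [Set.mem_ofPred_eq]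
        rw [dg_zero, mul_one, mul_inv_cancel]
        exact D.one_mem
      neg_mem' := by
        intro a ha
        simp only [Set.mem_ofPred_eq] at *
        have := D.inv_mem ha
        rw [dg_neg]
        convert this using 1
        group }
  have hmemH : ∀ a : TZ ι, a ∈ H ↔ h * dg a * h⁻¹ ∈ D := fun a => Iff.rfl
  have hHcl : IsClosed (H : Set (TZ ι)) := hcl.preimage (islie_aux_cont h)
  have hdiag : ∀ d : D, ∃ a : TZ ι, (d : SpecialLinearGroup ι ℝ) = h * dg a * h⁻¹ :=
    fun d => posdiag h D hc hD d d.2
  have hlog : ∀ (d : D) (a : TZ ι), (d : SpecialLinearGroup ι ℝ) = h * dg a * h⁻¹ →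
      ∀ i, Real.log ((h⁻¹ * (d : SpecialLinearGroup ι ℝ) * h : SpecialLinearGroup ι ℝ).1 i i) =
        (a : ι → ℝ) i := by
    intro d a hda i
    rw [hda, islie_aux_conj, Real.log_exp]
  let f : D → TZ ι := fun d =>
    ⟨fun i => Real.log ((h⁻¹ * (d : SpecialLinearGroup ι ℝ) * h : SpecialLinearGroup ι ℝ).1 i i), by
      obtain ⟨a, ha⟩ := hdiag d
      show ∑ i, Real.log _ = 0
      simp only [hlog d a ha]
      exact a.2⟩
  have hfa : ∀ (d : D) (a : TZ ι), (d : SpecialLinearGroup ι ℝ) = h * dg a * h⁻¹ → f d = a := by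
    intro d a hda
    apply Subtype.ext
    funext i
    exact hlog d a hda i
  have hfc : Continuous f := by
    refine Continuous.subtype_mk ?_ _
    refine continuous_pi fun i => Continuous.log ?_ ?_
    · have h1 : Continuous (fun d : D => (h⁻¹ * (d : SpecialLinearGroup ι ℝ) * h)) :=
        (continuous_const.mul continuous_subtype_val).mul continuous_const
      exact (continuous_apply_apply i i).comp (continuous_subtype_val.comp h1)
    · intro d
      obtain ⟨a, ha⟩ := hdiag d
      rw [ha, islie_aux_conj]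
      exact (Real.exp_pos _).ne'
  have hrange : Set.range f = (H : Set (TZ ι)) := by
    ext a
    constructor
    · rintro ⟨d, rfl⟩
      obtain ⟨a, ha⟩ := hdiag d
      rw [hfa d a ha]
      show h * dg a * h⁻¹ ∈ D
      rw [← ha]
      exact d.2
    · intro ha
      exact ⟨⟨h * dg a * h⁻¹, ha⟩, hfa _ a rfl⟩
  have : PreconnectedSpace D := Subtype.preconnectedSpace hc
  have hHc : IsPreconnected (H : Set (TZ ι)) := by
    rw [← hrange]
    exact isPreconnected_range hfc
  constructor
  · intro hg
    obtain ⟨a, ha⟩ := posdiag h D hc hD g hg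
    refine ⟨a, ?_, ha⟩
    intro s
    have haH : a ∈ H := by
      rw [hmemH, ← ha]
      exact hg
    exact (hmemH _).1 (closedconn H hHcl hHc a haH s)
  · rintro ⟨a, ha, rfl⟩
    have := ha 1
    rwa [one_smul] at this

end Wei
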